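import Pool.Agent.H36.LH.CorT
import Pool.Agent.H36.LH.SaC
import Pool.Agent.H36.LE.Pr

/-!
# THEOREM L, version 4 (MP_187c26_nt), parameters, part 1

MODEL: `finAB` in `Pool/Agent/H36/LG/FaB.lean` (copy and change). Imports may be sorried (`corT1`, `stepAC`).
PROOF. `T = C = e + 30`, `Q = Z^12`, `L = Z^20 d`, `n = m / Z^12 + 1`, `𝒬 = {q ∈ [1, Z^12] prime, Z^12 < 4 q, q ∉ ℬ}`. By `many_primes` for `Z^12`: `Z^36 ≤ #^4`, so `#𝒬 ≥ Z^9 - (e + 3) ≥ 4 Z^8`. For `q ∈ 𝒬` and `Z` large: `Z^11 < q < Z^12`, `q > δ₀` (`q ∤ δ`), `(n - 1) q < m`. `ι := log δ` (`≥ 0`).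
`corT1` with `g = 1`: `log (L d) ≤ (20 + 2 e) log Z`, `log (g L) ≤ (20 + e) log Z`, `log q ≥ 12 log Z - log 4`; the inequality is `(10 + e) + T (20 + e) + C (10 + e) < 12 C T` times `log Z` plus a constant (depends on `b`, `δ₀`, `e`): `12 T^2 - T (2 e + 30) - (10 + e) = T (10 e + 330) - (10 + e) ≥ 1`. `q L h ≤ Z^32 d h ≤ 1`.
So there is `V ≤ VsA A σ x a n L 1 𝒬` with `n L - dim V ≤ D := (C + 1) T (T + 1) m d`. `stepAC` with `M₀ = m d`: `n L > m d Z^8 ≥ D` (`n Z^12 > m`; `Z ≥ (C + 1) T (T + 1)`), `2 n L ≤ 4 m d Z^8 ≤ m d #𝒬` (`n Z^12 ≤ 2 m`). Result: `q ∈ 𝒬`, `G` with `dX G L + (n - dX G) natDegree G ≤ D`.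
`dX G Z^20 d ≤ D ≤ Z m d`: `dX G Z^19 ≤ m`. `n - dX G ≥ m/(2 Z^12)`, so `natDegree G ≤ 2 (C + 1) T (T + 1) Z^12 d ≤ Z^13 d`.
-/

set_option autoImplicit false

open Polynomial NumberField IntermediateField
open scoped Polynomial.Bivariate

namespace Pool.Agent.H36.LH

open Pool.Agent.H36.LE Pool.Agent.H36.LF

private theorem finac_h {E : Type} [Field E] [CharZero E] (a : E) : 0 ≤ absLogHeight₁ a := by
  unfold absLogHeight₁ absMulHeight₁
  split_ifs with hx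
  · have : FiniteDimensional ℚ ℚ⟮a⟯ := adjoin.finiteDimensional hx
    have : NumberField ℚ⟮a⟯ := {}
    refine Real.log_nonneg ?_
    exact Real.one_le_rpow (Height.one_le_mulHeight₁ _) (by positivity)
  · rw [Real.log_one]

theorem finAC (b : ℕ) (hb : 2 ≤ b) (δ₀ e : ℕ) : ∃ Z₀ : ℕ, ∀ Z : ℕ, Z₀ ≤ Z →
    ∀ (A E : Type) [Field A] [NumberField A] [Field E] [NumberField E] [Algebra A E]
      (m d δ : ℕ) (x a : E) (σ : ℕ → (A →+* A)) (ℬ : Finset ℕ), 1 ≤ δ → δ ≤ δ₀ →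
      RdA A b m d (Real.log δ) x → Mx A x δ →
      (∀ q : ℕ, q.Prime → Z ≤ q → q ≤ Z ^ 12 → Pool.Agent.H72.BE.Frob A q (σ q)) →
      ℬ.card ≤ e + 3 →
      (∀ q : ℕ, q.Prime → Z ^ 11 < q → q ≤ Z ^ 12 → q ∉ ℬ →
        m * d ≤ Module.finrank A (IntermediateField.adjoin A ({x ^ q, a ^ q} : Set E))) →
      d ≤ Z ^ e → Z ^ 18 ≤ m → a ≠ 0 → (Z : ℝ) ^ 32 * (d * absLogHeight₁ a) ≤ 1 →
      ∃ (q : ℕ) (G : A[X][Y]), q.Prime ∧ Z ^ 11 < q ∧ q ≤ Z ^ 12 ∧ q ∉ ℬ ∧ Irreducible G ∧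
        aevalAeval (R := A) (x ^ q) (a ^ q) G = 0 ∧ 1 ≤ G.natDegree ∧
        G.natDegree ≤ d * Z ^ 13 ∧ dX G * Z ^ 19 ≤ m := by
  obtain ⟨T₀, hT₀⟩ := many_primes
  obtain ⟨t, ht⟩ : ∃ t : ℕ, t = e + 30 := ⟨_, rfl⟩
  obtain ⟨K, hK⟩ : ∃ K : ℕ, K = (t + 1) * (t * (t + 1)) := ⟨_, rfl⟩
  obtain ⟨lam, hlam⟩ : ∃ lam : ℝ, lam = Real.log (max δ₀ 1 : ℕ) := ⟨_, rfl⟩
  have hlam0 : 0 ≤ lam := by
    rw [hlam]
    exact Real.log_nonneg (by exact_mod_cast le_max_right δ₀ 1)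
  refine ⟨max (max (max T₀ (2 * K)) (max (e + 7) (δ₀ + 1)))
    ⌈Real.exp ((t : ℝ) * t * Real.log 4 + (t + 1) * (2 * Real.log b + lam + 1) +
      t * (t + 1) * lam)⌉₊, ?_⟩
  intro Z hZ A E _ _ _ _ _ m d δ x a σ ℬ hδ1 hδ0 hx hMx hσ hℬ hdg hde hm ha hh
  have hfinAE : Module.Finite A E := Module.Finite.of_restrictScalars_finite ℚ A E
  have hZT : T₀ ≤ Z := (le_max_left _ _).trans ((le_max_left _ _).trans ((le_max_left _ _).trans hZ))
  have hZK : 2 * K ≤ Z := (le_max_right _ _).trans ((le_max_left _ _).trans ((le_max_left _ _).trans hZ))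
  have hZe : e + 7 ≤ Z := (le_max_left _ _).trans ((le_max_right _ _).trans ((le_max_left _ _).trans hZ))
  have hZδ : δ₀ + 1 ≤ Z := (le_max_right _ _).trans ((le_max_right _ _).trans ((le_max_left _ _).trans hZ))
  have hZexp : Real.exp ((t : ℝ) * t * Real.log 4 + (t + 1) * (2 * Real.log b + lam + 1) +
      t * (t + 1) * lam) ≤ Z := by
    refine (Nat.le_ceil _).trans ?_
    exact_mod_cast (le_max_right _ _).trans hZ
  have hZpos : 1 ≤ Z := by omega
  have hZ0 : (0 : ℝ) < Z := by exact_mod_cast hZpos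
  have hlogZ : (t : ℝ) * t * Real.log 4 + (t + 1) * (2 * Real.log b + lam + 1) +
      t * (t + 1) * lam ≤ Real.log Z := by
    rw [Real.le_log_iff_exp_le hZ0]
    exact hZexp
  have hlogZ0 : 0 ≤ Real.log Z := Real.log_nonneg (by exact_mod_cast hZpos)
  have hlogb : 0 ≤ Real.log b := Real.log_nonneg (by exact_mod_cast (by omega : 1 ≤ b))
  have hδlam : Real.log δ ≤ lam := by
    rw [hlam]
    refine Real.log_le_log (by exact_mod_cast hδ1) ?_
    exact_mod_cast hδ0.trans (le_max_left _ _)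
  have hδ00 : 0 ≤ Real.log δ := Real.log_nonneg (by exact_mod_cast hδ1)
  have hd1 : 1 ≤ d := by
    by_contra h0
    have h1 : d = 0 := by omega
    have h2 := hx.fin
    rw [h1, mul_zero] at h2
    have h3 : 0 < Module.finrank A E := Module.finrank_pos
    omega
  have ht1 : 1 ≤ t := by omega
  obtain ⟨Q, hQ⟩ : ∃ Q : ℕ, Q = Z ^ 12 := ⟨_, rfl⟩
  obtain ⟨L, hL⟩ : ∃ L : ℕ, L = Z ^ 20 * d := ⟨_, rfl⟩
  obtain ⟨n, hn⟩ : ∃ n : ℕ, n = m / Q + 1 := ⟨_, rfl⟩
  obtain ⟨S, hS⟩ : ∃ S : Finset ℕ, S = (Finset.Icc 1 Q).filter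
    fun p => p.Prime ∧ Q < 4 * p := ⟨_, rfl⟩
  have hQZ : Z ≤ Q := by
    rw [hQ]
    exact Nat.le_self_pow (by norm_num) Z
  have hQ1 : 1 ≤ Q := hZpos.trans hQZ
  have hQm : Q ≤ m := by
    refine le_trans ?_ hm
    rw [hQ]
    exact Nat.pow_le_pow_right hZpos (by norm_num)
  have hm1 : 1 ≤ m := hQ1.trans hQm
  have hL1 : 1 ≤ L := by
    rw [hL]
    exact Nat.mul_pos (Nat.pow_pos hZpos) hd1
  -- the number of primes
  have hScard0 : Z ^ 9 ≤ S.card := by
    have h1 := hT₀ Q (hZT.trans hQZ)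
    rw [← hS] at h1
    have h2 : (Z ^ 9) ^ 4 ≤ S.card ^ 4 := by
      refine le_trans (le_of_eq ?_) h1
      rw [hQ, ← pow_mul, ← pow_mul]
    exact (Nat.pow_le_pow_iff_left (by norm_num)).1 h2
  have hScard : 4 * Z ^ 8 ≤ (S \ ℬ).card := by
    have h1 : S.card ≤ (S \ ℬ).card + ℬ.card := by
      have h2 := Finset.card_le_card_sdiff_add_card (s := S) (t := ℬ)
      omega
    have h2 : (e + 7) * Z ^ 8 ≤ Z ^ 9 := by
      calc (e + 7) * Z ^ 8 ≤ Z * Z ^ 8 := Nat.mul_le_mul_right _ hZe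
        _ = Z ^ 9 := by ring
    have h3 : 1 ≤ Z ^ 8 := Nat.pow_pos hZpos
    have h4 : (e + 7) * Z ^ 8 = 4 * Z ^ 8 + (e + 3) * Z ^ 8 := by ring
    have h5 : (e + 3) * 1 ≤ (e + 3) * Z ^ 8 := Nat.mul_le_mul_left _ h3
    omega
  -- sizes
  have hdivQ : m / Q * Q ≤ m := Nat.div_mul_le_self m Q
  have hnQ : m < n * Q := by
    rw [hn]
    rw [mul_comm]
    exact Nat.lt_mul_div_succ m hQ1
  have hnQ2 : n * Q ≤ 2 * m := by
    rw [hn, add_mul, one_mul]
    omega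
  have hnm : n ≤ m := by
    have hQ2 : 2 ≤ Q := le_trans (by omega) hQZ
    have h2 : n * 2 ≤ n * Q := Nat.mul_le_mul_left _ hQ2
    omega
  have hn1 : 1 ≤ n := by
    rw [hn]
    exact Nat.le_add_left _ _
  have hlow : ∀ q : ℕ, Q < 4 * q → Z ^ 11 < q := by
    intro q hq4
    have h1 : Z ^ 12 < 4 * q := by rw [← hQ]; exact hq4
    have h2 : Z ^ 12 = Z * Z ^ 11 := by ring
    have h4 : 4 * Z ^ 11 ≤ Z * Z ^ 11 := Nat.mul_le_mul_right _ (by omega)
    omega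
  have hZ11 : Z ≤ Z ^ 11 := Nat.le_self_pow (by norm_num) Z
  have hdivpos : 0 < m / Q := Nat.div_pos hQm hQ1
  have hstr : ∀ q : ℕ, q.Prime → q ≤ Q → (n - 1) * q < m := by
    intro q hqp hq2
    have h1 : q < Q := by
      refine lt_of_le_of_ne hq2 fun h0 => ?_
      rw [h0, hQ] at hqp
      exact Nat.Prime.not_prime_pow (by norm_num) hqp
    rw [hn, Nat.add_sub_cancel]
    exact lt_of_lt_of_le (Nat.mul_lt_mul_of_pos_left h1 hdivpos) hdivQ
  obtain ⟨V, hV, hVdim⟩ := corT1 hx hδ00 δ hδ1 hMx σ a ha n L 1 t t hn1 hL1 le_rfl ht1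
    (by rw [mul_one]; omega) (S \ ℬ) (by
    intro q hq
    obtain ⟨hqS, hqℬ⟩ := Finset.mem_sdiff.1 hq
    rw [hS, Finset.mem_filter, Finset.mem_Icc] at hqS
    obtain ⟨⟨hq1, hq2⟩, hqp, hq4⟩ := hqS
    have hqlow := hlow q hq4
    refine ⟨hqp, ?_, hσ q hqp (by omega) (by rw [← hQ]; exact hq2), ?_, ?_, ?_⟩
    · intro hdvd
      have := Nat.le_of_dvd hδ1 hdvd
      omega
    · rw [one_mul]
      exact hstr q hqp hq2
    · have hLR : (0 : ℝ) < L := by exact_mod_cast hL1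
      have hdR : (0 : ℝ) < d := by exact_mod_cast hd1
      have h1 : Real.log ((L : ℝ) * d) ≤ (20 + 2 * e) * Real.log Z := by
        have h2 : (L : ℝ) * d ≤ (Z : ℝ) ^ (20 + 2 * e) := by
          have h3 : L * d ≤ Z ^ (20 + 2 * e) := by
            rw [hL]
            calc Z ^ 20 * d * d = Z ^ 20 * (d * d) := by ring
              _ ≤ Z ^ 20 * (Z ^ e * Z ^ e) :=
                Nat.mul_le_mul_left _ (Nat.mul_le_mul hde hde)
              _ = Z ^ (20 + 2 * e) := by ring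
          exact_mod_cast h3
        have h5 := Real.log_le_log (by positivity) h2
        rw [Real.log_pow] at h5
        push_cast at h5
        exact h5
      have h1' : Real.log (((1 : ℕ) : ℝ) * L) ≤ (20 + e) * Real.log Z := by
        have h2 : ((1 : ℕ) : ℝ) * L ≤ (Z : ℝ) ^ (20 + e) := by
          have h3 : 1 * L ≤ Z ^ (20 + e) := by
            rw [hL, one_mul]
            calc Z ^ 20 * d ≤ Z ^ 20 * Z ^ e := Nat.mul_le_mul_left _ hde
              _ = Z ^ (20 + e) := by ring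
          exact_mod_cast h3
        have h5 := Real.log_le_log (by positivity) h2
        rw [Real.log_pow] at h5
        push_cast at h5 ⊢
        exact h5
      have h2 : 12 * Real.log Z ≤ Real.log q + Real.log 4 := by
        have h3 : (Z : ℝ) ^ 12 ≤ q * 4 := by
          have h4 : Z ^ 12 ≤ q * 4 := by
            rw [← hQ]
            omega
          exact_mod_cast h4
        have h5 := Real.log_le_log (by positivity) h3
        have h6 : (q : ℝ) ≠ 0 := by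
          have : q ≠ 0 := by omega
          exact_mod_cast this
        rw [Real.log_pow, Real.log_mul h6 (by norm_num)] at h5
        exact_mod_cast h5
      have htR : (t : ℝ) = e + 30 := by
        rw [ht]
        push_cast
        ring
      have ht0 : (0 : ℝ) ≤ t := Nat.cast_nonneg _
      have he0 : (0 : ℝ) ≤ e := Nat.cast_nonneg _
      have h4 : 0 ≤ Real.log 4 := Real.log_nonneg (by norm_num)
      have a1 : (t : ℝ) * Real.log (((1 : ℕ) : ℝ) * L) ≤ t * ((20 + e) * Real.log Z) :=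
        mul_le_mul_of_nonneg_left h1' ht0
      have a2 : (t : ℝ) * (t + 1) * Real.log δ ≤ t * (t + 1) * lam :=
        mul_le_mul_of_nonneg_left hδlam (by positivity)
      have a3 : (t : ℝ) * (2 * Real.log b + Real.log δ + Real.log ((L : ℝ) * d) / 2 + 1) ≤
          t * (2 * Real.log b + lam + (20 + 2 * e) * Real.log Z / 2 + 1) :=
        mul_le_mul_of_nonneg_left (by linarith) ht0
      have a4 : (t : ℝ) * t * (12 * Real.log Z - Real.log 4) ≤ t * t * Real.log q :=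
        mul_le_mul_of_nonneg_left (by linarith) (by positivity)
      have a5 : 0 ≤ ((10 : ℝ) * t * t + 29 * t + 19) * Real.log Z := by positivity
      have a6 : (e : ℝ) = t - 30 := by linarith
      push_cast at a1 ⊢
      rw [a6] at a1 a3 h1
      nlinarith [hlogZ, hδlam, h1, a1, a2, a3, a4, a5]
    · have h1 : (((1 : ℕ) : ℝ) * q * L) ≤ (Z : ℝ) ^ 32 * d := by
        have h2 : 1 * q * L ≤ Z ^ 32 * d := by
          rw [one_mul, hL]
          calc q * (Z ^ 20 * d) ≤ Z ^ 12 * (Z ^ 20 * d) :=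
                Nat.mul_le_mul_right _ (by rw [← hQ]; exact hq2)
            _ = Z ^ 32 * d := by ring
        exact_mod_cast h2
      refine (mul_le_mul_of_nonneg_right h1 (finac_h a)).trans ?_
      rw [mul_assoc]
      exact hh)
  have hKZ : (t + 1) * (t * (t + 1) * (m * d)) = K * (m * d) := by
    rw [hK]
    ring
  rw [hKZ] at hVdim
  obtain ⟨q, hq, G, hG, hG0, hGn, hGL, hG1, hGD⟩ := stepAC hb hm1 hx.pow hx.deg σ a
    (IsIntegral.of_finite A a) n L (K * (m * d)) (m * d) (S \ ℬ) V hV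
    (by
      intro q hq
      obtain ⟨hqS, hqℬ⟩ := Finset.mem_sdiff.1 hq
      rw [hS, Finset.mem_filter, Finset.mem_Icc] at hqS
      obtain ⟨⟨hq1, hq2⟩, hqp, hq4⟩ := hqS
      exact ⟨hq1, hstr q hqp hq2, hdg q hqp (hlow q hq4) (by rw [← hQ]; exact hq2) hqℬ⟩) hVdim
    (by
      rw [hL]
      calc K * (m * d) ≤ Z ^ 8 * (m * d) := by
            refine Nat.mul_le_mul_right _ ?_
            have := Nat.le_self_pow (n := 8) (by norm_num) Z
            omega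
        _ = m * (d * Z ^ 8) := by ring
        _ < n * Q * (d * Z ^ 8) :=
            Nat.mul_lt_mul_of_pos_right hnQ (Nat.mul_pos hd1 (Nat.pow_pos hZpos))
        _ = n * (Z ^ 20 * d) := by
            rw [hQ]
            ring)
    (by
      calc 2 * n * L = 2 * (n * Q) * (d * Z ^ 8) := by
            rw [hL, hQ]
            ring
        _ ≤ 2 * (2 * m) * (d * Z ^ 8) := Nat.mul_le_mul_right _ (Nat.mul_le_mul_left _ hnQ2)
        _ = m * d * (4 * Z ^ 8) := by ring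
        _ ≤ m * d * (S \ ℬ).card := Nat.mul_le_mul_left _ hScard)
  obtain ⟨hqS, hqℬ⟩ := Finset.mem_sdiff.1 hq
  rw [hS, Finset.mem_filter, Finset.mem_Icc] at hqS
  obtain ⟨⟨hq1, hq2⟩, hqp, hq4⟩ := hqS
  have hdX : dX G * Z ^ 19 ≤ m := by
    have h1 : dX G * L ≤ K * (m * d) := le_trans (Nat.le_add_right _ _) hGD
    have h2 : Z * d * (dX G * Z ^ 19) ≤ Z * d * m := by
      rw [hL] at h1
      calc Z * d * (dX G * Z ^ 19) = dX G * (Z ^ 20 * d) := by ring
        _ ≤ K * (m * d) := h1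
        _ ≤ Z * (m * d) := Nat.mul_le_mul_right _ (by omega)
        _ = Z * d * m := by ring
    exact Nat.le_of_mul_le_mul_left h2 (Nat.mul_pos hZpos hd1)
  refine ⟨q, G, hqp, hlow q hq4, by rw [← hQ]; exact hq2, hqℬ, hG, hG0, hG1, ?_, hdX⟩
  have h1 : (n - dX G) * G.natDegree ≤ K * (m * d) := le_trans (Nat.le_add_left _ _) hGD
  have h2 : 2 * (dX G * Q) ≤ m := by
    refine le_trans ?_ hdX
    calc 2 * (dX G * Q) = dX G * (Z ^ 12 * 2) := by
          rw [hQ]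
          ring
      _ ≤ dX G * (Z ^ 12 * Z ^ 7) := by
          refine Nat.mul_le_mul_left _ (Nat.mul_le_mul_left _ ?_)
          have := Nat.le_self_pow (n := 7) (by norm_num) Z
          omega
      _ = dX G * Z ^ 19 := by ring
  have h3 : m ≤ 2 * Q * (n - dX G) := by
    have h4 : 2 * Q * (n - dX G) = 2 * (n * Q) - 2 * (dX G * Q) := by
      rw [Nat.mul_sub]
      congr 1 <;> ring
    rw [h4]
    omega
  have h4 : m * G.natDegree ≤ m * (2 * K * d * Q) := by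
    calc m * G.natDegree ≤ 2 * Q * (n - dX G) * G.natDegree := Nat.mul_le_mul_right _ h3
      _ = 2 * Q * ((n - dX G) * G.natDegree) := by ring
      _ ≤ 2 * Q * (K * (m * d)) := Nat.mul_le_mul_left _ h1
      _ = m * (2 * K * d * Q) := by ring
  have h5 : G.natDegree ≤ 2 * K * d * Q := Nat.le_of_mul_le_mul_left h4 hm1
  refine h5.trans ?_
  rw [hQ]
  calc 2 * K * d * Z ^ 12 ≤ Z * d * Z ^ 12 :=
        Nat.mul_le_mul_right _ (Nat.mul_le_mul_right _ hZK)
    _ = d * Z ^ 13 := by ring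

end Pool.Agent.H36.LH
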