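import Pool.Agent.H36.LG.SbB

/-!
# THEOREM L, version 4 (MP_187c26_nt), step B for a given polynomial `P`

MODEL: the end of `stepBB` in `Pool/Agent/H36/LG/SbB.lean` (`small_pt`, `natDegree_ex`, `dX_ex`, ..). `P = 0` is trivial. `dX G natDegree (ex l ..) + dX (ex l ..) natDegree G ≤ l (dX G (L - 1) + (n - 1) natDegree G) < M₀`.
-/

set_option autoImplicit false

open Polynomial NumberField IntermediateField
open scoped Polynomial.Bivariate

namespace Pool.Agent.H36.LH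

open Pool.Agent.H36.LE Pool.Agent.H36.LF Pool.Agent.H36.LG

theorem stepBC {A E : Type} [Field A] [NumberField A] [Field E] [Algebra A E] {b m : ℕ} {x : E}
    (hm : 1 ≤ m) (hx : x ^ m = (b : E)) (σ : ℕ → (A →+* A)) (a : E)
    (ha : IsIntegral A a) (q M₀ : ℕ)
    (hq : M₀ ≤ Module.finrank A (IntermediateField.adjoin A ({x ^ q, a ^ q} : Set E)))
    (G : A[X][Y]) (hG : Irreducible G)
    (h0 : aevalAeval (R := A) (x ^ q) (a ^ q) G = 0) (n L : ℕ) (ℛ : Finset ℕ)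
    (P : A[X][Y]) (hP : P ∈ VsA A σ x a n L q ℛ)
    (hℛ : ∀ l ∈ ℛ, 1 ≤ l ∧ l * (dX G * (L - 1) + (n - 1) * G.natDegree) < M₀) :
    ∀ l ∈ ℛ, G ∣ ex l (tw (σ l) P) := by
  classical
  intro l hl
  by_cases hP0 : P = 0
  · rw [hP0, map_zero, map_zero]
    exact dvd_zero G
  have hbd : P.natDegree < L ∧ dX P < n := ((mem_BS _ _ _).1 hP.1).resolve_left hP0
  have h5 : aevalAeval (R := A) (x ^ (q * l)) (a ^ (q * l)) (tw (σ l) P) = 0 := hP.2.2 l hl
  have hl1 := (hℛ l hl).1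
  have hl2 := (hℛ l hl).2
  have h6 : aevalAeval (R := A) (x ^ q) (a ^ q) (ex l (tw (σ l) P)) = 0 := by
    rw [ex_eval, ← pow_mul, ← pow_mul]
    exact h5
  refine small_pt (x ^ q) (a ^ q) (isIntegral_xA hm hx q) (ha.pow q) G (ex l (tw (σ l) P)) hG
    (ex_ne_zero l hl1 _ (tw_ne_zero (σ l) P hP0)) h0 h6 (lt_of_lt_of_le ?_ hq)
  rw [natDegree_ex l hl1, dX_ex l hl1, natDegree_tw, dX_tw]
  refine lt_of_le_of_lt ?_ hl2
  have b1 : dX G * (l * P.natDegree) ≤ dX G * (l * (L - 1)) :=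
    Nat.mul_le_mul_left _ (Nat.mul_le_mul_left _ (by omega))
  have b2 : l * dX P * G.natDegree ≤ l * (n - 1) * G.natDegree :=
    Nat.mul_le_mul_right _ (Nat.mul_le_mul_left _ (by omega))
  have b3 : l * (dX G * (L - 1) + (n - 1) * G.natDegree) =
      dX G * (l * (L - 1)) + l * (n - 1) * G.natDegree := by ring
  rw [b3]
  exact Nat.add_le_add b1 b2

end Pool.Agent.H36.LH
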