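import Pool.Agent.H36.LF.ScI

/-!
# THEOREM L, version 4 (MP_187c26_nt), step C with exact degrees

MODELS: `two_primesA` in `Pool/Agent/H36/LF/ScG.lean` (copy with its private lemmas, `17` replaced by `S`, `35` by `2 S + 1`: `2 S + 1` pairwise not associated factors of `P` of degree `≥ natDegree G =: L₀ ≥ 1` give `(2 S + 1) L₀ ≤ natDegree P < S (L₀ + 1) ≤ 2 S L₀`), `numA` and `stepCA` in `Pool/Agent/H36/LF/ScI.lean`.
`numC` (refined `numA`, the same proof): `β = L₀/g`, `G(x, a) = x^(i₀) F(κ)`, `κ = a^β x^w`, `F` has degree at most `L₀/β` (the exponents are `j/β`, `j ≤ L₀`), so `D := [A(κ) : A] ≤ L₀/β`, `β D ≤ L₀`. The exponents of `X`: `G.coeff 0 ≠ 0` (otherwise `Y ∣ G`, `G` irreducible, `a = 0`) is a monomial `c X^(i₀)`, so `i₀ ≥ 0`,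
and `G.coeff L₀` is `c' X^(i₀ + w L₀/β)`. If `w ≥ 0`: `w (L₀/β) ≤ i₀ + w L₀/β ≤ dX G`. If `w < 0`: `|w| (L₀/β) ≤ i₀ ≤ dX G` because `i₀ + w L₀/β ≥ 0`. So `|w| D ≤ dX G`.
-/

set_option autoImplicit false

open Polynomial NumberField IntermediateField
open scoped Polynomial.Bivariate

namespace Pool.Agent.H36.LH

open Pool.Agent.H36.LE Pool.Agent.H36.LF

section

variable {k Ω : Type} [Field k] [Field Ω] [Algebra k Ω]

/-- An irreducible factor of positive degree in `Y` which vanishes at the point. -/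
private theorem ex_factor (T θ : Ω) (hT : Transcendental k T) (P : k[X][Y]) (hP : P ≠ 0)
    (h0 : aevalAeval (R := k) T θ P = 0) :
    ∃ H : k[X][Y], Irreducible H ∧ 1 ≤ H.natDegree ∧ H ∣ P ∧ aevalAeval (R := k) T θ H = 0 := by
  classical
  obtain ⟨u, hu⟩ := UniqueFactorizationMonoid.factors_prod hP
  have h1 : aevalAeval (R := k) T θ (UniqueFactorizationMonoid.factors P).prod = 0 := by
    have h2 : aevalAeval (R := k) T θ ((UniqueFactorizationMonoid.factors P).prod * u) = 0 := by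
      rw [hu, h0]
    rw [map_mul] at h2
    exact (mul_eq_zero.mp h2).resolve_right (IsUnit.map _ u.isUnit).ne_zero
  rw [map_multiset_prod, Multiset.prod_eq_zero_iff, Multiset.mem_map] at h1
  obtain ⟨H, hH, hH0⟩ := h1
  have hirr := UniqueFactorizationMonoid.irreducible_of_factor H hH
  refine ⟨H, hirr, ?_, UniqueFactorizationMonoid.dvd_of_mem_factors hH, hH0⟩
  by_contra hcon
  have h3 : H.natDegree = 0 := by omega
  rw [eq_C_of_natDegree_eq_zero h3, aevalAeval_C] at hH0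
  have h4 : H.coeff 0 ≠ 0 := by
    intro h5
    apply hirr.ne_zero
    rw [eq_C_of_natDegree_eq_zero h3, h5, C_0]
  exact h4 (by_contra fun h6 => hT ⟨_, h6, hH0⟩)

private theorem adj_eq (T θ : Ω) : (adjoin k⟮T⟯ ({T, θ} : Set Ω)) = k⟮T⟯⟮θ⟯ := by
  apply le_antisymm
  · rw [adjoin_le_iff]
    rintro x hx
    rcases hx with rfl | hx
    · exact (k⟮x⟯⟮θ⟯).algebraMap_mem (AdjoinSimple.gen k x)
    · rw [Set.mem_singleton_iff.mp hx]
      exact mem_adjoin_simple_self _ _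
  · exact adjoin.mono _ _ _ (by simp)

private theorem res_eq (T θ : Ω) : (k⟮T⟯⟮θ⟯).restrictScalars k = adjoin k {T, θ} := by
  have hle : k⟮T⟯ ≤ adjoin k {T, θ} := adjoin.mono k _ _ (by simp)
  rw [← adj_eq, ← extendScalars_adjoin hle, extendScalars_restrictScalars]

private theorem fin_eq (T θ : Ω) (hT : Transcendental k T) (G : k[X][Y]) (hG : Irreducible G)
    (h1 : 1 ≤ G.natDegree) (h0 : aevalAeval (R := k) T θ G = 0) :
    Module.finrank k⟮T⟯ k⟮T⟯⟮θ⟯ = G.natDegree := by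
  have hle : k⟮T⟯ ≤ adjoin k {T, θ} := adjoin.mono k _ _ (by simp)
  have h := relfin_irred T θ hT G hG h1 h0
  rwa [relfinrank_eq_finrank_of_le hle, extendScalars_adjoin hle, adj_eq] at h

/-- The number of exceptional primes. -/
private theorem exc_card (T θ : Ω) (hT : Transcendental k T) (G : k[X][Y]) (hG : Irreducible G)
    (h1 : 1 ≤ G.natDegree) (h0 : aevalAeval (R := k) T θ G = 0) (S : Finset ℕ)
    (hS : ∀ q ∈ S, q.Prime ∧ θ ∉ k⟮T⟯⟮θ ^ q⟯) : S.card ≤ Nat.log 2 G.natDegree := by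
  have hfin := fin_eq T θ hT G hG h1 h0
  have hfd : FiniteDimensional k⟮T⟯ k⟮T⟯⟮θ⟯ := FiniteDimensional.of_finrank_pos (by omega)
  have hint : IsIntegral k⟮T⟯ θ := by
    have h2 : IsIntegral k⟮T⟯ (AdjoinSimple.gen k⟮T⟯ θ) := IsIntegral.of_finite _ _
    have h3 : IsIntegral k⟮T⟯ ((k⟮T⟯⟮θ⟯).val (AdjoinSimple.gen k⟮T⟯ θ)) := h2.map (k⟮T⟯⟮θ⟯).val
    exact h3
  have h3 := exc θ hint S hS
  rw [hfin] at h3
  exact Nat.le_log_of_pow_le (by norm_num) h3

/-- The degree over the field of the `l`-th powers for a nonexceptional prime. -/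
private theorem relfin_le (T θ : Ω) (l : ℕ) (hl : 1 ≤ l) (hθ : θ ∈ k⟮T⟯⟮θ ^ l⟯) :
    relfinrank (adjoin k {T ^ l, θ ^ l}) (adjoin k {T, θ}) ≤ l := by
  have e2 : adjoin k {T ^ l, θ ^ l} ≤ adjoin k {T, θ} := by
    rw [adjoin_le_iff]
    rintro x hx
    rcases hx with rfl | hx
    · exact pow_mem (subset_adjoin k _ (by simp)) l
    · rw [Set.mem_singleton_iff.mp hx]
      exact pow_mem (subset_adjoin k _ (by simp)) l
  rw [relfinrank_eq_finrank_of_le e2, extendScalars_adjoin e2]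
  have h1 : adjoin (adjoin k ({T ^ l, θ ^ l} : Set Ω)) ({T, θ} : Set Ω) =
      (adjoin k ({T ^ l, θ ^ l} : Set Ω))⟮T⟯ := by
    apply le_antisymm
    · rw [adjoin_le_iff]
      rintro x hx
      rcases hx with rfl | hx
      · exact mem_adjoin_simple_self _ _
      · rw [Set.mem_singleton_iff.mp hx]
        have h2 : θ ∈ adjoin k ({T, θ ^ l} : Set Ω) := by
          rw [← res_eq]
          exact hθ
        have h3 : adjoin k ({T, θ ^ l} : Set Ω) ≤
            ((adjoin k ({T ^ l, θ ^ l} : Set Ω))⟮T⟯).restrictScalars k := by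
          rw [adjoin_le_iff]
          rintro y hy
          rcases hy with rfl | hy
          · exact mem_adjoin_simple_self (adjoin k ({y ^ l, θ ^ l} : Set Ω)) y
          · rw [Set.mem_singleton_iff.mp hy]
            exact ((adjoin k ({T ^ l, θ ^ l} : Set Ω))⟮T⟯).algebraMap_mem
              ⟨θ ^ l, subset_adjoin k _ (by simp)⟩
        exact h3 h2
    · exact adjoin.mono _ _ _ (by simp)
  rw [h1]
  let F := adjoin k ({T ^ l, θ ^ l} : Set Ω)
  have hroot : aeval T ((X : F[X]) ^ l - C (⟨T ^ l, subset_adjoin k _ (by simp)⟩ : F)) = 0 := by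
    rw [map_sub, map_pow, aeval_X, aeval_C]
    exact sub_self _
  have hmon : ((X : F[X]) ^ l - C (⟨T ^ l, subset_adjoin k _ (by simp)⟩ : F)).Monic :=
    monic_X_pow_sub_C _ (by omega)
  have hint : IsIntegral F T := ⟨_, hmon, by rw [← aeval_def]; exact hroot⟩
  change Module.finrank F F⟮T⟯ ≤ l
  rw [adjoin.finrank hint]
  have h4 := natDegree_le_of_dvd (minpoly.dvd F T hroot) hmon.ne_zero
  rwa [natDegree_X_pow_sub_C] at h4

private theorem tw_equiv (σ : k →+* k) (hσ : Function.Bijective σ) :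
    ∃ e : k[X][Y] ≃+* k[X][Y], ∀ P, e P = tw σ P := by
  refine ⟨Polynomial.mapEquiv (Polynomial.mapEquiv (RingEquiv.ofBijective σ hσ)), fun P => ?_⟩
  rfl

private theorem two_primesC (T θ : Ω) (hT : Transcendental k T) (G : k[X][Y]) (hG : Irreducible G)
    (h1 : 1 ≤ G.natDegree) (h0 : aevalAeval (R := k) T θ G = 0) (σ : ℕ → (k →+* k))
    (P : k[X][Y]) (hP : P ≠ 0) (s : ℕ) (hPd : P.natDegree < s * (G.natDegree + 1)) (ℛ : Finset ℕ)
    (hℛ : ∀ l ∈ ℛ, l.Prime ∧ Function.Bijective (σ l) ∧ G ∣ ex l (tw (σ l) P))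
    (hc : 2 * s + 1 + Nat.log 2 G.natDegree ≤ ℛ.card) :
    ∃ l ∈ ℛ, ∃ l' ∈ ℛ, l ≠ l' ∧ ∃ H : k[X][Y], Irreducible H ∧ 1 ≤ H.natDegree ∧
      aevalAeval (R := k) (T ^ l) (θ ^ l) (tw (σ l) H) = 0 ∧
      aevalAeval (R := k) (T ^ l') (θ ^ l') (tw (σ l') H) = 0 := by
  classical
  have hex : ∀ l ∈ ℛ, ∃ H : k[X][Y], Irreducible H ∧ 1 ≤ H.natDegree ∧ H ∣ P ∧
      aevalAeval (R := k) (T ^ l) (θ ^ l) (tw (σ l) H) = 0 ∧ Irreducible (tw (σ l) H) := by
    intro l hl
    obtain ⟨hlp, hσ, Q, hQ⟩ := hℛ l hl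
    obtain ⟨e, he⟩ := tw_equiv (σ l) hσ
    obtain ⟨H', g1, g2, g3, g4⟩ := ex_factor (T ^ l) (θ ^ l) (hT.pow hlp.pos) (tw (σ l) P)
      (tw_ne_zero (σ l) P hP) (by rw [← ex_eval, hQ, map_mul, h0, zero_mul])
    have g5 : tw (σ l) (e.symm H') = H' := by
      rw [← he, e.apply_symm_apply]
    refine ⟨e.symm H', ?_, ?_, ?_, ?_, ?_⟩
    · exact (MulEquiv.irreducible_iff e.symm).2 g1
    · rw [← natDegree_tw (σ l), g5]
      exact g2
    · obtain ⟨R, hR⟩ := g3
      refine ⟨e.symm R, ?_⟩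
      apply e.injective
      rw [map_mul, e.apply_symm_apply, e.apply_symm_apply, he, hR]
    · rw [g5]
      exact g4
    · rw [g5]
      exact g1
  choose! H hH1 hH2 hH3 hH4 hH5 using hex
  let S := ℛ.filter fun l => θ ∉ k⟮T⟯⟮θ ^ l⟯
  let N := ℛ.filter fun l => ¬ (θ ∉ k⟮T⟯⟮θ ^ l⟯)
  have hSN : S.card + N.card = ℛ.card := Finset.card_filter_add_card_filter_not _
  have hS : S.card ≤ Nat.log 2 G.natDegree := by
    refine exc_card T θ hT G hG h1 h0 S fun q hq => ?_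
    obtain ⟨hq1, hq2⟩ := Finset.mem_filter.mp hq
    exact ⟨(hℛ q hq1).1, hq2⟩
  have hN : 2 * s + 1 ≤ N.card := by omega
  have hdeg : ∀ l ∈ N, G.natDegree ≤ (H l).natDegree := by
    intro l hl
    obtain ⟨hl1, hl2⟩ := Finset.mem_filter.mp hl
    have hlp := (hℛ l hl1).1
    have ht := tower T θ hT G hG h1 h0 l hlp.one_lt.le (tw (σ l) (H l)) (hH5 l hl1)
      (by rw [natDegree_tw]; exact hH2 l hl1) (hH4 l hl1)
    rw [natDegree_tw] at ht
    have hr := relfin_le T θ l hlp.one_lt.le (not_not.mp hl2)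
    have h5 : l * G.natDegree ≤ l * (H l).natDegree := by
      rw [← ht]
      exact Nat.mul_le_mul_right _ hr
    exact Nat.le_of_mul_le_mul_left h5 hlp.pos
  by_contra hcon
  push Not at hcon
  have hpair : (N : Set ℕ).Pairwise (Function.onFun IsRelPrime H) := by
    intro l hl l' hl' hne
    have hl1 := (Finset.mem_filter.mp hl).1
    have hl1' := (Finset.mem_filter.mp hl').1
    change IsRelPrime (H l) (H l')
    rw [(hH1 l hl1).isRelPrime_iff_not_dvd]
    intro hdvd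
    obtain ⟨u, hu⟩ := (hH1 l hl1).associated_of_dvd (hH1 l' hl1') hdvd
    refine hcon l hl1 l' hl1' hne (H l) (hH1 l hl1) (hH2 l hl1) (hH4 l hl1) ?_
    have h6 := hH4 l' hl1'
    rw [← hu, map_mul, map_mul] at h6
    have hu2 : IsUnit (tw (σ l') (u : k[X][Y])) := u.isUnit.map (tw (σ l'))
    have hu3 : IsUnit (aevalAeval (R := k) (T ^ l') (θ ^ l') (tw (σ l') (u : k[X][Y]))) :=
      hu2.map (aevalAeval (R := k) (T ^ l') (θ ^ l'))
    exact (mul_eq_zero.mp h6).resolve_right hu3.ne_zero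
  have hprod : (∏ l ∈ N, H l) ∣ P :=
    Finset.prod_dvd_of_isRelPrime hpair fun l hl => hH3 l (Finset.mem_filter.mp hl).1
  have h7 := natDegree_le_of_dvd hprod hP
  rw [natDegree_prod _ _ fun l hl => (hH1 l (Finset.mem_filter.mp hl).1).ne_zero] at h7
  change ∑ l ∈ N, (H l).natDegree ≤ P.natDegree at h7
  have h8 : N.card * G.natDegree ≤ ∑ l ∈ N, (H l).natDegree := by
    have := Finset.card_nsmul_le_sum N (fun l => (H l).natDegree) G.natDegree hdeg
    simpa using this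
  have h9 : (2 * s + 1) * G.natDegree ≤ N.card * G.natDegree := Nat.mul_le_mul_right _ hN
  have h10 : s * 1 ≤ s * G.natDegree := Nat.mul_le_mul_left s h1
  have h11 : (2 * s + 1) * G.natDegree = s * G.natDegree + s * G.natDegree + G.natDegree := by ring
  have h12 : s * (G.natDegree + 1) = s * G.natDegree + s * 1 := by ring
  omega

end

private theorem ev_sum {A E : Type} [Field A] [Field E] [Algebra A E] (x a : E) (G : A[X][Y]) :
    aevalAeval (R := A) x a G =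
      ∑ j ∈ Finset.range (G.natDegree + 1), aeval x (G.coeff j) * a ^ j := by
  conv_lhs => rw [G.as_sum_range_C_mul_X_pow]
  rw [map_sum]
  refine Finset.sum_congr rfl fun j _ => ?_
  rw [map_mul, map_pow, aevalAeval_C, aevalAeval_Y]

theorem numC {A E : Type} [Field A] [NumberField A] [Field E] [Algebra A E] (G : A[X][Y])
    (hG : Irreducible G) (h1 : 1 ≤ G.natDegree) (u i₀ : ℤ)
    (hc : ∀ i j : ℕ, (G.coeff j).coeff i ≠ 0 → (G.natDegree : ℤ) * i = G.natDegree * i₀ + u * j)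
    (x a : E) (hx : x ≠ 0) (ha : a ≠ 0) (h0 : aevalAeval (R := A) x a G = 0) :
    ∃ (β : ℕ) (w : ℤ), 1 ≤ β ∧ IsIntegral A (a ^ β * x ^ w) ∧
      β * Module.finrank A A⟮a ^ β * x ^ w⟯ ≤ G.natDegree ∧
      w.natAbs * Module.finrank A A⟮a ^ β * x ^ w⟯ ≤ dX G := by
  classical
  set L : ℕ := G.natDegree with hL
  have hL0 : (L : ℤ) ≠ 0 := by
    have : 0 < L := h1
    exact_mod_cast this.ne'
  have hg0 : Int.gcd (L : ℤ) u ≠ 0 := by
    rw [Ne, Int.gcd_eq_zero_iff]
    exact fun h => hL0 h.1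
  obtain ⟨g, hg⟩ : ∃ g : ℕ, g = Int.gcd (L : ℤ) u := ⟨_, rfl⟩
  rw [← hg] at hg0
  have hgL : (g : ℤ) ∣ L := by rw [hg]; exact Int.gcd_dvd_left _ _
  have hgu : (g : ℤ) ∣ u := by rw [hg]; exact Int.gcd_dvd_right _ _
  obtain ⟨β, hβ⟩ : g ∣ L := by exact_mod_cast hgL
  obtain ⟨w, hw⟩ := hgu
  have hgz : (g : ℤ) ≠ 0 := by exact_mod_cast hg0
  have hβ1 : 1 ≤ β := by
    rcases Nat.eq_zero_or_pos β with h | h
    · rw [h, mul_zero] at hβ
      omega
    · exact h
  have hβL : β ≤ L := by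
    rw [hβ]
    exact Nat.le_mul_of_pos_left β (Nat.pos_of_ne_zero hg0)
  have hcop : IsCoprime (β : ℤ) w := by
    have h2 : IsCoprime ((L : ℤ) / (Int.gcd (L : ℤ) u : ℕ)) (u / (Int.gcd (L : ℤ) u : ℕ)) :=
      Int.isCoprime_iff_gcd_eq_one.2 (Int.gcd_ediv_gcd_ediv_gcd
        (by rw [← hg]; exact Nat.pos_of_ne_zero hg0))
    rw [← hg, hw, Int.mul_ediv_cancel_left _ hgz, hβ, Nat.cast_mul,
      Int.mul_ediv_cancel_left _ hgz] at h2
    exact h2
  have hs : ∀ i j : ℕ, (G.coeff j).coeff i ≠ 0 →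
      β ∣ j ∧ (i : ℤ) = i₀ + w * ((j / β : ℕ) : ℤ) := by
    intro i j hij
    have h2 := hc i j hij
    have h3 : (β : ℤ) * (i - i₀) = w * j := by
      have h4 : (g : ℤ) * (β * (i - i₀)) = g * (w * j) := by
        have h5 : (L : ℤ) = g * β := by rw [hβ]; push_cast; ring
        rw [h5, hw] at h2
        linear_combination h2
      exact mul_left_cancel₀ hgz h4
    have h4 : (β : ℤ) ∣ j := hcop.dvd_of_dvd_mul_left ⟨_, h3.symm⟩
    have h5 : β ∣ j := by exact_mod_cast h4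
    refine ⟨h5, ?_⟩
    obtain ⟨t, rfl⟩ := h5
    rw [Nat.mul_div_cancel_left t (by omega)]
    have hβz : (β : ℤ) ≠ 0 := by
      have : 0 < β := hβ1
      exact_mod_cast this.ne'
    have h6 : (β : ℤ) * (i - i₀) = β * (w * t) := by
      rw [h3]
      push_cast
      ring
    have h7 := mul_left_cancel₀ hβz h6
    linear_combination h7
  obtain ⟨cc, hcc⟩ : ∃ cc : ℕ → A, ∀ j, cc j =
      (G.coeff j).coeff (i₀ + w * ((j / β : ℕ) : ℤ)).toNat := ⟨_, fun j => rfl⟩
  have hmon : ∀ j, G.coeff j ≠ 0 → cc j ≠ 0 ∧ β ∣ j ∧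
      (((i₀ + w * ((j / β : ℕ) : ℤ)).toNat : ℕ) : ℤ) = i₀ + w * ((j / β : ℕ) : ℤ) ∧
      G.coeff j = monomial (i₀ + w * ((j / β : ℕ) : ℤ)).toNat (cc j) := by
    intro j hj
    obtain ⟨i₁, hi₁⟩ : ∃ i, (G.coeff j).coeff i ≠ 0 := by
      by_contra hcon
      push Not at hcon
      exact hj (Polynomial.ext fun i => by rw [hcon i, coeff_zero])
    obtain ⟨h2, h3⟩ := hs i₁ j hi₁
    have h4 : (i₀ + w * ((j / β : ℕ) : ℤ)).toNat = i₁ := by
      rw [← h3, Int.toNat_natCast]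
    refine ⟨?_, h2, ?_, ?_⟩
    · rw [hcc, h4]
      exact hi₁
    · rw [h4, h3]
    · ext i
      rw [coeff_monomial]
      split_ifs with h5
      · rw [hcc, h5]
      · by_contra h6
        obtain ⟨h7, h8⟩ := hs i j h6
        apply h5
        rw [← h8, Int.toNat_natCast]
  obtain ⟨κ, hκ⟩ : ∃ κ : E, κ = a ^ β * x ^ w := ⟨_, rfl⟩
  have hkey : ∀ j, aeval x (G.coeff j) * a ^ j = x ^ i₀ * (algebraMap A E (cc j) * κ ^ (j / β)) := by
    intro j
    by_cases hj : G.coeff j = 0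
    · rw [hcc, hj, map_zero, coeff_zero, map_zero, zero_mul, zero_mul, mul_zero]
    · obtain ⟨-, h3, h4, h5⟩ := hmon j hj
      rw [h5, aeval_monomial, ← zpow_natCast x, h4, zpow_add₀ hx, zpow_mul, zpow_natCast, hκ,
        mul_pow, ← pow_mul]
      obtain ⟨t, rfl⟩ := h3
      rw [Nat.mul_div_cancel_left t (by omega)]
      ring
  let F : A[X] := ∑ j ∈ Finset.range (L + 1), C (cc j) * X ^ (j / β)
  have hFκ : aeval κ F = 0 := by
    have h2 : x ^ i₀ * aeval κ F = 0 := by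
      rw [← h0, ev_sum, map_sum, Finset.mul_sum]
      refine Finset.sum_congr rfl fun j _ => ?_
      rw [hkey, map_mul, aeval_C, map_pow, aeval_X]
    exact (mul_eq_zero.1 h2).resolve_left (zpow_ne_zero _ hx)
  have hGL : G.coeff L ≠ 0 := by
    rw [hL, coeff_natDegree, Ne, leadingCoeff_eq_zero]
    intro h
    rw [h, natDegree_zero] at hL
    omega
  have hβdL : β ∣ L := ⟨g, by rw [hβ, mul_comm]⟩
  have hF0 : F ≠ 0 := by
    intro hF
    have h2 : F.coeff (L / β) = cc L := by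
      show (∑ j ∈ Finset.range (L + 1), C (cc j) * X ^ (j / β)).coeff (L / β) = cc L
      rw [finsetSum_coeff, Finset.sum_eq_single L]
      · rw [coeff_C_mul, coeff_X_pow, if_pos rfl, mul_one]
      · intro j _ hjL
        rw [coeff_C_mul, coeff_X_pow]
        split_ifs with h3
        · by_cases hj : G.coeff j = 0
          · rw [hcc, hj, coeff_zero, zero_mul]
          · exfalso
            obtain ⟨-, h4, -, -⟩ := hmon j hj
            apply hjL
            rw [← Nat.mul_div_cancel' h4, ← h3, Nat.mul_div_cancel' hβdL]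
        · rw [mul_zero]
      · intro h
        exact absurd (Finset.mem_range.2 (Nat.lt_succ_self L)) h
    rw [hF, coeff_zero] at h2
    exact (hmon L hGL).1 h2.symm
  have hFd : F.natDegree ≤ L / β := by
    refine natDegree_sum_le_of_forall_le _ _ fun j hj => ?_
    refine (natDegree_C_mul_X_pow_le _ _).trans (Nat.div_le_div_right ?_)
    exact Nat.lt_succ_iff.1 (Finset.mem_range.1 hj)
  have hint : IsIntegral A κ := isAlgebraic_iff_isIntegral.1 ⟨F, hF0, hFκ⟩
  have hfr : Module.finrank A A⟮κ⟯ ≤ L / β := by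
    rw [IntermediateField.adjoin.finrank hint]
    exact (natDegree_le_of_dvd (minpoly.dvd A κ hFκ) hF0).trans hFd
  have hG0 : G.coeff 0 ≠ 0 := by
    intro h4
    obtain ⟨Q, hQ⟩ := X_dvd_iff.2 h4
    have h5 := (hG.isUnit_or_isUnit hQ).resolve_left not_isUnit_X
    have h6 := h5.map (aevalAeval (R := A) x a)
    rw [hQ, map_mul, aevalAeval_Y] at h0
    exact h6.ne_zero ((mul_eq_zero.1 h0).resolve_left ha)
  obtain ⟨a1, -, a2, a3⟩ := hmon 0 hG0
  obtain ⟨b1, -, b2, b3⟩ := hmon L hGL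
  have a4 := coeff_le_dX G 0
  have b4 := coeff_le_dX G L
  rw [a3, natDegree_monomial, if_neg a1] at a4
  rw [b3, natDegree_monomial, if_neg b1] at b4
  rw [Nat.zero_div, Nat.cast_zero, mul_zero, add_zero] at a2 a4
  refine ⟨β, w, hβ1, ?_, ?_, ?_⟩
  · rw [← hκ]
    exact hint
  · rw [← hκ]
    exact (Nat.mul_le_mul_left β hfr).trans (Nat.mul_div_le L β)
  · rw [← hκ]
    refine (Nat.mul_le_mul_left _ hfr).trans ?_
    obtain ⟨t, ht⟩ : ∃ t, t = L / β := ⟨_, rfl⟩
    rw [← ht] at b2 b4 ⊢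
    have e1 : ((w.natAbs * t : ℕ) : ℤ) ≤ (dX G : ℕ) := by
      push_cast
      rcases le_total 0 w with h | h
      · rw [abs_of_nonneg h]
        omega
      · rw [abs_of_nonpos h]
        have h7 : -w * (t : ℤ) = -(w * (t : ℤ)) := by ring
        omega
    exact_mod_cast e1

theorem stepCC {A E : Type} [Field A] [NumberField A] [Field E] [Algebra A E]
    (σ : ℕ → (A →+* A)) (G P : A[X][Y]) (hG : Irreducible G)
    (h1 : 1 ≤ G.natDegree) (hP : P ≠ 0) (S : ℕ) (hPd : P.natDegree < S * (G.natDegree + 1))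
    (ℛ : Finset ℕ) (hℛ : ∀ l ∈ ℛ, l.Prime ∧ G ∣ ex l (tw (σ l) P))
    (hc : 2 * S + 1 + Nat.log 2 G.natDegree ≤ ℛ.card)
    (x a : E) (hx : x ≠ 0) (ha : a ≠ 0) (h0 : aevalAeval (R := A) x a G = 0) :
    ∃ (β : ℕ) (w : ℤ), 1 ≤ β ∧ IsIntegral A (a ^ β * x ^ w) ∧
      β * Module.finrank A A⟮a ^ β * x ^ w⟯ ≤ G.natDegree ∧
      w.natAbs * Module.finrank A A⟮a ^ β * x ^ w⟯ ≤ dX G := by
  classical
  let Ω : Type := AlgebraicClosure (RatFunc A)
  let T : Ω := algebraMap (RatFunc A) Ω RatFunc.X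
  have hT : Transcendental A T := by
    refine (transcendental_algebraMap_iff (algebraMap (RatFunc A) Ω).injective).2 ?_
    rw [← RatFunc.algebraMap_X]
    exact (transcendental_algebraMap_iff (RatFunc.algebraMap_injective A)).2
      (Polynomial.transcendental_X A)
  have hinj : Function.Injective ((aeval (R := A) T).toRingHom : A[X] →+* Ω) :=
    transcendental_iff_injective.mp hT
  obtain ⟨θ, hθ0⟩ : ∃ θ : Ω, aevalAeval (R := A) T θ G = 0 := by
    have h2 : (G.map ((aeval (R := A) T).toRingHom : A[X] →+* Ω)).degree ≠ 0 := by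
      rw [degree_map_eq_of_injective hinj]
      intro h3
      have h4 : G.natDegree = 0 := natDegree_eq_of_degree_eq_some (n := 0) h3
      omega
    obtain ⟨θ, hθ⟩ := IsAlgClosed.exists_root _ h2
    refine ⟨θ, ?_⟩
    rw [IsRoot.def, eval_map, eval₂_eq_sum_range] at hθ
    rw [ev_sum]
    exact hθ
  have hθ : θ ≠ 0 := by
    intro h2
    rw [h2] at hθ0
    have h3 : aeval T (G.coeff 0) = 0 := by
      rw [← hθ0, ev_sum, Finset.sum_eq_single 0]
      · rw [pow_zero, mul_one]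
      · intro j _ hj
        rw [zero_pow hj, mul_zero]
      · intro h
        exact absurd (Finset.mem_range.2 (Nat.succ_pos _)) h
    have h4 : G.coeff 0 = 0 := hinj (h3.trans (map_zero _).symm)
    obtain ⟨Q, hQ⟩ := X_dvd_iff.2 h4
    have h5 := (hG.isUnit_or_isUnit hQ).resolve_left not_isUnit_X
    have h6 := h5.map (aevalAeval (R := A) x a)
    rw [hQ, map_mul, aevalAeval_Y] at h0
    exact h6.ne_zero ((mul_eq_zero.1 h0).resolve_left ha)
  obtain ⟨l, hl, l', hl', hll, H, hH, hH1, hH0, hH0'⟩ :=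
    two_primesC T θ hT G hG h1 hθ0 σ P hP S hPd ℛ (fun l hl => ⟨(hℛ l hl).1, sig_bij (σ l), (hℛ l hl).2⟩) hc
  have h2 := om_algA T θ hT hθ G hG h1 hθ0 σ l l' (sig_bij _) (sig_bij _) (hℛ l hl).1.one_lt.le (hℛ l' hl').1.one_lt.le hll H
    hH hH1 hH0 hH0'
  obtain ⟨u, i₀, h3⟩ := collinear T θ hT hθ G hG h1 hθ0 h2
  exact numC G hG h1 u i₀ h3 x a hx ha h0

end Pool.Agent.H36.LH
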