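import Pool.Agent.H36.LH.LhD

/-!
# THEOREM L, version 4 (MP_187c26_nt): dimension one, exponent `1 + ε` over `A`

PROOF. Imports may be sorried (`lehD0`). Let `S` be the set of natural numbers `D'` such that there are `κ' ≠ 0` integral over `A` and `u, M ≥ 1` with `κ'^M = κ^(u M)`, `D' = [A(κ') : A]`, `D' u ≤ D := [A(κ) : A]`; `D ∈ S` (`κ' = κ`, `u = M = 1`). Take the minimal `D'`. Then `κ' ∈ A⟮κ'^q⟯` for all primes `q`: let `H := A⟮κ'^q⟯`, suppose `κ' ∉ H`. (i) If `X^q - κ'^q` is irreducible over `H`,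
`[A(κ') : H] = q`, `κ'' := κ'^q`, `u'' := u q`, `[A(κ'') : A] = D'/q < D'`, `D'' u'' = D' u`, `κ''^M = κ'^(q M) = κ^(u q M)`: contradiction. (ii) Otherwise (`X_pow_sub_C_irreducible_of_prime`) there is `γ ∈ H`, `γ^q = κ'^q`; `[A(γ) : A] ≤ [H : A] < D'`, `u'' := u`, `γ^(q M) = κ'^(q M) = κ^(u q M)`: contradiction.
`h(κ') = u h(κ)` (`absLogHeight_pow`), so `D' h(κ') = D' u h(κ) ≤ D h(κ)`: `lehD0` for `κ'`; `κ'^k = 1` gives `κ^(u M k) = 1`.
(Written as a strong induction on `D`.)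
-/

set_option autoImplicit false

open Polynomial NumberField IntermediateField

namespace Pool.Agent.H36.LH

open Pool.Agent.H36.LE Pool.Agent.H36.LF

private theorem lhe_fin {k E : Type} [Field k] [Field E] [Algebra k E]
    (F : IntermediateField k E) [FiniteDimensional k F] (z : E) (hz : IsIntegral F z) :
    Module.finrank k (F⟮z⟯.restrictScalars k) =
      Module.finrank k F * (minpoly F z).natDegree := by
  have h1 : Module.finrank F F⟮z⟯ = (minpoly F z).natDegree :=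
    IntermediateField.adjoin.finrank hz
  have h2 : Module.finrank k F * Module.finrank F F⟮z⟯ = Module.finrank k F⟮z⟯ :=
    Module.finrank_mul_finrank k F F⟮z⟯
  rw [h1] at h2
  rw [h2]
  rfl

private theorem lhe_step {k E : Type} [Field k] [Field E] [Algebra k E] (q : ℕ) (hq : q.Prime)
    (x : E) (hx0 : x ≠ 0) (hx : IsIntegral k x) (hnot : x ∉ k⟮x ^ q⟯) :
    ∃ (y : E) (v : ℕ), y ≠ 0 ∧ IsIntegral k y ∧ 1 ≤ v ∧ y ^ q = x ^ (v * q) ∧
      Module.finrank k k⟮y⟯ < Module.finrank k k⟮x⟯ ∧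
      Module.finrank k k⟮y⟯ * v ≤ Module.finrank k k⟮x⟯ := by
  have hF0fd : FiniteDimensional k k⟮x ^ q⟯ := IntermediateField.adjoin.finiteDimensional (hx.pow q)
  have hFfd : FiniteDimensional k k⟮x⟯ := IntermediateField.adjoin.finiteDimensional hx
  have hle : k⟮x ^ q⟯ ≤ k⟮x⟯ := by
    rw [IntermediateField.adjoin_simple_le_iff]
    exact pow_mem (IntermediateField.mem_adjoin_simple_self k x) q
  have hlt : k⟮x ^ q⟯ < k⟮x⟯ := by
    refine lt_of_le_of_ne hle fun h => hnot ?_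
    rw [h]
    exact IntermediateField.mem_adjoin_simple_self k x
  have hxF0 : x ^ q ∈ k⟮x ^ q⟯ := IntermediateField.mem_adjoin_simple_self k (x ^ q)
  have hflt : Module.finrank k k⟮x ^ q⟯ < Module.finrank k k⟮x⟯ := by
    refine lt_of_le_of_ne (IntermediateField.finrank_le_of_le_right hle) fun h => hlt.ne ?_
    exact IntermediateField.eq_of_le_of_finrank_eq hle h
  by_cases hc : ∃ γ : k⟮x ^ q⟯, γ ^ q = ⟨x ^ q, hxF0⟩
  · obtain ⟨γ, hγ⟩ := hc
    have hγ' : (γ : E) ^ q = x ^ q := congrArg Subtype.val hγ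
    refine ⟨γ, 1, ?_, ?_, le_rfl, by rw [one_mul, hγ'], ?_, ?_⟩
    · intro h0
      rw [h0, zero_pow hq.ne_zero] at hγ'
      exact pow_ne_zero q hx0 hγ'.symm
    · have h1 : IsIntegral k γ := Algebra.IsIntegral.isIntegral γ
      exact h1.map (k⟮x ^ q⟯).val
    all_goals
      have h2 : k⟮(γ : E)⟯ ≤ k⟮x ^ q⟯ := by
        rw [IntermediateField.adjoin_simple_le_iff]
        exact γ.2
      have h3 := IntermediateField.finrank_le_of_le_right h2
      omega
  · push Not at hc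
    have hirr := X_pow_sub_C_irreducible_of_prime hq hc
    have hmon : (X ^ q - C (⟨x ^ q, hxF0⟩ : k⟮x ^ q⟯) : k⟮x ^ q⟯[X]).Monic :=
      monic_X_pow_sub_C _ hq.ne_zero
    have hmp : X ^ q - C (⟨x ^ q, hxF0⟩ : k⟮x ^ q⟯) = minpoly k⟮x ^ q⟯ x := by
      refine minpoly.eq_of_irreducible_of_monic hirr ?_ hmon
      rw [map_sub, map_pow, aeval_X, aeval_C]
      exact sub_self _
    have h1 := lhe_fin k⟮x ^ q⟯ x hx.tower_top
    rw [← hmp, natDegree_X_pow_sub_C] at h1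
    have h2 : k⟮x ^ q⟯⟮x⟯.restrictScalars k ≤ k⟮x⟯ := by
      intro z hz
      have h3 : k⟮x ^ q⟯⟮x⟯ ≤ IntermediateField.extendScalars hle := by
        rw [IntermediateField.adjoin_simple_le_iff]
        exact IntermediateField.mem_adjoin_simple_self k x
      exact h3 hz
    have h3 := IntermediateField.finrank_le_of_le_right h2
    exact ⟨x ^ q, q, pow_ne_zero q hx0, hx.pow q, hq.one_le, by rw [← pow_mul], hflt, by rw [← h1]; exact h3⟩

private theorem lhe_nn {E : Type} [Field E] [CharZero E] (a : E) : 0 ≤ absLogHeight₁ a := by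
  unfold absLogHeight₁ absMulHeight₁
  split_ifs with hx
  · have : FiniteDimensional ℚ ℚ⟮a⟯ := adjoin.finiteDimensional hx
    have : NumberField ℚ⟮a⟯ := {}
    refine Real.log_nonneg ?_
    exact Real.one_le_rpow (Height.one_le_mulHeight₁ _) (by positivity)
  · rw [Real.log_one]

theorem lehD (e : ℕ) : ∃ Z₀ : ℕ, ∀ Z : ℕ, Z₀ ≤ Z → ∀ (A Ω : Type) [Field A] [NumberField A]
    [Field Ω] [CharZero Ω] [Algebra A Ω] (σ : ℕ → (A →+* A)) (κ : Ω), IsIntegral A κ → κ ≠ 0 →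
    (∀ q : ℕ, q.Prime → Z ≤ q → q ≤ Z ^ 2 → Pool.Agent.H72.BE.Frob A q (σ q)) →
    Module.finrank A A⟮κ⟯ ≤ Z ^ e →
    (Z : ℝ) ^ 3 * (Module.finrank A A⟮κ⟯ * absLogHeight₁ κ) ≤ 1 →
    ∃ k : ℕ, 1 ≤ k ∧ κ ^ k = 1 := by
  obtain ⟨Z₀, hZ₀⟩ := lehD0 e
  refine ⟨Z₀, fun Z hZ A Ω _ _ _ _ _ σ κ hκ h0 hFr hD hh => ?_⟩
  obtain ⟨D, hDD⟩ : ∃ D, D = Module.finrank A A⟮κ⟯ := ⟨_, rfl⟩
  induction D using Nat.strong_induction_on generalizing κ with
  | _ D ih =>
    by_cases hall : ∀ q : ℕ, q.Prime → Z ≤ q → q ≤ Z ^ 2 → κ ∈ A⟮κ ^ q⟯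
    · exact hZ₀ Z hZ A Ω σ κ hκ h0 hFr hD hall hh
    · push Not at hall
      obtain ⟨q, hq, -, -, hnot⟩ := hall
      obtain ⟨y, v, hy0, hy, hv, hyv, hlt, hle⟩ := lhe_step q hq κ h0 hκ hnot
      have hint : ∀ z : Ω, IsIntegral A z → IsIntegral ℚ z := fun z hz => isIntegral_trans (A := A) z hz
      have h1 := Pool.Agent.H4.RR.absLogHeight_pow Ω κ (hint κ hκ) (v * q)
      have h2 := Pool.Agent.H4.RR.absLogHeight_pow Ω y (hint y hy) q
      rw [hyv, h1] at h2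
      have hq0 : (q : ℝ) ≠ 0 := by exact_mod_cast hq.ne_zero
      have h3 : absLogHeight₁ y = v * absLogHeight₁ κ := by
        have h4 : (q : ℝ) * absLogHeight₁ y = q * (v * absLogHeight₁ κ) := by
          rw [← h2]
          push_cast
          ring
        exact mul_left_cancel₀ hq0 h4
      have hnn : 0 ≤ absLogHeight₁ κ := lhe_nn κ
      obtain ⟨k, hk, hyk⟩ := ih (Module.finrank A A⟮y⟯) (hDD ▸ hlt) y hy hy0 (hlt.le.trans hD) (by
        refine le_trans ?_ hh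
        refine mul_le_mul_of_nonneg_left ?_ (by positivity)
        rw [h3, ← mul_assoc]
        refine mul_le_mul_of_nonneg_right ?_ hnn
        exact_mod_cast hle) rfl
      refine ⟨v * q * k, Nat.mul_pos (Nat.mul_pos hv hq.pos) hk, ?_⟩
      rw [pow_mul, ← hyv, ← pow_mul, mul_comm q k, pow_mul, hyk, one_pow]

end Pool.Agent.H36.LH
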