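import Pool.Agent.H36.LH.FbC
import Pool.Agent.H36.LH.LhE

/-!
# THEOREM L, version 4 (MP_187c26_nt), number fields `A ≤ E`

Imports may be sorried (`finBC`, `lehD`). Proved file with similar steps: `Pool/Agent/H36/LG/FcB.lean` (`fcb_three`), `FdB.lean` (`fdb_deg`, `fdb_small`).
PROOF. Suppose `Z^32 (d h(a)) ≤ 1`. Case `m < Z^18`: `[A(a) : A] ≤ [E : A] = m d ≤ Z^(e + 18)` (`RdA.fin`); `lehD (e + 18)` for `κ = a` (`Ω := E`; `Z^2 ≤ Z^12`): `Z^3 ([A(a) : A] h) ≤ Z^3 m d h ≤ Z^21 d h ≤ 1`; so `a^k = 1 = b^0`, `k ≥ 1`: contradiction.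
Case `m ≥ Z^18`: `finBC`: `q`, `β`, `w`, `κ := (a^q)^β (x^q)^w`, `D := [A(κ) : A]`, `D ≤ β D ≤ d Z^13 ≤ Z^(e + 13)`. `h(κ) ≤ q β h(a) + q |w| log b/m` (`h(x) = log b/m` from `m h(x) = h(b) = log b`: `Pool.Agent.H4.RR.absLogHeight_pow`; `absLogHeight_mul_le`, `absLogHeight_zpow`/`_inv`: see `round_rel` in `Pool/Agent/H36/LG/MnB.lean`).
`Z^3 D h(κ) ≤ Z^3 Z^12 (β D) h(a) + Z^3 Z^12 (|w| D) log b/m ≤ Z^28 d h(a) + Z^(-4) log b ≤ Z^(-4) (1 + log b) ≤ 1` (`Z^15 |w| D Z^4 ≤ m`). `lehD (e + 13)`: `κ^k = 1`, `k ≥ 1`: the power `m`: `a^(q β k m) = b^(- q w k)`: contradiction. `κ ≠ 0` (`a ≠ 0`, `x ≠ 0`).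
-/

set_option autoImplicit false

open Polynomial NumberField IntermediateField

namespace Pool.Agent.H36.LH

open Pool.Agent.H36.LE Pool.Agent.H36.LF

private theorem fcc_hb {Ω : Type} [Field Ω] [CharZero Ω] (b : ℕ) (hb : 2 ≤ b) (k : ℕ) :
    absLogHeight₁ ((b : Ω) ^ k) = k * Real.log b := by
  have h1 := Pool.Agent.H4.RR.absLogHeight_eq ℚ Ω (algebraMap ℚ Ω) ((b : ℚ) ^ k)
  rw [Module.finrank_self, Nat.cast_one, div_one, Height.logHeight₁_pow] at h1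
  have h2 : Height.logHeight₁ (b : ℚ) = Real.log b := by
    rw [Rat.logHeight₁_eq_log_max]
    have h3 : max ((b : ℚ).num.natAbs) (b : ℚ).den = b := by
      rw [Rat.num_natCast, Rat.den_natCast, Int.natAbs_natCast]
      omega
    rw [h3]
  rw [h2] at h1
  rw [← h1, map_pow, map_natCast]

private theorem fcc_hbi {Ω : Type} [Field Ω] [CharZero Ω] (b : ℕ) (hb : 2 ≤ b) (k : ℕ) :
    absLogHeight₁ (((b : Ω) ^ k)⁻¹) = k * Real.log b := by
  have h1 := Pool.Agent.H4.RR.absLogHeight_eq ℚ Ω (algebraMap ℚ Ω) (((b : ℚ) ^ k)⁻¹)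
  rw [Module.finrank_self, Nat.cast_one, div_one, Height.logHeight₁_inv, Height.logHeight₁_pow] at h1
  have h2 : Height.logHeight₁ (b : ℚ) = Real.log b := by
    rw [Rat.logHeight₁_eq_log_max]
    have h3 : max ((b : ℚ).num.natAbs) (b : ℚ).den = b := by
      rw [Rat.num_natCast, Rat.den_natCast, Int.natAbs_natCast]
      omega
    rw [h3]
  rw [h2] at h1
  rw [← h1, map_inv₀, map_pow, map_natCast]

private theorem fcc_hbz {Ω : Type} [Field Ω] [CharZero Ω] (b : ℕ) (hb : 2 ≤ b) (w : ℤ) :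
    absLogHeight₁ ((b : Ω) ^ w) = w.natAbs * Real.log b := by
  rcases Int.natAbs_eq w with h | h
  · conv_lhs => rw [h, zpow_natCast]
    exact fcc_hb b hb _
  · conv_lhs => rw [h, zpow_neg, zpow_natCast]
    exact fcc_hbi b hb _

/-- the height of the auxiliary number -/
private theorem fcc_ht {E : Type} [Field E] [NumberField E] {b : ℕ} (hb : 2 ≤ b) {m q β : ℕ} {w : ℤ}
    {x a : E} (hm : 1 ≤ m) (hx : x ^ m = (b : E)) :
    absLogHeight₁ ((a ^ q) ^ β * (x ^ q) ^ w) ≤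
      q * β * absLogHeight₁ a + q * (w.natAbs * Real.log b / m) := by
  have hint : ∀ y : E, IsIntegral ℚ y := fun y => Algebra.IsIntegral.isIntegral y
  have h1 := Pool.Agent.H4.RR.absLogHeight_mul_le E ((a ^ q) ^ β) ((x ^ q) ^ w) (hint _) (hint _)
  have h2 := Pool.Agent.H4.RR.absLogHeight_pow E a (hint a) (q * β)
  have h3 := Pool.Agent.H4.RR.absLogHeight_pow E ((x ^ q) ^ w) (hint _) m
  have h4 : ((x ^ q) ^ w) ^ m = (b : E) ^ ((q : ℤ) * w) := by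
    rw [← zpow_natCast ((x ^ q) ^ w), ← zpow_mul, ← zpow_natCast x q, ← zpow_mul, ← hx, ← zpow_natCast x m,
      ← zpow_mul]
    congr 1
    ring
  rw [h4, fcc_hbz b hb, Int.natAbs_mul, Int.natAbs_natCast] at h3
  have hm0 : (0 : ℝ) < m := by exact_mod_cast hm
  have h5 : absLogHeight₁ ((x ^ q) ^ w) = q * (w.natAbs * Real.log b / m) := by
    rw [← mul_div_assoc, eq_div_iff hm0.ne', mul_comm, ← h3]
    push_cast
    ring
  rw [h5, ← pow_mul, h2] at h1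
  push_cast at h1
  rw [← pow_mul]
  exact h1

theorem thmLC (b : ℕ) (hb : 2 ≤ b) (δ₀ e : ℕ) : ∃ Z₀ : ℕ, ∀ Z : ℕ, Z₀ ≤ Z →
    ∀ (A E : Type) [Field A] [NumberField A] [Field E] [NumberField E] [Algebra A E]
      (m d δ : ℕ) (x a : E) (σ : ℕ → (A →+* A)) (ℬ : Finset ℕ), 1 ≤ δ → δ ≤ δ₀ →
      RdA A b m d (Real.log δ) x → Mx A x δ →
      (∀ q : ℕ, q.Prime → Z ≤ q → q ≤ Z ^ 12 → Pool.Agent.H72.BE.Frob A q (σ q)) →
      ℬ.card ≤ e + 3 →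
      (∀ q : ℕ, q.Prime → Z ^ 11 < q → q ≤ Z ^ 12 → q ∉ ℬ →
        m * d ≤ Module.finrank A (IntermediateField.adjoin A ({x ^ q, a ^ q} : Set E))) →
      d ≤ Z ^ e → a ≠ 0 → (∀ k : ℕ, 1 ≤ k → ∀ j : ℤ, a ^ k ≠ (b : E) ^ j) →
      1 < (Z : ℝ) ^ 32 * (d * absLogHeight₁ a) := by
  obtain ⟨Z₁, hZ₁⟩ := finBC b hb δ₀ e
  obtain ⟨Z₂, hZ₂⟩ := lehD (e + 18)
  obtain ⟨Z₃, hZ₃⟩ := lehD (e + 13)
  refine ⟨Z₁ + Z₂ + Z₃ + ⌈Real.log b⌉₊ + 1, ?_⟩
  intro Z hZ A E _ _ _ _ _ m d δ x a σ ℬ hδ1 hδ hR hMx hFr hB horb hd ha hab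
  by_contra hcon
  push Not at hcon
  have hZ1 : 1 ≤ Z := by omega
  have hZR : (1 : ℝ) ≤ Z := by exact_mod_cast hZ1
  have hh : 0 ≤ absLogHeight₁ a := Pool.Agent.H72.PL.absHeight_nonneg a
  have hdh : 0 ≤ (d : ℝ) * absLogHeight₁ a := mul_nonneg (Nat.cast_nonneg d) hh
  have hFD : FiniteDimensional A E := Module.Finite.of_restrictScalars_finite ℚ A E
  have hFr2 : ∀ q : ℕ, q.Prime → Z ≤ q → q ≤ Z ^ 2 → Pool.Agent.H72.BE.Frob A q (σ q) :=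
    fun q hq h1 h2 => hFr q hq h1 (h2.trans (Nat.pow_le_pow_right hZ1 (by norm_num)))
  by_cases hm : m < Z ^ 18
  · have hD : Module.finrank A A⟮a⟯ ≤ m * d := by
      rw [← hR.fin]
      exact Submodule.finrank_le (Subalgebra.toSubmodule A⟮a⟯.toSubalgebra)
    have hD2 : Module.finrank A A⟮a⟯ ≤ Z ^ 18 * d := hD.trans (Nat.mul_le_mul_right d hm.le)
    obtain ⟨k, hk, hk1⟩ := hZ₂ Z (by omega) A E σ a (Algebra.IsIntegral.isIntegral a) ha hFr2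
      (hD2.trans (by
        calc Z ^ 18 * d ≤ Z ^ 18 * Z ^ e := Nat.mul_le_mul_left _ hd
          _ = Z ^ (e + 18) := by ring)) (by
        have h1 : (Module.finrank A A⟮a⟯ : ℝ) ≤ (Z : ℝ) ^ 18 * d := by exact_mod_cast hD2
        calc (Z : ℝ) ^ 3 * (Module.finrank A A⟮a⟯ * absLogHeight₁ a) ≤
              (Z : ℝ) ^ 3 * (((Z : ℝ) ^ 18 * d) * absLogHeight₁ a) := by gcongr
          _ = (Z : ℝ) ^ 21 * (d * absLogHeight₁ a) := by ring
          _ ≤ (Z : ℝ) ^ 32 * (d * absLogHeight₁ a) :=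
              mul_le_mul_of_nonneg_right (pow_le_pow_right₀ hZR (by norm_num)) hdh
          _ ≤ 1 := hcon)
    exact hab k hk 0 (by rw [hk1, zpow_zero])
  · push Not at hm
    obtain ⟨q, β, w, hq, hqZ, hβ, hint, hβD, hwD⟩ := hZ₁ Z (by omega) A E m d δ x a σ ℬ hδ1 hδ hR hMx hFr hB horb
      hd hm ha hcon
    have hb0 : (b : E) ≠ 0 := by
      rw [Nat.cast_ne_zero]
      omega
    have hm1 : 1 ≤ m := hR.m1
    have hx := hR.pow
    have hx0 : x ≠ 0 := by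
      rintro rfl
      rw [zero_pow (by omega)] at hx
      exact hb0 hx.symm
    have hxq : x ^ q ≠ 0 := pow_ne_zero _ hx0
    have hκ0 : (a ^ q) ^ β * (x ^ q) ^ w ≠ 0 := mul_ne_zero (pow_ne_zero _ (pow_ne_zero _ ha)) (zpow_ne_zero _ hxq)
    have hpow : ∀ k : ℕ, ((a ^ q) ^ β * (x ^ q) ^ w) ^ (m * k) =
        a ^ (q * β * m * k) * (b : E) ^ ((q : ℤ) * w * k) := by
      intro k
      have e1 : ((a ^ q) ^ β) ^ (m * k) = a ^ (q * β * m * k) := by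
        rw [← pow_mul, ← pow_mul]
        congr 1
        ring
      have e2 : ((x ^ q) ^ w) ^ (m * k) = (b : E) ^ ((q : ℤ) * w * k) := by
        rw [← zpow_natCast ((x ^ q) ^ w), ← zpow_mul, ← zpow_natCast x q, ← zpow_mul, ← hx, ← zpow_natCast x m,
          ← zpow_mul]
        congr 1
        push_cast
        ring
      rw [mul_pow, e1, e2]
    have hht := fcc_ht (a := a) (q := q) (β := β) (w := w) hb hm1 hx
    obtain ⟨κ, hκ⟩ : ∃ κ, κ = (a ^ q) ^ β * (x ^ q) ^ w := ⟨_, rfl⟩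
    rw [← hκ] at hint hβD hwD hκ0 hht
    obtain ⟨D, hDe⟩ : ∃ D, D = Module.finrank A A⟮κ⟯ := ⟨_, rfl⟩
    rw [← hDe] at hβD hwD
    have hD : D ≤ Z ^ (e + 13) := by
      calc D ≤ β * D := Nat.le_mul_of_pos_left D hβ
        _ ≤ d * Z ^ 13 := hβD
        _ ≤ Z ^ e * Z ^ 13 := Nat.mul_le_mul_right _ hd
        _ = Z ^ (e + 13) := by ring
    have hlb : 0 ≤ Real.log b := Real.log_nonneg (by exact_mod_cast (by omega : 1 ≤ b))
    have hm0 : (0 : ℝ) < m := by exact_mod_cast hm1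
    have hq' : (q : ℝ) ≤ (Z : ℝ) ^ 12 := by exact_mod_cast hqZ
    have hβD' : (β : ℝ) * D ≤ d * (Z : ℝ) ^ 13 := by exact_mod_cast hβD
    have hwD' : (w.natAbs : ℝ) * D * (Z : ℝ) ^ 19 ≤ m := by exact_mod_cast hwD
    have k1 : (Z : ℝ) ^ 7 * (D * (q * β * absLogHeight₁ a)) ≤ 1 := by
      calc (Z : ℝ) ^ 7 * (D * (q * β * absLogHeight₁ a)) = (Z : ℝ) ^ 7 * (q * (β * D) * absLogHeight₁ a) := by ring
        _ ≤ (Z : ℝ) ^ 7 * ((Z : ℝ) ^ 12 * (d * (Z : ℝ) ^ 13) * absLogHeight₁ a) := by gcongr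
        _ = (Z : ℝ) ^ 32 * (d * absLogHeight₁ a) := by ring
        _ ≤ 1 := hcon
    have k2 : (Z : ℝ) ^ 7 * (D * (q * (w.natAbs * Real.log b / m))) ≤ Real.log b := by
      calc (Z : ℝ) ^ 7 * (D * (q * (w.natAbs * Real.log b / m))) =
            (Z : ℝ) ^ 7 * q * (w.natAbs * D) * Real.log b / m := by ring
        _ ≤ (Z : ℝ) ^ 7 * (Z : ℝ) ^ 12 * (w.natAbs * D) * Real.log b / m := by gcongr
        _ = (w.natAbs * D * (Z : ℝ) ^ 19) * Real.log b / m := by ring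
        _ ≤ m * Real.log b / m := by gcongr
        _ = Real.log b := by field_simp
    have hZlog : 1 + Real.log b ≤ (Z : ℝ) ^ 4 := by
      have h1 : Real.log b ≤ ⌈Real.log b⌉₊ := Nat.le_ceil _
      have h2 : ((⌈Real.log b⌉₊ + 1 : ℕ) : ℝ) ≤ Z := by exact_mod_cast (by omega : ⌈Real.log b⌉₊ + 1 ≤ Z)
      push_cast at h2
      have h3 : (Z : ℝ) ≤ (Z : ℝ) ^ 4 := le_self_pow₀ hZR (by norm_num)
      linarith
    have k3 : (Z : ℝ) ^ 3 * (D * absLogHeight₁ κ) ≤ 1 := by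
      have h1 : (Z : ℝ) ^ 7 * (D * absLogHeight₁ κ) ≤ 1 + Real.log b := by
        calc (Z : ℝ) ^ 7 * (D * absLogHeight₁ κ) ≤
              (Z : ℝ) ^ 7 * (D * (q * β * absLogHeight₁ a + q * (w.natAbs * Real.log b / m))) := by gcongr
          _ = (Z : ℝ) ^ 7 * (D * (q * β * absLogHeight₁ a)) +
              (Z : ℝ) ^ 7 * (D * (q * (w.natAbs * Real.log b / m))) := by ring
          _ ≤ 1 + Real.log b := add_le_add k1 k2
      have h2 : (0 : ℝ) < (Z : ℝ) ^ 4 := by positivity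
      refine le_of_mul_le_mul_left ?_ h2
      calc (Z : ℝ) ^ 4 * ((Z : ℝ) ^ 3 * (D * absLogHeight₁ κ)) = (Z : ℝ) ^ 7 * (D * absLogHeight₁ κ) := by ring
        _ ≤ 1 + Real.log b := h1
        _ ≤ (Z : ℝ) ^ 4 * 1 := by rw [mul_one]; exact hZlog
    obtain ⟨k, hk, hk1⟩ := hZ₃ Z (by omega) A E σ κ hint hκ0 hFr2 (hDe ▸ hD) (hDe ▸ k3)
    have h1 := hpow k
    rw [← hκ, mul_comm m k, pow_mul, hk1, one_pow] at h1
    refine hab (q * β * m * k) (Nat.one_le_iff_ne_zero.2 (by positivity)) (-((q : ℤ) * w * k)) ?_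
    rw [zpow_neg]
    exact eq_inv_of_mul_eq_one_left h1.symm

end Pool.Agent.H36.LH
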