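import Pool.Agent.H36.LH.ExA
import Pool.Agent.H36.LG.MnB

/-!
# THEOREM L, version 4 (MP_187c26_nt): the integers of `ℚ(ξ, x)` and number fields for the main theorem

Imports may be sorried (`exp_idx`). `A = AA ξ = ℚ(ξ)`, `F = FF ξ ![x] = ℚ(ξ, x)`.
`exp_FF`: the integers of `F` are generated by those of `A` and of `ℚ(x)` (coprime discriminants): `IsDedekindDomain.range_sup_range_eq_top_of_isCoprime_differentIdeal` in `Mathlib/RingTheory/DedekindDomain/LinearDisjoint.lean`; the hypotheses (linear disjointness, coprime different ideals) are proved in the private theorem `main` of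
`Pool/Agent/H36/LF/GqB.lean` (`hdj`, `isCoprime_differentIdeal_of_isCoprime_discr`; copy that proof). So an integral `y ∈ F` is a finite sum `∑ a_i y_i`, `a_i ∈ A`, `y_i ∈ ℚ(x)` integral, `δ y_i = f_i(x)`, `f_i ∈ ℤ[X]`: `f := ∑ a_i f_i`.
`rdA_overD`: `rdA_over` (`Pool/Agent/H36/LG/MnB.lean`) with `ι := log δ` (`exp_idx`) gives `E`, `x'`, `a`, `f`. `Mx (AA ξ) x' δ`: if `y ∈ A⟮x'⟯` is integral then `f y ∈ A⟮x⟯` (as a set equal to `FF ξ ![x]`) is integral; `exp_FF`; `f` is injective and `A`-linear.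
-/

set_option autoImplicit false

open Polynomial NumberField IntermediateField

namespace Pool.Agent.H36.LH

open Pool.Agent.H36.LE Pool.Agent.H36.LF Pool.Agent.H36.LG Pool.Agent.H72.BE

private theorem oa_disc_sq {F : Type} [Field F] [NumberField F] {ι : Type} [Fintype ι] [DecidableEq ι]
    (v : ι → F) (hv : ∀ i, IsIntegral ℤ (v i)) (e : Module.Free.ChooseBasisIndex ℤ (𝓞 F) ≃ ι) :
    ∃ t : ℤ, Algebra.discr ℚ v = (t : ℚ) ^ 2 * (NumberField.discr F : ℚ) := by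
  classical
  have h := Algebra.discr_of_matrix_vecMul (A := ℚ) ((integralBasis F).reindex e)
      (((integralBasis F).reindex e).toMatrix v)
  rw [Module.Basis.toMatrix_map_vecMul] at h
  let M : Matrix ι ι ℤ := fun i j => (RingOfIntegers.basis F).repr ⟨v j, hv j⟩ (e.symm i)
  have hM : ((integralBasis F).reindex e).toMatrix v = (algebraMap ℤ ℚ).mapMatrix M := by
    ext i j
    rw [Module.Basis.toMatrix_apply, Module.Basis.repr_reindex_apply, RingHom.mapMatrix_apply,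
      Matrix.map_apply]
    exact integralBasis_repr_apply F ⟨v j, hv j⟩ (e.symm i)
  refine ⟨M.det, ?_⟩
  rw [h, hM, ← RingHom.map_det, NumberField.coe_discr, Module.Basis.coe_reindex,
    Algebra.discr_reindex]
  rfl

private theorem oa_minpoly_rad {L : Type} [Field L] [CharZero L] (b m : ℕ) (hm : 1 ≤ m) (x : L)
    (hx : x ^ m = (b : L)) (hdeg : Module.finrank ℚ ℚ⟮x⟯ = m) :
    IsIntegral ℤ x ∧ minpoly ℚ x = X ^ m - C (b : ℚ) := by
  have hi : IsIntegral ℤ x := by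
    refine IsIntegral.of_pow (by omega : 0 < m) ?_
    rw [hx]
    have := isIntegral_algebraMap (R := ℤ) (A := L) (x := (b : ℤ))
    simpa using this
  have hint : IsIntegral ℚ x := hi.tower_top
  have hd : minpoly ℚ x ∣ X ^ m - C (b : ℚ) := minpoly.dvd ℚ x (by simp [hx])
  have hdeg' : (minpoly ℚ x).natDegree = m := by rw [← hdeg, adjoin.finrank hint]
  exact ⟨hi, (eq_of_monic_of_dvd_of_natDegree_le (minpoly.monic hint)
    (monic_X_pow_sub_C _ (by omega)) hd (by rw [natDegree_X_pow_sub_C, hdeg'])).symm⟩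

private theorem oa_norm_rad {F : Type} [Field F] [NumberField F] (b m : ℕ) (hm : 1 ≤ m) (θ : F)
    (hθ : θ ^ m = (b : F)) (hdeg : Module.finrank ℚ F = m) : |Algebra.norm ℚ θ| = (b : ℚ) := by
  have h1 : (Algebra.norm ℚ θ) ^ m = (b : ℚ) ^ m := by
    rw [← map_pow, hθ]
    have : (b : F) = algebraMap ℚ F (b : ℚ) := by simp
    rw [this, Algebra.norm_algebraMap, hdeg]
  have h2 : |Algebra.norm ℚ θ| ^ m = (b : ℚ) ^ m := by
    rw [← abs_pow, h1, abs_of_nonneg (by positivity)]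
  exact (pow_left_inj₀ (abs_nonneg _) (by positivity) (by omega)).1 h2

private theorem oa_discr_dvd {F : Type} [Field F] [NumberField F] (b m : ℕ) (hm : 1 ≤ m)
    (pb : PowerBasis ℚ F) (hmin : minpoly ℚ pb.gen = X ^ m - C (b : ℚ)) :
    (NumberField.discr F).natAbs ∣ m ^ m * b ^ (m - 1) := by
  classical
  have hdim : pb.dim = m := by
    rw [← pb.natDegree_minpoly, hmin, natDegree_X_pow_sub_C]
  have hdeg : Module.finrank ℚ F = m := by rw [pb.finrank, hdim]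
  have hθ : pb.gen ^ m = (b : F) := by
    have := minpoly.aeval ℚ pb.gen
    rw [hmin] at this
    simpa [sub_eq_zero] using this
  have hi : IsIntegral ℤ pb.gen := by
    refine IsIntegral.of_pow (by omega : 0 < m) ?_
    rw [hθ]
    have := isIntegral_algebraMap (R := ℤ) (A := F) (x := (b : ℤ))
    simpa using this
  have hN := oa_norm_rad b m hm pb.gen hθ hdeg
  have hd : |Algebra.discr ℚ pb.basis| = (m : ℚ) ^ m * (b : ℚ) ^ (m - 1) := by
    rw [Algebra.discr_powerBasis_eq_norm, abs_mul, abs_pow, abs_neg, abs_one, one_pow, one_mul,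
      hmin]
    have h1 : aeval pb.gen (derivative (X ^ m - C (b : ℚ))) =
        algebraMap ℚ F (m : ℚ) * pb.gen ^ (m - 1) := by
      simp [derivative_X_pow]
    rw [h1, map_mul, map_pow, Algebra.norm_algebraMap, hdeg, abs_mul, abs_pow, abs_pow, hN,
      abs_of_nonneg (by positivity)]
  have e : Module.Free.ChooseBasisIndex ℤ (𝓞 F) ≃ Fin pb.dim := Fintype.equivOfCardEq (by
    rw [← Module.finrank_eq_card_basis (integralBasis F), Fintype.card_fin, pb.finrank])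
  obtain ⟨t, ht⟩ := oa_disc_sq (fun i => pb.basis i) (fun i => by
    rw [PowerBasis.basis_eq_pow]
    exact hi.pow i) e
  have h2 : (((t.natAbs ^ 2 * (NumberField.discr F).natAbs : ℕ)) : ℚ) =
      ((m ^ m * b ^ (m - 1) : ℕ) : ℚ) := by
    push_cast
    rw [← hd]
    have h3 : Algebra.discr ℚ pb.basis = (t : ℚ) ^ 2 * (NumberField.discr F : ℚ) := ht
    rw [h3, abs_mul, abs_pow, Nat.cast_natAbs, Nat.cast_natAbs]
    push_cast
    rfl
  rw [← Nat.cast_inj (R := ℚ) |>.1 h2]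
  exact dvd_mul_left _ _

private theorem oa_main {L : Type} [Field L] [NumberField L] (b m n : ℕ) (hm : 1 ≤ m)
    (hn : 1 ≤ n) (cop : n.Coprime (m * b)) (ζ θ : L) (hζ : IsPrimitiveRoot ζ n)
    (hθ : θ ^ m = (b : L)) (hdeg : Module.finrank ℚ ℚ⟮θ⟯ = m) (htop : ℚ⟮ζ⟯ ⊔ ℚ⟮θ⟯ = ⊤) (y : 𝓞 L) :
    ∃ (ι : Type) (_ : Fintype ι) (r : ι → 𝓞 ℚ⟮ζ⟯) (s : ι → 𝓞 ℚ⟮θ⟯),
      (y : L) = ∑ i, ((r i : ℚ⟮ζ⟯) : L) * ((s i : ℚ⟮θ⟯) : L) := by
  have hn0 : NeZero n := ⟨by omega⟩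
  have hc : IsCyclotomicExtension {n} ℚ ℚ⟮ζ⟯ :=
    hζ.intermediateField_adjoin_isCyclotomicExtension ℚ
  have hg : IsGalois ℚ ℚ⟮ζ⟯ := IsCyclotomicExtension.isGalois {n} ℚ _
  obtain ⟨hi, hmin⟩ := oa_minpoly_rad b m hm θ hθ hdeg
  have hiQ : IsIntegral ℚ θ := hi.tower_top
  have hmin' : minpoly ℚ (adjoin.powerBasis hiQ).gen = X ^ m - C (b : ℚ) := by
    rw [adjoin.powerBasis_gen]
    exact (minpoly_gen ℚ θ).trans hmin
  have hd2 := oa_discr_dvd b m hm (adjoin.powerBasis hiQ) hmin'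
  have hd1 : (NumberField.discr ℚ⟮ζ⟯).natAbs ∣ n ^ n.totient := by
    rw [IsCyclotomicExtension.Rat.natAbs_discr n ℚ⟮ζ⟯]
    exact Nat.div_dvd_of_dvd (Nat.prod_primeFactors_pow_totient_ediv_dvd (by omega))
  have hcpr : IsCoprime (NumberField.discr ℚ⟮ζ⟯) (NumberField.discr ℚ⟮θ⟯) := by
    rw [Int.isCoprime_iff_nat_coprime]
    refine Nat.Coprime.coprime_dvd_left hd1 (Nat.Coprime.coprime_dvd_right hd2 ?_)
    refine Nat.Coprime.pow_left _ (Nat.Coprime.mul_right ?_ ?_)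
    · exact Nat.Coprime.pow_right _ (Nat.Coprime.coprime_dvd_right (dvd_mul_right _ _) cop)
    · exact Nat.Coprime.pow_right _ (Nat.Coprime.coprime_dvd_right (dvd_mul_left _ _) cop)
  have hdj : ℚ⟮ζ⟯.LinearDisjoint ℚ⟮θ⟯ := linearDisjoint_of_isGalois_isCoprime_discr _ _ _ hcpr
  have htop' : ℚ⟮ζ⟯.toSubalgebra ⊔ ℚ⟮θ⟯.toSubalgebra = ⊤ := by
    simpa [sup_toSubalgebra_of_isAlgebraic_right] using congr_arg IntermediateField.toSubalgebra htop
  have h3 := isCoprime_differentIdeal_of_isCoprime_discr L hcpr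
  let B := (Module.Free.chooseBasis ℤ (𝓞 ℚ⟮θ⟯)).ofIsCoprimeDifferentIdeal ℤ (𝓞 L) (𝓞 ℚ⟮ζ⟯) (𝓞 ℚ⟮θ⟯)
    hdj htop' h3
  refine ⟨Module.Free.ChooseBasisIndex ℤ (𝓞 ℚ⟮θ⟯), inferInstance, fun i => B.repr y i,
    fun i => Module.Free.chooseBasis ℤ (𝓞 ℚ⟮θ⟯) i, ?_⟩
  conv_lhs => rw [← B.sum_repr y]
  change algebraMap (𝓞 L) L (∑ i, B.repr y i • B i) = _
  rw [map_sum]
  refine Finset.sum_congr rfl fun i _ => ?_
  rw [Algebra.smul_def, map_mul, Module.Basis.ofIsCoprimeDifferentIdeal_apply]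
  rfl

variable {Ω : Type} [Field Ω] [CharZero Ω] [Algebra.IsAlgebraic ℚ Ω] {b m n : ℕ} {ξ x : Ω}

/-- the field generated by an element of a subfield -/
private theorem oa_eqv {Ω : Type} [Field Ω] [CharZero Ω] (K : IntermediateField ℚ Ω) (y : K) :
    Nonempty (ℚ⟮y⟯ ≃ₐ[ℚ] ℚ⟮(y : Ω)⟯) := by
  have h : IntermediateField.lift (ℚ⟮y⟯) = ℚ⟮(y : Ω)⟯ := by
    rw [IntermediateField.lift_adjoin, Set.image_singleton]
  exact ⟨(IntermediateField.liftAlgEquiv ℚ⟮y⟯).trans (IntermediateField.equivOfEq h)⟩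

theorem exp_FF (h : DatG b m n ξ x) (δ : ℕ) (hE : Ex x δ) (y : Ω) (hy : y ∈ FF ξ ![x])
    (hi : IsIntegral ℤ y) : ∃ f : (AA ξ)[X], (∀ i, IsIntegral ℤ (f.coeff i)) ∧
      aeval x f = (δ : Ω) * y := by
  have hfin : FiniteDimensional ℚ ℚ⟮x⟯ :=
    IntermediateField.adjoin.finiteDimensional h.integral_x.tower_top
  have hnf : NumberField ℚ⟮x⟯ := {}
  have i2 : NumberField (FF ξ ![x]) := h.nf_F
  obtain ⟨e2⟩ := oa_eqv (FF ξ ![x]) (xF ξ ![x] 0)
  have e2' : ℚ⟮xF ξ ![x] 0⟯ ≃ₐ[ℚ] ℚ⟮x⟯ := e2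
  have hf2 : Module.finrank ℚ ℚ⟮xF ξ ![x] 0⟯ = m := by
    rw [← h.deg]
    exact e2'.toLinearEquiv.finrank_eq
  have hp : IsPrimitiveRoot (ξF ξ ![x]) n := by
    refine IsPrimitiveRoot.coe_submonoidClass_iff.mp ?_
    exact h.prim
  have hpow : (xF ξ ![x] 0) ^ m = ((b : ℕ) : FF ξ ![x]) := by
    apply Subtype.ext
    exact h.pow
  have htop0 : IntermediateField.lift (F := FF ξ ![x]) (ℚ⟮ξF ξ ![x]⟯ ⊔ ℚ⟮xF ξ ![x] 0⟯) =
      IntermediateField.lift (F := FF ξ ![x]) ⊤ := by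
    rw [IntermediateField.lift_top, ← IntermediateField.adjoin_union,
      IntermediateField.lift_adjoin]
    change IntermediateField.adjoin ℚ _ = IntermediateField.adjoin ℚ ({ξ} ∪ Set.range ![x])
    refine congrArg (IntermediateField.adjoin ℚ) ?_
    ext y
    constructor
    · rintro ⟨z, hz | hz, rfl⟩
      · have h1 : z = ξF ξ ![x] := hz
        rw [h1]
        exact Or.inl rfl
      · have h1 : z = xF ξ ![x] 0 := hz
        rw [h1]
        exact Or.inr ⟨0, rfl⟩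
    · rintro (hy | ⟨i, rfl⟩)
      · rw [Set.mem_singleton_iff] at hy
        exact ⟨ξF ξ ![x], Or.inl rfl, hy.symm⟩
      · exact ⟨xF ξ ![x] 0, Or.inr rfl, by rw [Subsingleton.elim i 0]; rfl⟩
  have htop1 := IntermediateField.lift_injective (FF ξ ![x]) htop0
  have htop : ℚ⟮ξF ξ ![x]⟯ ⊔ ℚ⟮xF ξ ![x] 0⟯ = ⊤ := htop1
  have hyi : IsIntegral ℤ (⟨y, hy⟩ : FF ξ ![x]) := by
    have hinj : Function.Injective (algebraMap (FF ξ ![x]) Ω) := (algebraMap (FF ξ ![x]) Ω).injective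
    exact (isIntegral_algebraMap_iff hinj).1 hi
  obtain ⟨ι, _, r, s, hrs⟩ := oa_main b m n h.hm h.hn h.cop (ξF ξ ![x]) (xF ξ ![x] 0) hp hpow hf2 htop
    ⟨⟨y, hy⟩, hyi⟩
  -- the elements of `AA ξ`
  have hrA : ∀ i, ∃ a : AA ξ, IsIntegral ℤ a ∧ (a : Ω) = (((r i : ℚ⟮ξF ξ ![x]⟯) : FF ξ ![x]) : Ω) := by
    intro i
    have h1 : (((r i : ℚ⟮ξF ξ ![x]⟯) : FF ξ ![x]) : Ω) ∈ IntermediateField.lift (ℚ⟮ξF ξ ![x]⟯) :=
      ⟨((r i : ℚ⟮ξF ξ ![x]⟯) : FF ξ ![x]), (r i : ℚ⟮ξF ξ ![x]⟯).2, rfl⟩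
    rw [IntermediateField.lift_adjoin, Set.image_singleton] at h1
    refine ⟨⟨_, h1⟩, ?_, rfl⟩
    refine (isIntegral_algebraMap_iff (algebraMap (AA ξ) Ω).injective).1 ?_
    exact ((RingOfIntegers.isIntegral_coe (r i)).map (algebraMap ℚ⟮ξF ξ ![x]⟯ (FF ξ ![x]) |>.toIntAlgHom)).map
      (algebraMap (FF ξ ![x]) Ω).toIntAlgHom
  have hsX : ∀ i, ∃ g : ℤ[X], aeval x g = (δ : Ω) * (((s i : ℚ⟮xF ξ ![x] 0⟯) : FF ξ ![x]) : Ω) := by
    intro i
    have h1 : (((s i : ℚ⟮xF ξ ![x] 0⟯) : FF ξ ![x]) : Ω) ∈ IntermediateField.lift (ℚ⟮xF ξ ![x] 0⟯) :=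
      ⟨((s i : ℚ⟮xF ξ ![x] 0⟯) : FF ξ ![x]), (s i : ℚ⟮xF ξ ![x] 0⟯).2, rfl⟩
    rw [IntermediateField.lift_adjoin, Set.image_singleton] at h1
    have h2 : IsIntegral ℤ (((s i : ℚ⟮xF ξ ![x] 0⟯) : FF ξ ![x]) : Ω) :=
      ((RingOfIntegers.isIntegral_coe (s i)).map (algebraMap ℚ⟮xF ξ ![x] 0⟯ (FF ξ ![x]) |>.toIntAlgHom)).map
        (algebraMap (FF ξ ![x]) Ω).toIntAlgHom
    have h3 := hE _ h1 h2
    rw [Algebra.adjoin_singleton_eq_range_aeval] at h3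
    obtain ⟨g, hg⟩ := h3
    exact ⟨g, hg⟩
  choose a ha1 ha2 using hrA
  choose g hg using hsX
  refine ⟨∑ i, C (a i) * (g i).map (algebraMap ℤ (AA ξ)), fun k => ?_, ?_⟩
  · rw [finsetSum_coeff]
    refine IsIntegral.sum _ fun i _ => ?_
    rw [coeff_C_mul, coeff_map]
    exact (ha1 i).mul isIntegral_algebraMap
  · rw [map_sum]
    have h4 : y = ∑ i, (((r i : ℚ⟮ξF ξ ![x]⟯) : FF ξ ![x]) : Ω) *
        (((s i : ℚ⟮xF ξ ![x] 0⟯) : FF ξ ![x]) : Ω) := by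
      have h5 := congrArg (algebraMap (FF ξ ![x]) Ω) hrs
      rw [map_sum] at h5
      exact h5
    rw [h4, Finset.mul_sum]
    refine Finset.sum_congr rfl fun i _ => ?_
    rw [map_mul, aeval_C, aeval_map_algebraMap, hg, ← ha2]
    change (a i : Ω) * _ = _
    ring

theorem rdA_overD (h : DatG b m n ξ x) [NumberField (AA ξ)] (δ : ℕ) (hδ : 1 ≤ δ)
    (hE : Ex x δ) (α : Ω) :
    ∃ (E : Type) (_ : Field E) (_ : NumberField E) (_ : Algebra (AA ξ) E) (x' a : E)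
      (f : E →ₐ[AA ξ] Ω), f x' = x ∧ f a = α ∧
      RdA (AA ξ) b m (minpoly (FF ξ ![x]) α).natDegree (Real.log δ) x' ∧ Mx (AA ξ) x' δ := by
  have h2b : 1 ≤ b := by
    have h1 : 2 ≤ b := h.two
    omega
  have hidx := exp_idx b m δ h2b h.hm x h.pow h.deg hδ hE
  obtain ⟨E, _, _, _, x', a, f, hx', ha, hR⟩ := rdA_over h (Real.log δ) hidx α
  refine ⟨E, inferInstance, inferInstance, inferInstance, x', a, f, hx', ha, hR, fun y hy hi => ?_⟩
  have h1 : f y ∈ FF ξ ![x] := by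
    have h3 : f y ∈ ((AA ξ)⟮x'⟯).map f := ⟨y, hy, rfl⟩
    rw [IntermediateField.adjoin_map, Set.image_singleton, hx'] at h3
    have h4 : (AA ξ)⟮x⟯ ≤ IntermediateField.extendScalars (AA_le ξ ![x]) := by
      rw [IntermediateField.adjoin_simple_le_iff]
      exact mem_FF ξ ![x] 0
    exact h4 h3
  have h2 : IsIntegral ℤ (f y) := hi.map (f : E →+* Ω).toIntAlgHom
  obtain ⟨g, hg1, hg2⟩ := exp_FF h δ hE (f y) h1 h2
  refine ⟨g, hg1, ?_⟩
  have hinj : Function.Injective f := (f : E →+* Ω).injective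
  apply hinj
  rw [map_mul, map_natCast, ← Polynomial.aeval_algHom_apply, hx']
  exact hg2

end Pool.Agent.H36.LH
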