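import Pool.Agent.H36.LH.FcC
import Pool.Agent.H36.LH.OfA
import Pool.Agent.H36.LH.MnD
import Pool.Agent.H36.LG.FdB

/-!
# THEOREM L, version 4 (MP_187c26_nt), the theorem in `Ω` (algebraic closure of `ℚ`)

Imports may be sorried (`thmLC`, `exp_div`, `rdA_overD`, `exists_good`). The private lemmas `fdb_frob`, `fdb_height`, `fdb_nn` of `Pool/Agent/H36/LG/FdB.lean` can be copied.
PROOF. Suppose `Z^33 (d h(α)) ≤ 1`, `d := natDegree (minpoly (FF ξ ![x]) α)`. `exists_good` with `Q₀ := Z^11`, `Q := Z^12`, `J := e + 3`: `s`, `u`, `z`, `ℬ`; `x' := x^s`, `m' := m/s`, `d' := natDegree (minpoly (FF ξ ![x']) z)`, `d' u ≤ d`, `d' ≤ d ≤ Z^e`. `h(z) ≤ u h(α) + log b/Z^(11 (e + 3))`, so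
`Z^32 (d' h(z)) ≤ Z^32 d h(α) + Z^32 Z^e log b/Z^(11 e + 33) ≤ 1/Z + log b/Z ≤ 1` for `Z ≥ 1 + log b`. `exp_div`: `Ex x' δ`. `rdA_overD` for `x'`, `z`: `E`, `x_E`, `a`, `f`. `thmLC` (`A := AA ξ`, `σ` by `fdb_frob`: a prime `q ≥ Z > δ₀` does not divide `n`) gives `1 < Z^32 (d' h(a))`, `h(a) = h(z)`: contradiction.
Orbits: `q` prime, `Z^11 < q ≤ Z^12`, `q ∉ ℬ`: `orb_map` (`Pool/Agent/H36/LG/MnB.lean`) gives `[A(x_E^q, a^q) : A] = [A(x'^q, z^q) : A]` and `exists_good`: `adjoin A {x'^q, z^q}` contains `x'`, `z`, so it is `≥ adjoin A {x', z}`; its degree is `≥ m' d'`: `orb_map` backwards (exponent 1) and `E` has degree `m' d'` over `A` (`RdA.fin`) with... careful: use `adjoin A {x', z}` in `Ω`: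
`[A(x') : A] = m'` (`degG` in `Pool/Agent/H36/LG/MnA.lean` or `RdA.deg` transported), `[A(x')(z) : A(x')] = d'` (`nd_FF`), tower.
-/

set_option autoImplicit false

open Polynomial NumberField IntermediateField

namespace Pool.Agent.H36.LH

open Pool.Agent.H36.LE Pool.Agent.H36.LF Pool.Agent.H36.LG Pool.Agent.H72.BE

private theorem fdc_nn {Ω : Type} [Field Ω] [CharZero Ω] (x : Ω) : 0 ≤ absLogHeight₁ x := by
  unfold absLogHeight₁
  refine Real.log_nonneg ?_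
  unfold absMulHeight₁
  split_ifs with hx
  · have : FiniteDimensional ℚ ℚ⟮x⟯ := adjoin.finiteDimensional hx
    have : NumberField ℚ⟮x⟯ := {}
    exact Real.one_le_rpow (Height.one_le_mulHeight₁ _) (by positivity)
  · exact le_rfl

private theorem fdc_height (E Ω : Type) [Field E] [NumberField E] [Field Ω] [CharZero Ω] (f : E →+* Ω) (a : E) :
    absLogHeight₁ (f a) = absLogHeight₁ a := by
  have h1 := Pool.Agent.H4.RR.absLogHeight_eq E Ω f a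
  have h2 := Pool.Agent.H4.RR.absLogHeight_eq E E (RingHom.id E) a
  rw [RingHom.id_apply] at h2
  rw [h1, h2]

/-- the degree of a field which contains `x` and `z` -/
private theorem fdc_orb {k E : Type} [Field k] [Field E] [Algebra k E] (x z : E) (K : IntermediateField k E)
    [FiniteDimensional k K] (hx : IsIntegral k x) (hz : IsIntegral k z) (hxK : x ∈ K) (hzK : z ∈ K) :
    Module.finrank k k⟮x⟯ * (minpoly k⟮x⟯ z).natDegree ≤ Module.finrank k K := by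
  have hz' : IsIntegral k⟮x⟯ z := hz.tower_top
  have h1 : Module.finrank k⟮x⟯ k⟮x⟯⟮z⟯ = (minpoly k⟮x⟯ z).natDegree :=
    IntermediateField.adjoin.finrank hz'
  have h2 : Module.finrank k k⟮x⟯ * Module.finrank k⟮x⟯ k⟮x⟯⟮z⟯ = Module.finrank k k⟮x⟯⟮z⟯ :=
    Module.finrank_mul_finrank k k⟮x⟯ k⟮x⟯⟮z⟯
  have h3 : k⟮x⟯⟮z⟯.restrictScalars k ≤ K := by
    rw [IntermediateField.adjoin_simple_adjoin_simple, IntermediateField.adjoin_le_iff]
    rintro y (rfl | rfl)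
    · exact hxK
    · exact hzK
  have h4 : Module.finrank k (k⟮x⟯⟮z⟯.restrictScalars k) ≤ Module.finrank k K :=
    IntermediateField.finrank_le_of_le_right h3
  have h5 : Module.finrank k (k⟮x⟯⟮z⟯.restrictScalars k) = Module.finrank k k⟮x⟯⟮z⟯ := rfl
  rw [h5, ← h2, h1] at h4
  exact h4

/-- the end of the proof -/
private theorem fdc_num (Z e d d' u : ℕ) (h hz lb : ℝ) (hZ : 1 ≤ Z) (hlb : 0 ≤ lb)
    (hZb : 1 + lb ≤ (Z : ℝ)) (hdu : d' * u ≤ d) (hd' : d' ≤ Z ^ e) (hh0 : 0 ≤ h)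
    (hhz : hz ≤ u * h + lb / ((Z ^ 11 : ℕ) : ℝ) ^ (e + 3)) (hc : (Z : ℝ) ^ 33 * (d * h) ≤ 1) :
    (Z : ℝ) ^ 32 * (d' * hz) ≤ 1 := by
  have hZR : (1 : ℝ) ≤ Z := by exact_mod_cast hZ
  have hZ0 : (0 : ℝ) < Z := by linarith
  have hduR : (d' : ℝ) * u ≤ d := by exact_mod_cast hdu
  have hdR : (d' : ℝ) ≤ (Z : ℝ) ^ e := by exact_mod_cast hd'
  have h0 : (0 : ℝ) ≤ d' := Nat.cast_nonneg _
  have hP : ((Z ^ 11 : ℕ) : ℝ) ^ (e + 3) = (Z : ℝ) ^ (11 * e + 33) := by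
    push_cast
    rw [← pow_mul]
    congr 1
  rw [hP] at hhz
  have hPpos : (0 : ℝ) < (Z : ℝ) ^ (11 * e + 33) := by positivity
  have h1 : (Z : ℝ) ^ 33 * (d' * (lb / (Z : ℝ) ^ (11 * e + 33))) ≤ lb := by
    have h2 : (Z : ℝ) ^ 33 * d' ≤ (Z : ℝ) ^ (11 * e + 33) := by
      calc (Z : ℝ) ^ 33 * d' ≤ (Z : ℝ) ^ 33 * (Z : ℝ) ^ e :=
            mul_le_mul_of_nonneg_left hdR (by positivity)
        _ = (Z : ℝ) ^ (33 + e) := by rw [pow_add]
        _ ≤ (Z : ℝ) ^ (11 * e + 33) := pow_le_pow_right₀ hZR (by omega)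
    have h3 : (Z : ℝ) ^ 33 * (d' * (lb / (Z : ℝ) ^ (11 * e + 33))) =
        ((Z : ℝ) ^ 33 * d') * lb / (Z : ℝ) ^ (11 * e + 33) := by ring
    rw [h3, div_le_iff₀ hPpos, mul_comm lb]
    exact mul_le_mul_of_nonneg_right h2 hlb
  have h2 : (Z : ℝ) ^ 33 * (d' * (u * h)) ≤ 1 := by
    refine le_trans ?_ hc
    refine mul_le_mul_of_nonneg_left ?_ (by positivity)
    rw [← mul_assoc]
    exact mul_le_mul_of_nonneg_right hduR hh0
  have h3 : (Z : ℝ) ^ 33 * (d' * hz) ≤ (Z : ℝ) ^ 33 * (d' * (u * h + lb / (Z : ℝ) ^ (11 * e + 33))) :=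
    mul_le_mul_of_nonneg_left (mul_le_mul_of_nonneg_left hhz h0) (by positivity)
  have h4 : (Z : ℝ) ^ 33 * (d' * (u * h + lb / (Z : ℝ) ^ (11 * e + 33))) =
      (Z : ℝ) ^ 33 * (d' * (u * h)) + (Z : ℝ) ^ 33 * (d' * (lb / (Z : ℝ) ^ (11 * e + 33))) := by ring
  have h5 : ((Z : ℝ) ^ 32 * (d' * hz)) * Z ≤ 1 * Z := by
    have h6 : ((Z : ℝ) ^ 32 * (d' * hz)) * Z = (Z : ℝ) ^ 33 * (d' * hz) := by ring
    rw [h6]
    linarith
  exact le_of_mul_le_mul_right h5 hZ0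

section

variable {Ω : Type} [Field Ω] [CharZero Ω] {b m n : ℕ} {ξ x : Ω}

/-- the Frobenius lifts -/
private theorem fdc_frob (h : DatG b m n ξ x) [NumberField (AA ξ)] :
    ∃ σ : ℕ → (AA ξ →+* AA ξ), ∀ q : ℕ, q.Prime → ¬ q ∣ n → Frob (AA ξ) q (σ q) := by
  classical
  have hξ : IsPrimitiveRoot (ξA ξ) n :=
    IsPrimitiveRoot.of_map_of_injective (f := (AA ξ).val) h.prim (AA ξ).val.injective
  refine ⟨fun q => if h1 : q.Prime ∧ ¬ q ∣ n then
    Classical.choose (frob_cyc n h.hn (ξA ξ) hξ (adjoin_ξA ξ) q h1.1 h1.2) else RingHom.id _, ?_⟩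
  intro q hq hqn
  have h1 : q.Prime ∧ ¬ q ∣ n := ⟨hq, hqn⟩
  simp only [dif_pos h1]
  exact (Classical.choose_spec (frob_cyc n h.hn (ξA ξ) hξ (adjoin_ξA ξ) q h1.1 h1.2)).1

private theorem fdc_rs (ξ y : Ω) : (IntermediateField.adjoin (AA ξ) ({y} : Set Ω)).restrictScalars ℚ =
    FF ξ ![y] := by
  refine (IntermediateField.adjoin_adjoin_left ℚ ({ξ} : Set Ω) ({y} : Set Ω)).trans ?_
  unfold FF
  congr 1
  ext w
  simp

private theorem fdc_degA (h : DatG b m n ξ x) :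
    Module.finrank (AA ξ) (IntermediateField.adjoin (AA ξ) ({x} : Set Ω)) = m := by
  have := h.nf_A
  have := h.nf_F
  have h1 := degG h
  have h2 := Module.finrank_mul_finrank ℚ (AA ξ) (FF ξ ![x])
  have hxi : IsIntegral (AA ξ) x := h.integral_x.tower_top
  have h3 := Module.finrank_mul_finrank ℚ (AA ξ) (IntermediateField.adjoin (AA ξ) ({x} : Set Ω))
  have h4 : Module.finrank ℚ (IntermediateField.adjoin (AA ξ) ({x} : Set Ω)) =
      Module.finrank ℚ (FF ξ ![x]) := by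
    have h5 := congrArg (fun K : IntermediateField ℚ Ω => Module.finrank ℚ K) (fdc_rs ξ x)
    exact h5
  rw [h4, ← h2, h1] at h3
  exact Nat.eq_of_mul_eq_mul_left Module.finrank_pos h3

end

theorem thmL_eps0 (b : ℕ) (hb : 2 ≤ b) (δ₀ e : ℕ) : ∃ Z₀ : ℕ, ∀ Z : ℕ, Z₀ ≤ Z →
    ∀ (Ω : Type) [Field Ω] [CharZero Ω] [Algebra.IsAlgebraic ℚ Ω] [IsAlgClosed Ω]
      (m n δ : ℕ) (ξ x α : Ω), DatG b m n ξ x → 1 ≤ δ → δ ≤ δ₀ → Ex x δ →
      (∀ p : ℕ, p.Prime → p ∣ n → p ≤ δ₀) →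
      (minpoly (FF ξ ![x]) α).natDegree ≤ Z ^ e → α ≠ 0 →
      (∀ k : ℕ, 1 ≤ k → ∀ j : ℤ, α ^ k ≠ (b : Ω) ^ j) →
      1 < (Z : ℝ) ^ 33 * ((minpoly (FF ξ ![x]) α).natDegree * absLogHeight₁ α) := by
  obtain ⟨Z₁, hL⟩ := thmLC b hb δ₀ e
  refine ⟨Z₁ + δ₀ + 2 + ⌈1 + Real.log b⌉₊, ?_⟩
  intro Z hZ Ω _ _ _ _ m n δ ξ x α hD hδ hδ₀ hE hn hd hα0 hα
  by_contra hcon
  push Not at hcon
  have hZ1 : 1 ≤ Z := by omega
  have hlb : 0 ≤ Real.log b := Real.log_nonneg (by exact_mod_cast (by omega : 1 ≤ b))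
  have hZb : 1 + Real.log b ≤ (Z : ℝ) := by
    refine (Nat.le_ceil _).trans ?_
    exact_mod_cast (by omega : ⌈1 + Real.log b⌉₊ ≤ Z)
  obtain ⟨s, u, z, ℬ, hs, hz0, hu, hD', hrel, hdeg, hhz, hℬ, horb⟩ :=
    exists_good hD α hα0 (Z ^ 11) (Z ^ 12) (e + 3) (Nat.one_le_pow _ _ hZ1)
  have hE' : Ex (x ^ s) δ := exp_div b m s δ (by omega) hD.hm x hD.pow hD.deg hs hE
  have i1 : NumberField (AA ξ) := hD'.nf_A
  obtain ⟨E, _, _, _, x', a, f, hfx, hfa, hRd, hMx⟩ := rdA_overD hD' δ hδ hE' z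
  obtain ⟨σ, hσ⟩ := fdc_frob hD'
  have hd'd : (minpoly (FF ξ ![x ^ s]) z).natDegree ≤ Z ^ e :=
    (Nat.le_mul_of_pos_right _ hu).trans (hdeg.trans hd)
  have hzA : IsIntegral (AA ξ) z := (Algebra.IsIntegral.isIntegral (R := ℚ) z).tower_top
  have hxA : IsIntegral (AA ξ) (x ^ s) := hD'.integral_x.tower_top
  have h1 := hL Z (by omega) (AA ξ) E (m / s) _ δ x' a σ ℬ hδ hδ₀ hRd hMx
    (fun q hq h2 _ => hσ q hq fun h3 => by
      have h4 := hn q hq h3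
      omega) hℬ
    (fun q hq h2 h3 h4 => by
      obtain ⟨h5, h6⟩ := horb q hq h2 h3 h4
      have : FiniteDimensional (AA ξ)
          (IntermediateField.adjoin (AA ξ) ({(x ^ s) ^ q, z ^ q} : Set Ω)) := by
        apply IntermediateField.finiteDimensional_adjoin
        intro y hy
        simp only [Set.mem_insert_iff, Set.mem_singleton_iff] at hy
        rcases hy with rfl | rfl
        · exact hxA.pow q
        · exact hzA.pow q
      have h7 := fdc_orb (x ^ s) z (IntermediateField.adjoin (AA ξ) ({(x ^ s) ^ q, z ^ q} : Set Ω))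
        hxA hzA h5 h6
      rw [fdc_degA hD', nd_FF] at h7
      rw [orb_map f, map_pow, map_pow, hfx, hfa]
      exact h7) hd'd
    (by
      rintro rfl
      rw [map_zero] at hfa
      exact hz0 hfa.symm)
    (fun k hk j h2 => by
      have h3 := congrArg f h2
      rw [map_pow, map_zpow₀, map_natCast, hfa] at h3
      obtain ⟨k', hk', j', h4⟩ := hrel k hk j h3
      exact hα k' hk' j' h4)
  have h2 : absLogHeight₁ a = absLogHeight₁ z := by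
    rw [← fdc_height E Ω (f : E →+* Ω) a]
    exact congrArg absLogHeight₁ hfa
  rw [h2] at h1
  have h3 := fdc_num Z e _ _ u (absLogHeight₁ α) (absLogHeight₁ z) (Real.log b) hZ1 hlb hZb hdeg hd'd
    (fdc_nn α) hhz hcon
  linarith

end Pool.Agent.H36.LH
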