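import Pool.Agent.H36.LH.FdC
import Pool.Agent.H36.LG.FeB

/-!
# THEOREM L, version 4 (MP_187c26_nt): exponent `1 + ε`, in any field `Ω` of characteristic 0

MODEL: `thmL_all` in `Pool/Agent/H36/LG/FeB.lean` (the reduction to the algebraic closure of `ℚ`: copy, with `ex_hom` in the place of `idxZ_hom`). Imports may be sorried (`thmL_eps0`, `ex_hom`).
The exponent: `e := ⌈33/ε⌉ + 1`, `Z := max Z₀ ⌈d^(1/e)⌉`, `d ≤ Z^e`, `Z ≤ (Z₀ + 2) d^(1/e)`, `Z^33 ≤ (Z₀ + 2)^33 d^(33/e) ≤ (Z₀ + 2)^33 d^ε`, `c := (Z₀ + 2)^(-33)`, `1 < Z^33 (d_α h) ≤ Z^33 d h` (`d_α ≤ d` the degree).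
-/

set_option autoImplicit false

open NumberField IntermediateField

namespace Pool.Agent.H36.LH

open Pool.Agent.H36.LE Pool.Agent.H36.LF Pool.Agent.H36.LG Pool.Agent.H72.BE

/-- a number field which contains the three elements, with an embedding in the algebraic closure of `ℚ` -/
private theorem ex_E {Ω : Type} [Field Ω] [CharZero Ω] (ξ x α : Ω) (hξ : IsIntegral ℚ ξ)
    (hx : IsIntegral ℚ x) (hα : IsIntegral ℚ α) :
    ∃ (E : Type) (_ : Field E) (_ : NumberField E) (ψ : E →+* Ω) (_ : E →+* AlgebraicClosure ℚ)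
      (ξ' x' α' : E), ψ ξ' = ξ ∧ ψ x' = x ∧ ψ α' = α := by
  have hfin : Finite ({ξ, x, α} : Set Ω) := (Set.toFinite _).to_subtype
  have hfd : FiniteDimensional ℚ (IntermediateField.adjoin ℚ ({ξ, x, α} : Set Ω)) := by
    refine IntermediateField.finiteDimensional_adjoin (S := ({ξ, x, α} : Set Ω)) ?_
    rintro y (rfl | rfl | rfl)
    · exact hξ
    · exact hx
    · exact hα
  have hnf : NumberField (IntermediateField.adjoin ℚ ({ξ, x, α} : Set Ω)) := {}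
  let φ : IntermediateField.adjoin ℚ ({ξ, x, α} : Set Ω) →ₐ[ℚ] AlgebraicClosure ℚ := IsAlgClosed.lift
  refine ⟨IntermediateField.adjoin ℚ ({ξ, x, α} : Set Ω), inferInstance, hnf,
    (IntermediateField.adjoin ℚ ({ξ, x, α} : Set Ω)).val.toRingHom, φ.toRingHom,
    ⟨ξ, IntermediateField.subset_adjoin ℚ _ (by simp)⟩, ⟨x, IntermediateField.subset_adjoin ℚ _ (by simp)⟩,
    ⟨α, IntermediateField.subset_adjoin ℚ _ (by simp)⟩, rfl, rfl, rfl⟩

private theorem deg_ring {Ω Ω' : Type} [Field Ω] [CharZero Ω] [Field Ω'] [CharZero Ω'] (σ : Ω →+* Ω')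
    (ξ x α : Ω) : (minpoly (FF (σ ξ) ![σ x]) (σ α)).natDegree = (minpoly (FF ξ ![x]) α).natDegree := by
  have h := degree_map σ.toRatAlgHom ξ ![x] α
  have h2 : (fun i => σ.toRatAlgHom ((![x] : Fin 1 → Ω) i)) = ![σ x] := by
    funext i
    rw [Subsingleton.elim i 0]
    rfl
  rw [h2] at h
  exact h

private theorem minpoly_ring {Ω Ω' : Type} [Field Ω] [CharZero Ω] [Field Ω'] [CharZero Ω'] (σ : Ω →+* Ω')
    (x : Ω) : minpoly ℚ (σ x) = minpoly ℚ x :=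
  minpoly.algHom_eq σ.toRatAlgHom σ.injective x

private theorem FF_pair {Ω : Type} [Field Ω] [CharZero Ω] (ξ x : Ω) :
    FF ξ ![x] = IntermediateField.adjoin ℚ ({ξ, x} : Set Ω) := by
  unfold FF
  congr 1
  rw [Set.insert_eq]
  congr 1
  ext y
  rw [Set.mem_range, Set.mem_singleton_iff]
  constructor
  · rintro ⟨i, rfl⟩
    rw [Subsingleton.elim i 0]
    rfl
  · rintro rfl
    exact ⟨0, rfl⟩

private theorem deg_congr {Ω : Type} [Field Ω] [CharZero Ω] (α : Ω) (K K' : IntermediateField ℚ Ω)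
    (h : K = K') : (minpoly K α).natDegree = (minpoly K' α).natDegree := by
  subst h
  rfl

theorem thmL_eps (b : ℕ) (hb : 2 ≤ b) (δ₀ : ℕ) (ε : ℝ) (hε : 0 < ε) : ∃ c : ℝ, 0 < c ∧
    ∀ (Ω : Type) [Field Ω] [CharZero Ω] (m n δ d : ℕ) (ξ x α : Ω), 1 ≤ m → 1 ≤ n →
      n.Coprime (m * b) → (∀ p : ℕ, p.Prime → p ∣ n → p ≤ δ₀) → ξ ^ n = 1 → x ^ m = (b : Ω) →
      Module.finrank ℚ ℚ⟮x⟯ = m → 1 ≤ δ → δ ≤ δ₀ → Ex x δ → IsIntegral ℚ α →
      (minpoly (IntermediateField.adjoin ℚ ({ξ, x} : Set Ω)) α).natDegree ≤ d → α ≠ 0 →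
      (∀ k : ℕ, 1 ≤ k → ∀ j : ℤ, α ^ k ≠ (b : Ω) ^ j) →
      c ≤ (d : ℝ) ^ (1 + ε) * absLogHeight₁ α := by
  obtain ⟨e, he⟩ : ∃ e : ℕ, e = ⌈33 / ε⌉₊ + 1 := ⟨_, rfl⟩
  obtain ⟨Z₀, H⟩ := thmL_eps0 b hb δ₀ e
  refine ⟨(((Z₀ : ℝ) + 2) ^ 33)⁻¹, by positivity, ?_⟩
  intro Ω _ _ m n δ d ξ x α hm hn hcop hpn hξ hx hdeg hδ hδ₀ hEx hα hd hα0 hk
  have hξi : IsIntegral ℚ ξ := by
    refine IsIntegral.of_pow (Nat.pos_of_ne_zero (by omega) : 0 < n) ?_
    rw [hξ]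
    exact isIntegral_one
  have hxi : IsIntegral ℚ x := by
    refine IsIntegral.of_pow (Nat.pos_of_ne_zero (by omega) : 0 < m) ?_
    rw [hx]
    have h1 : ((b : ℕ) : Ω) = algebraMap ℚ Ω (b : ℚ) := by simp
    rw [h1]
    exact isIntegral_algebraMap
  obtain ⟨E, _, _, ψ, φ, ξ', x', α', hξ', hx', hα'⟩ := ex_E ξ x α hξi hxi hα
  have hAlg : @Algebra.IsAlgebraic ℚ (AlgebraicClosure ℚ) _ _ DivisionRing.toRatAlgebra := by
    have h1 := AlgebraicClosure.isAlgebraic ℚ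
    rwa [Subsingleton.elim (DivisionRing.toRatAlgebra : Algebra ℚ (AlgebraicClosure ℚ))
      (AlgebraicClosure.instAlgebra ℚ)]
  have hord : orderOf ξ ∣ n := orderOf_dvd_of_pow_eq_one hξ
  have hord0 : 1 ≤ orderOf ξ := Nat.pos_of_dvd_of_pos hord hn
  have hprim : IsPrimitiveRoot ξ' (orderOf ξ) := by
    have h1 : IsPrimitiveRoot ξ (orderOf ξ) := IsPrimitiveRoot.orderOf ξ
    rw [← hξ'] at h1 ⊢
    exact IsPrimitiveRoot.of_map_of_injective h1 ψ.injective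
  have hxE : x' ^ m = (b : E) := by
    apply ψ.injective
    rw [map_pow, hx', hx, map_natCast]
  have hD : DatG b m (orderOf ξ) (φ ξ') (φ x') := by
    refine ⟨hb, hm, hord0, Nat.Coprime.coprime_dvd_left hord hcop,
      hprim.map_of_injective φ.injective, ?_, ?_⟩
    · rw [← map_pow, hxE, map_natCast]
    · have h1 : IsIntegral ℚ (φ x') := by
        have h2 : IsIntegral ℚ x' := Algebra.IsIntegral.isIntegral x'
        exact h2.map φ.toRatAlgHom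
      rw [adjoin.finrank h1, minpoly_ring φ x', ← minpoly_ring ψ x', hx', ← adjoin.finrank hxi]
      exact hdeg
  have hEx' : Ex (φ x') δ := by
    rw [ex_hom φ x', ← ex_hom ψ x', hx']
    exact hEx
  have hdα : (minpoly (FF (φ ξ') ![φ x']) (φ α')).natDegree =
      (minpoly (IntermediateField.adjoin ℚ ({ξ, x} : Set Ω)) α).natDegree := by
    rw [deg_ring φ, ← deg_ring ψ, hξ', hx', hα', deg_congr α _ _ (FF_pair ξ x)]
  have hα'0 : α' ≠ 0 := by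
    rintro rfl
    rw [map_zero] at hα'
    exact hα0 hα'.symm
  have hh : absLogHeight₁ (φ α') = absLogHeight₁ α := by
    have h1 := Pool.Agent.H4.RR.absLogHeight_eq E (AlgebraicClosure ℚ) φ α'
    have h2 := Pool.Agent.H4.RR.absLogHeight_eq E Ω ψ α'
    rw [hα'] at h2
    rw [h1, h2]
  have hd1 : 1 ≤ d := by
    have hi : IsIntegral (IntermediateField.adjoin ℚ ({ξ, x} : Set Ω)) α := hα.tower_top
    exact (minpoly.natDegree_pos hi).trans_le hd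
  have hdR : (1 : ℝ) ≤ d := by exact_mod_cast hd1
  have hd0 : (0 : ℝ) < d := by linarith
  have he0 : (0 : ℝ) < e := by rw [he]; positivity
  have he1 : 33 / (e : ℝ) ≤ ε := by
    rw [div_le_iff₀ he0, mul_comm, ← div_le_iff₀ hε]
    have h1 := Nat.le_ceil (33 / ε)
    rw [he]
    push_cast
    linarith
  obtain ⟨y, hy⟩ : ∃ y : ℝ, y = (d : ℝ) ^ (1 / (e : ℝ)) := ⟨_, rfl⟩
  have hy1 : 1 ≤ y := by
    rw [hy]
    exact Real.one_le_rpow hdR (by positivity)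
  have hye : y ^ e = d := by
    rw [hy, ← Real.rpow_natCast, ← Real.rpow_mul hd0.le, one_div, inv_mul_cancel₀ he0.ne',
      Real.rpow_one]
  have hy33 : y ^ 33 ≤ (d : ℝ) ^ ε := by
    rw [hy, ← Real.rpow_natCast, ← Real.rpow_mul hd0.le]
    refine Real.rpow_le_rpow_of_exponent_le hdR ?_
    have h1 : 1 / (e : ℝ) * ((33 : ℕ) : ℝ) = 33 / (e : ℝ) := by
      push_cast
      ring
    rw [h1]
    exact he1
  obtain ⟨Z, hZ⟩ : ∃ Z : ℕ, Z = max Z₀ ⌈y⌉₊ := ⟨_, rfl⟩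
  have hyZ : y ≤ Z := by
    rw [hZ]
    exact (Nat.le_ceil y).trans (by exact_mod_cast le_max_right Z₀ ⌈y⌉₊)
  have hdZ : d ≤ Z ^ e := by
    have h1 : (d : ℝ) ≤ (Z : ℝ) ^ e := by
      rw [← hye]
      exact pow_le_pow_left₀ (by linarith) hyZ e
    exact_mod_cast h1
  have hZy : (Z : ℝ) ≤ ((Z₀ : ℝ) + 2) * y := by
    rw [hZ, Nat.cast_max]
    have h0 : (0 : ℝ) ≤ Z₀ := Nat.cast_nonneg _
    refine max_le ?_ ?_
    · nlinarith
    · have h1 := Nat.ceil_lt_add_one (by linarith : 0 ≤ y)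
      nlinarith
  have key := H Z (by rw [hZ]; exact le_max_left _ _) (AlgebraicClosure ℚ) m (orderOf ξ) δ (φ ξ')
    (φ x') (φ α') hD hδ hδ₀ hEx' (fun p hp hpd => hpn p hp (hpd.trans hord))
    (by rw [hdα]; exact hd.trans hdZ) ((map_ne_zero φ).2 hα'0) (by
      intro k hk1 j h
      apply hk k hk1 j
      have h1 : α' ^ k = (b : E) ^ j := by
        apply φ.injective
        rw [map_pow, h, map_zpow₀, map_natCast]
      have h2 := congrArg ψ h1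
      rw [map_pow, hα', map_zpow₀, map_natCast] at h2
      exact h2)
  rw [hh, hdα] at key
  have hh0 : 0 ≤ absLogHeight₁ α := Pool.Agent.H72.PB.ht_nonneg α
  have hdd : ((minpoly (IntermediateField.adjoin ℚ ({ξ, x} : Set Ω)) α).natDegree : ℝ) ≤ d := by
    exact_mod_cast hd
  have hZ33 : (Z : ℝ) ^ 33 ≤ ((Z₀ : ℝ) + 2) ^ 33 * (d : ℝ) ^ ε := by
    calc (Z : ℝ) ^ 33 ≤ (((Z₀ : ℝ) + 2) * y) ^ 33 :=
          pow_le_pow_left₀ (Nat.cast_nonneg _) hZy 33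
      _ = ((Z₀ : ℝ) + 2) ^ 33 * y ^ 33 := mul_pow _ _ _
      _ ≤ ((Z₀ : ℝ) + 2) ^ 33 * (d : ℝ) ^ ε := mul_le_mul_of_nonneg_left hy33 (by positivity)
  have hfin : 1 ≤ ((Z₀ : ℝ) + 2) ^ 33 * ((d : ℝ) ^ (1 + ε) * absLogHeight₁ α) := by
    calc (1 : ℝ) ≤ (Z : ℝ) ^ 33 *
          ((minpoly (IntermediateField.adjoin ℚ ({ξ, x} : Set Ω)) α).natDegree *
            absLogHeight₁ α) := key.le
      _ ≤ (((Z₀ : ℝ) + 2) ^ 33 * (d : ℝ) ^ ε) * (d * absLogHeight₁ α) := by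
          refine mul_le_mul hZ33 (mul_le_mul_of_nonneg_right hdd hh0) (by positivity)
            (by positivity)
      _ = ((Z₀ : ℝ) + 2) ^ 33 * ((d : ℝ) ^ (1 + ε) * absLogHeight₁ α) := by
          rw [Real.rpow_add hd0, Real.rpow_one]
          ring
  have hpos : (0 : ℝ) < ((Z₀ : ℝ) + 2) ^ 33 := by positivity
  rw [inv_le_iff_one_le_mul₀' hpos]
  exact hfin

end Pool.Agent.H36.LH
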