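import Pool.Agent.H36.LH.Df

/-!
# THEOREM L, version 4 (MP_187c26_nt): Gauss lemma at a prime number

`PI p y`: `s y` is integral for some natural `s` prime to `p`.
PROOFS. `pi_add`, ..: common denominators. `gauss_p`: `𝓞_p := {y ∈ F : PI p y}` is a subring of `F` with fraction field `F`, integrally closed (a localisation of `𝓞 F` at the multiplicative set of integers prime to `p`: Dedekind domain with finitely many maximal ideals, hence a principal ideal domain:
`Localization (Submonoid)`/`IsLocalization.isDedekindDomain`, `IsPrincipalIdealRing.of_finite_primes`; see `loc_free` in `Pool/Agent/H36/LE/NmE.lean` or `NmF.lean`, where exactly this localisation is used). Over the principal ideal domain `R = 𝓞_p`: the fractional ideal generated by the coefficients of `f` is `γ⁻¹ R`: `γ f ∈ R[X]` is primitive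
(its coefficients generate the unit ideal), so is `(γ f)^j` (`Polynomial.IsPrimitive.mul`, Gauss). If `g := f^j h ∈ R[X]` then `(γ f)^j (γ^(-j) h) = g`, and a primitive polynomial of `R[X]` dividing `g` over the fraction field divides it over `R` with the same quotient (`IsPrimitive.dvd_of_fraction_map_dvd_fraction_map` after removing the content of `g`, or directly:
write `γ^(-j) h = w h'` with `h' ∈ R[X]` primitive, `w ∈ F`; `(γ f)^j h'` is primitive and `w (γ f)^j h' ∈ R[X]` gives `w ∈ R`: the coefficients of a primitive polynomial generate `R`).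
ALTERNATIVE without principal ideals: for each of the finitely many primes `𝔭` over `p` the Gauss norm `|f|_𝔭 = max |f_i|_𝔭` is multiplicative (Gauss lemma for a valuation), choose `γ ∈ F` with `|γ|_𝔭 = |f|_𝔭^(-1)` for all `𝔭 | p` (weak approximation/Chinese remainder theorem), and `PI p y` iff `|y|_𝔭 ≤ 1` for all `𝔭 | p`.
-/

set_option autoImplicit false

open Polynomial NumberField

namespace Pool.Agent.H36.LH

private theorem int_nat {K : Type} [Field K] (s : ℕ) : IsIntegral ℤ (s : K) := by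
  have h := isIntegral_algebraMap (R := ℤ) (A := K) (x := (s : ℤ))
  simpa using h

private theorem gp_abs {A F : Type} [CommRing A] [IsDomain A] [IsPrincipalIdealRing A] [Field F]
    [Algebra A F] [IsFractionRing A F] (f : F[X]) (hf : f ≠ 0) :
    ∃ γ : F, γ ≠ 0 ∧ (∀ i, ∃ a : A, algebraMap A F a = γ * f.coeff i) ∧
      ∀ (j : ℕ) (h : F[X]), (∀ i, ∃ a : A, algebraMap A F a = (f ^ j * h).coeff i) →
        ∀ i, ∃ a : A, algebraMap A F a = (γ ^ j)⁻¹ * h.coeff i := by
  classical
  let : NormalizedGCDMonoid A := Classical.arbitrary _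
  obtain ⟨b, hb, hbf⟩ := IsLocalization.integerNormalization_spec (nonZeroDivisors A) f
  obtain ⟨g, hg⟩ : ∃ g : A[X], g = IsLocalization.integerNormalization (nonZeroDivisors A) f :=
    ⟨_, rfl⟩
  rw [← hg] at hbf
  have hb0 : algebraMap A F b ≠ 0 :=
    IsFractionRing.to_map_ne_zero_of_mem_nonZeroDivisors hb
  have hbf' : g.map (algebraMap A F) = C (algebraMap A F b) * f := by
    rw [hbf, Algebra.smul_def]
    rfl
  have hg0 : g ≠ 0 := by
    intro h0
    rw [h0, Polynomial.map_zero] at hbf'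
    rcases mul_eq_zero.1 hbf'.symm with h1 | h1
    · exact hb0 (C_eq_zero.1 h1)
    · exact hf h1
  have hc0 : algebraMap A F g.content ≠ 0 := by
    rw [Ne, map_eq_zero_iff _ (IsFractionRing.injective A F), content_eq_zero_iff]
    exact hg0
  obtain ⟨P, hP⟩ : ∃ P : A[X], P = g.primPart := ⟨_, rfl⟩
  have hPp : P.IsPrimitive := by
    rw [hP]
    exact isPrimitive_primPart g
  have hPf : P.map (algebraMap A F) =
      C (algebraMap A F b / algebraMap A F g.content) * f := by
    have h1 : C (algebraMap A F g.content) * P.map (algebraMap A F) =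
        C (algebraMap A F b) * f := by
      rw [← hbf', ← Polynomial.map_C, ← Polynomial.map_mul, hP, ← eq_C_content_mul_primPart]
    have h2 : C (algebraMap A F g.content)⁻¹ * (C (algebraMap A F g.content) *
        P.map (algebraMap A F)) = P.map (algebraMap A F) := by
      rw [← mul_assoc, ← C_mul, inv_mul_cancel₀ hc0, C_1, one_mul]
    rw [← h2, h1, ← mul_assoc, ← C_mul, div_eq_inv_mul]
  refine ⟨algebraMap A F b / algebraMap A F g.content, div_ne_zero hb0 hc0, ?_, ?_⟩
  · intro i
    refine ⟨P.coeff i, ?_⟩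
    rw [← coeff_map, hPf, coeff_C_mul]
  · obtain ⟨γ, hγ⟩ : ∃ γ : F, γ = algebraMap A F b / algebraMap A F g.content := ⟨_, rfl⟩
    rw [← hγ] at hPf ⊢
    have hγ0 : γ ≠ 0 := by
      rw [hγ]
      exact div_ne_zero hb0 hc0
    intro j h hh
    have hPk : ∀ k : ℕ, (P ^ k).IsPrimitive := by
      intro k
      induction k with
      | zero =>
        rw [pow_zero]
        exact isPrimitive_one
      | succ k ih =>
        rw [pow_succ]
        exact ih.mul hPp
    have hPj := hPk j
    obtain ⟨q, hq⟩ : ∃ q : A[X], q.map (algebraMap A F) = f ^ j * h := by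
      have h1 : f ^ j * h ∈ Polynomial.lifts (algebraMap A F) :=
        (Polynomial.lifts_iff_coeff_lifts _).2 fun i => hh i
      exact (Polynomial.mem_lifts _).1 h1
    have h2 : C (γ ^ j)⁻¹ * h * (P ^ j).map (algebraMap A F) = q.map (algebraMap A F) := by
      rw [hq, Polynomial.map_pow, hPf, mul_pow, ← C_pow]
      have h3 : C (γ ^ j)⁻¹ * h * (C (γ ^ j) * f ^ j) =
          (C (γ ^ j)⁻¹ * C (γ ^ j)) * (f ^ j * h) := by ring
      rw [h3, ← C_mul, inv_mul_cancel₀ (pow_ne_zero _ hγ0), C_1, one_mul]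
    have h4 : C (γ ^ j)⁻¹ * h ∈ Polynomial.lifts (algebraMap A F) :=
      hPj.mul_map_mem_lifts_iff.1 ((Polynomial.mem_lifts _).2 ⟨q, h2.symm⟩)
    intro i
    have h5 := (Polynomial.lifts_iff_coeff_lifts _).1 h4 i
    rw [coeff_C_mul] at h5
    exact h5

private theorem gp_iff {F : Type} [Field F] [NumberField F] (p : ℕ)
    (P : Ideal ℤ) (hP : P = Ideal.span {(p : ℤ)}) [P.IsPrime] {A : Type} [CommRing A]
    [Algebra (𝓞 F) A] [Algebra A F] [IsScalarTower (𝓞 F) A F]
    [IsLocalization (Algebra.algebraMapSubmonoid (𝓞 F) P.primeCompl) A] (y : F) :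
    PI p y ↔ ∃ a : A, algebraMap A F a = y := by
  constructor
  · rintro ⟨s, hs, hy⟩
    have hsm : algebraMap ℤ (𝓞 F) (s : ℤ) ∈
        Algebra.algebraMapSubmonoid (𝓞 F) P.primeCompl := by
      refine ⟨(s : ℤ), fun h => hs ?_, rfl⟩
      rw [hP] at h
      exact_mod_cast Ideal.mem_span_singleton.1 h
    obtain ⟨x, hx⟩ : ∃ x : 𝓞 F, (x : F) = (s : F) * y := ⟨⟨_, hy⟩, rfl⟩
    refine ⟨IsLocalization.mk' A x ⟨_, hsm⟩, ?_⟩
    have h1 := IsLocalization.mk'_spec A x
      (⟨_, hsm⟩ : Algebra.algebraMapSubmonoid (𝓞 F) P.primeCompl)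
    have h2 := congrArg (algebraMap A F) h1
    rw [map_mul, ← IsScalarTower.algebraMap_apply (𝓞 F) A F,
      ← IsScalarTower.algebraMap_apply (𝓞 F) A F] at h2
    have hs0 : (s : F) ≠ 0 := by
      have : s ≠ 0 := by
        rintro rfl
        exact hs (dvd_zero _)
      exact_mod_cast this
    have h3 : algebraMap (𝓞 F) F (algebraMap ℤ (𝓞 F) (s : ℤ)) = (s : F) := by simp
    have h4 : algebraMap (𝓞 F) F x = (s : F) * y := hx
    rw [h4] at h2
    have h5 : algebraMap A F (IsLocalization.mk' A x ⟨_, hsm⟩) * (s : F) = (s : F) * y := by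
      rw [← h3]
      rw [← h3] at h2
      exact h2
    rw [mul_comm] at h5
    exact mul_left_cancel₀ hs0 h5
  · rintro ⟨a, ha⟩
    obtain ⟨⟨x, ⟨_, n, hn, rfl⟩⟩, hx⟩ := IsLocalization.surj
      (Algebra.algebraMapSubmonoid (𝓞 F) P.primeCompl) a
    have h2 := congrArg (algebraMap A F) hx
    rw [map_mul, ← IsScalarTower.algebraMap_apply (𝓞 F) A F,
      ← IsScalarTower.algebraMap_apply (𝓞 F) A F, ha] at h2
    have h3 : algebraMap (𝓞 F) F (algebraMap ℤ (𝓞 F) n) = (n : F) := by simp
    simp only at h2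
    rw [h3] at h2
    have hint : IsIntegral ℤ ((n : F) * y) := by
      rw [mul_comm, h2]
      exact x.2
    refine ⟨n.natAbs, ?_, ?_⟩
    · intro h
      refine hn ?_
      rw [hP]
      exact Ideal.mem_span_singleton.2 (Int.natCast_dvd.2 h)
    · rcases Int.natAbs_eq n with h | h
      · have h6 : ((n.natAbs : ℕ) : F) = (n : F) := by
          conv_rhs => rw [h]
          simp
        rw [h6]
        exact hint
      · have h6 : ((n.natAbs : ℕ) : F) = -(n : F) := by
          conv_rhs => rw [h]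
          simp
        rw [h6, neg_mul]
        exact hint.neg

theorem pi_int {K : Type} [Field K] {p : ℕ} (hp : p.Prime) {y : K} (hy : IsIntegral ℤ y) :
    PI p y := by
  refine ⟨1, hp.one_lt.ne' ∘ Nat.dvd_one.1, ?_⟩
  rw [Nat.cast_one, one_mul]
  exact hy

theorem pi_add {K : Type} [Field K] {p : ℕ} (hp : p.Prime) {y z : K} (hy : PI p y)
    (hz : PI p z) : PI p (y + z) := by
  obtain ⟨s, hs, hy⟩ := hy
  obtain ⟨t, ht, hz⟩ := hz
  refine ⟨s * t, fun h => ?_, ?_⟩
  · rcases hp.dvd_mul.1 h with h | h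
    · exact hs h
    · exact ht h
  · have h1 : ((s * t : ℕ) : K) * (y + z) = (t : K) * ((s : K) * y) + (s : K) * ((t : K) * z) := by
      push_cast
      ring
    rw [h1]
    exact ((int_nat t).mul hy).add ((int_nat s).mul hz)

theorem pi_mul {K : Type} [Field K] {p : ℕ} (hp : p.Prime) {y z : K} (hy : PI p y)
    (hz : PI p z) : PI p (y * z) := by
  obtain ⟨s, hs, hy⟩ := hy
  obtain ⟨t, ht, hz⟩ := hz
  refine ⟨s * t, fun h => ?_, ?_⟩
  · rcases hp.dvd_mul.1 h with h | h
    · exact hs h
    · exact ht h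
  · have h1 : ((s * t : ℕ) : K) * (y * z) = ((s : K) * y) * ((t : K) * z) := by
      push_cast
      ring
    rw [h1]
    exact hy.mul hz

theorem gauss_p {F : Type} [Field F] [NumberField F] (p : ℕ) (hp : p.Prime) (f : F[X])
    (hf : f.Monic) : ∃ γ : F, γ ≠ 0 ∧ (∀ i, PI p (γ * f.coeff i)) ∧
      ∀ (j : ℕ) (h : F[X]), (∀ i, PI p ((f ^ j * h).coeff i)) →
        ∀ i, PI p ((γ ^ j)⁻¹ * h.coeff i) := by
  classical
  obtain ⟨P, hP⟩ : ∃ P : Ideal ℤ, P = Ideal.span {(p : ℤ)} := ⟨_, rfl⟩
  have hℓ0 : (p : ℤ) ≠ 0 := by exact_mod_cast hp.ne_zero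
  have hPp : P.IsPrime := by
    rw [hP]
    exact (Ideal.span_singleton_prime hℓ0).2 (Nat.prime_iff_prime_int.1 hp)
  have hP0 : P ≠ ⊥ := by
    rw [hP, Ne, Ideal.span_singleton_eq_bot]
    exact hℓ0
  have hS : Algebra.algebraMapSubmonoid (𝓞 F) P.primeCompl ≤ nonZeroDivisors (𝓞 F) :=
    map_le_nonZeroDivisors_of_injective _ (FaithfulSMul.algebraMap_injective ℤ (𝓞 F))
      P.primeCompl_le_nonZeroDivisors
  have hded : IsDedekindDomain (Localization.subalgebra.ofField F _ hS) :=
    IsLocalization.isDedekindDomain (𝓞 F) hS _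
  have hpid : IsPrincipalIdealRing (Localization.subalgebra.ofField F _ hS) :=
    IsDedekindDomain.isPrincipalIdealRing_localization_over_prime (𝓞 F) P hP0
  have key := fun y : F => gp_iff p P hP (A := Localization.subalgebra.ofField F _ hS) y
  obtain ⟨γ, h0, h1, h2⟩ := gp_abs (A := Localization.subalgebra.ofField F _ hS) f hf.ne_zero
  refine ⟨γ, h0, fun i => (key _).2 (h1 i), fun j h hh i => (key _).2 (h2 j h ?_ i)⟩
  intro i
  exact (key _).1 (hh i)

end Pool.Agent.H36.LH
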