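import Pool.Agent.H36.LH.Df

/-!
# THEOREM L, version 4 (MP_187c26_nt): jets and power series

All is algebra over fields of characteristic 0. Let `ψ : A[X][Y] → (E⟦ε⟧)[η]` be the ring homomorphism `c ↦ c` (`c ∈ A`), `X ↦ x exp(ε/m)`, `Y ↦ a + η` (`Polynomial.mapRingHom` of `eval₂RingHom (algebraMap A E⟦ε⟧) (x · rescale (1/m) exp)`, then the Taylor shift `Polynomial.taylor (C a)`). `X^j ↦ x^j exp(j ε/m)` (`PowerSeries.exp_pow_eq_rescale_exp`), so the coefficient of
`ε^i η^k` of `ψ (pg n L g c)` is `∑_p c_p ((g p₁/m)^i / i!) x^(g p₁) binom(g p₂, k) a^(g p₂ - k)`: `i! a^k [ε^i η^k] ψ(pg c) = bu id .. (wj m g i k) c` (`hasseDeriv`, `Polynomial.taylor_coeff`).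
`Od s V`: the coefficients of `ε^i η^k`, `i + k < s`, of `V` vanish. `Od s U`, `Od t V` give `Od (s + t) (U V)`, `Od (j s) (U^j)`; `Od s` is closed under sums and multiplication by anything. `ψ(F)` has the constant coefficient `F(x, a)`. `ψ(tb) = x^m exp(ε) - b = b (exp ε - 1) = ε U`, `U(0) = b`: `Od 1`, and `ψ(tb)^i = ε^i U^i`.
`jet_R`: apply `ψ` to the identity and take the coefficient of `ε^i η^k`, `k < T - i`: the terms `j < i` on the right are `Od T` and `i + k < T`: 0; the last term: `[ε^i η^k] ε^i U^i ψ(R) = b^i [ε^0 η^k] ψ(R) = b^i (hasseDeriv k R(x, .))(a)`; on the left `δ^N [ε^i η^k] ψ(pg c)`. Multiply by `i! a^k`.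
(The conditions `h0` are not even needed because the multiplier `δ^N` is a constant.)
`jet_pow`: `G_g := G(X^g, Y^g)`, `pg c = (G_g)^T U_g`, `G_g(x, a) = 0`: `Od T (ψ (pg c))`.
-/

set_option autoImplicit false

open Polynomial NumberField IntermediateField
open scoped Polynomial.Bivariate

namespace Pool.Agent.H36.LH

open Pool.Agent.H36.LE Pool.Agent.H36.LF

variable {A E : Type} [Field A] [NumberField A] [Field E] [NumberField E] [Algebra A E]

/-- `exp (ε / m)` -/
private noncomputable def js_e (E : Type) [Field E] [NumberField E] (m : ℕ) : PowerSeries E :=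
  PowerSeries.rescale ((m : E)⁻¹) (PowerSeries.exp E)

private theorem js_coeff (m e i : ℕ) :
    PowerSeries.coeff i (js_e E m ^ e) = ((e : E) / m) ^ i / (i.factorial : E) := by
  rw [js_e, ← map_pow, PowerSeries.exp_pow_eq_rescale_exp, PowerSeries.coeff_rescale,
    PowerSeries.coeff_rescale, PowerSeries.coeff_exp, map_div₀, map_one, map_natCast, div_pow, inv_pow]
  ring

private theorem js_zero (m : ℕ) : PowerSeries.constantCoeff (js_e E m) = 1 := by
  have h := js_coeff (E := E) m 1 0
  rw [pow_one, PowerSeries.coeff_zero_eq_constantCoeff_apply, pow_zero, Nat.factorial_zero, Nat.cast_one,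
    div_one] at h
  exact h

private theorem js_pow (m : ℕ) (hm : 1 ≤ m) : js_e E m ^ m = PowerSeries.exp E := by
  have hm0 : (m : E) ≠ 0 := by exact_mod_cast (by omega : m ≠ 0)
  ext i
  rw [js_coeff, PowerSeries.coeff_exp, map_div₀, map_one, map_natCast, div_self hm0, one_pow]

variable (A) in
/-- `c ↦ c`, `X ↦ x exp (ε / m)` -/
private noncomputable def js_phi (x : E) (m : ℕ) : A[X] →+* PowerSeries E :=
  eval₂RingHom ((PowerSeries.C : E →+* PowerSeries E).comp (algebraMap A E))
    (PowerSeries.C x * js_e E m)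

private theorem js_phi_const (x : E) (m : ℕ) :
    (PowerSeries.constantCoeff : PowerSeries E →+* E).comp (js_phi A x m) =
      ((aeval x : A[X] →ₐ[A] E) : A[X] →+* E) := by
  refine Polynomial.ringHom_ext (fun c => ?_) ?_
  · rw [RingHom.comp_apply, js_phi, coe_eval₂RingHom, eval₂_C, RingHom.comp_apply,
      PowerSeries.constantCoeff_C, RingHom.coe_coe, aeval_C]
  · rw [RingHom.comp_apply, js_phi, coe_eval₂RingHom, eval₂_X, map_mul, PowerSeries.constantCoeff_C,
      js_zero, mul_one, RingHom.coe_coe, aeval_X]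

variable (A) in
/-- `c ↦ c`, `X ↦ x exp (ε / m)`, `Y ↦ a + η` -/
private noncomputable def js_psi (x a : E) (m : ℕ) : A[X][Y] →+* Polynomial (PowerSeries E) :=
  ((taylorAlgHom (PowerSeries.C a) : Polynomial (PowerSeries E) →ₐ[PowerSeries E] Polynomial (PowerSeries E)) :
    Polynomial (PowerSeries E) →+* Polynomial (PowerSeries E)).comp (mapRingHom (js_phi A x m))

private theorem js_psi_apply (x a : E) (m : ℕ) (P : A[X][Y]) :
    js_psi A x a m P = taylor (PowerSeries.C a) (P.map (js_phi A x m)) := rfl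

private theorem js_hasse {R S : Type} [CommSemiring R] [CommSemiring S] (f : R →+* S) (k : ℕ) (P : R[X]) :
    (hasseDeriv k P).map f = hasseDeriv k (P.map f) := by
  ext n
  rw [coeff_map, hasseDeriv_coeff, hasseDeriv_coeff, coeff_map, map_mul, map_natCast]

private theorem js_const (x a : E) (m : ℕ) (P : A[X][Y]) (k : ℕ) :
    PowerSeries.coeff 0 ((js_psi A x a m P).coeff k) =
      (hasseDeriv k (P.map ((aeval x : A[X] →ₐ[A] E) : A[X] →+* E))).eval a := by
  rw [js_psi_apply, taylor_coeff, PowerSeries.coeff_zero_eq_constantCoeff_apply]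
  have h1 := eval₂_hom (p := hasseDeriv k (P.map (js_phi A x m)))
    (PowerSeries.constantCoeff : PowerSeries E →+* E) (PowerSeries.C a)
  rw [← h1, PowerSeries.constantCoeff_C, ← eval_map, js_hasse, Polynomial.map_map, js_phi_const]

/-- the coefficients of `ε^i η^k`, `i + k < s`, vanish -/
private def Od (s : ℕ) (V : Polynomial (PowerSeries E)) : Prop :=
  ∀ i k : ℕ, i + k < s → PowerSeries.coeff i (V.coeff k) = 0

private theorem od_mul {s t : ℕ} {U V : Polynomial (PowerSeries E)} (hU : Od s U) (hV : Od t V) :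
    Od (s + t) (U * V) := by
  intro i k hik
  rw [coeff_mul, map_sum]
  refine Finset.sum_eq_zero fun q hq => ?_
  rw [PowerSeries.coeff_mul]
  refine Finset.sum_eq_zero fun r hr => ?_
  rw [Finset.HasAntidiagonal.mem_antidiagonal] at hq hr
  rcases Nat.lt_or_ge (r.1 + q.1) s with h | h
  · rw [hU _ _ h, zero_mul]
  · rw [hV r.2 q.2 (by omega), mul_zero]

private theorem od_zero (V : Polynomial (PowerSeries E)) : Od 0 V := fun i k h => absurd h (by omega)

private theorem od_pow {U : Polynomial (PowerSeries E)} (hU : Od 1 U) (j : ℕ) : Od j (U ^ j) := by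
  induction j with
  | zero => exact od_zero _
  | succ j ih =>
    rw [pow_succ]
    exact od_mul ih hU

private theorem od_mul_right {s : ℕ} {U : Polynomial (PowerSeries E)} (hU : Od s U)
    (V : Polynomial (PowerSeries E)) : Od s (U * V) := od_mul hU (od_zero V)

private theorem od_F (x a : E) (m : ℕ) (F : A[X][Y]) (hF : aevalAeval (R := A) x a F = 0) :
    Od 1 (js_psi A x a m F) := by
  intro i k hik
  obtain rfl : i = 0 := by omega
  obtain rfl : k = 0 := by omega
  rw [js_const, hasseDeriv_zero', eval_map]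
  have h1 : aevalAeval (R := A) x a F =
      eval₂ ((aeval x : A[X] →ₐ[A] E) : A[X] →+* E) a F := by
    have h2 : ((aevalAeval (R := A) x a : A[X][Y] →ₐ[A] E) : A[X][Y] →+* E) =
        eval₂RingHom ((aeval x : A[X] →ₐ[A] E) : A[X] →+* E) a := by
      refine Polynomial.ringHom_ext (fun c => ?_) ?_
      · rw [RingHom.coe_coe, aevalAeval_C, coe_eval₂RingHom, eval₂_C]
        rfl
      · rw [RingHom.coe_coe, aevalAeval_Y, coe_eval₂RingHom, eval₂_X]
    have h3 := congrArg (fun f : A[X][Y] →+* E => f F) h2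
    exact h3
  rw [← h1, hF]

private theorem js_tb {b m : ℕ} {x : E} (hm : 1 ≤ m) (hx : x ^ m = (b : E)) (a : E) :
    ∃ U : PowerSeries E, PowerSeries.constantCoeff U = (b : E) ∧
      js_psi A x a m (tb A b m) = C (PowerSeries.X * U) := by
  obtain ⟨U, hU⟩ : (PowerSeries.X : PowerSeries E) ∣ PowerSeries.exp E - 1 := by
    rw [PowerSeries.X_dvd_iff, map_sub, PowerSeries.constantCoeff_exp, map_one, sub_self]
  have hU0 : PowerSeries.constantCoeff U = 1 := by
    have h1 := congrArg (PowerSeries.coeff 1) hU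
    rw [map_sub, PowerSeries.coeff_exp] at h1
    have h2 : PowerSeries.coeff 1 (PowerSeries.X * U) = PowerSeries.coeff 0 U := by
      have h3 := PowerSeries.coeff_X_pow_mul U 1 0
      rwa [pow_one, zero_add] at h3
    rw [h2, PowerSeries.coeff_zero_eq_constantCoeff_apply, PowerSeries.coeff_one, if_neg one_ne_zero,
      Nat.factorial_one, Nat.cast_one, div_one, map_one, sub_zero] at h1
    exact h1.symm
  refine ⟨PowerSeries.C (b : E) * U, ?_, ?_⟩
  · rw [map_mul, hU0, mul_one, PowerSeries.constantCoeff_C]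
  · rw [js_psi_apply, tb, map_C, taylor_C]
    congr 1
    have h1 : js_phi A x m (X ^ m - C (b : A)) = PowerSeries.C (b : E) * (PowerSeries.exp E - 1) := by
      rw [map_sub, map_pow, js_phi, coe_eval₂RingHom, eval₂_X, eval₂_C, mul_pow, js_pow m hm, ← map_pow, hx,
        RingHom.comp_apply, map_natCast (algebraMap A E)]
      ring
    rw [h1, hU]
    ring

private theorem od_tb {b m : ℕ} {x : E} (hm : 1 ≤ m) (hx : x ^ m = (b : E)) (a : E) :
    Od 1 (js_psi A x a m (tb A b m)) := by
  obtain ⟨U, _, hU⟩ := js_tb (A := A) hm hx a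
  intro i k hik
  obtain rfl : i = 0 := by omega
  obtain rfl : k = 0 := by omega
  rw [hU, coeff_C_zero, PowerSeries.coeff_zero_X_mul]

private theorem js_phi_mon (x : E) (m e : ℕ) (c : A) :
    js_phi A x m (monomial e c) = PowerSeries.C (algebraMap A E c * x ^ e) * js_e E m ^ e := by
  rw [js_phi, coe_eval₂RingHom, eval₂_monomial, RingHom.comp_apply, mul_pow, map_mul, map_pow]
  ring

private theorem js_mon (x a : E) (m e l i k : ℕ) (c : A) :
    PowerSeries.coeff i ((js_psi A x a m (monomial l (monomial e c))).coeff k) =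
      algebraMap A E c * x ^ e * (((e : E) / m) ^ i / (i.factorial : E)) * (a ^ (l - k) * (l.choose k : E)) := by
  rw [js_psi_apply, map_monomial, taylor_monomial, coeff_C_mul, coeff_X_add_C_pow, js_phi_mon]
  have h1 : (PowerSeries.C a) ^ (l - k) * ((l.choose k : ℕ) : PowerSeries E) =
      PowerSeries.C (a ^ (l - k) * (l.choose k : E)) := by
    rw [map_mul, map_pow, map_natCast]
  rw [h1, mul_assoc, mul_comm (js_e E m ^ e), ← mul_assoc, ← map_mul, PowerSeries.coeff_C_mul, js_coeff]
  ring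

private theorem js_J (x a : E) (m n L g i k : ℕ) (c : Fin n × Fin L → A) :
    (i.factorial : E) * (a ^ k * PowerSeries.coeff i ((js_psi A x a m (pg n L g c)).coeff k)) =
      bu (RingHom.id A) x a n L g (wj m g i k) c := by
  have hi : (i.factorial : E) ≠ 0 := by exact_mod_cast Nat.factorial_ne_zero i
  rw [pg, map_sum, finsetSum_coeff, map_sum, Finset.mul_sum, Finset.mul_sum, bu_apply]
  refine Finset.sum_congr rfl fun p _ => ?_
  rw [js_mon, RingHom.id_apply, wj]
  push_cast
  have h1 : a ^ k * (a ^ (g * (p.2 : ℕ) - k) * ((g * (p.2 : ℕ)).choose k : E)) =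
      a ^ (g * (p.2 : ℕ)) * ((g * (p.2 : ℕ)).choose k : E) := by
    rcases Nat.lt_or_ge (g * (p.2 : ℕ)) k with h | h
    · rw [Nat.choose_eq_zero_of_lt h, Nat.cast_zero, mul_zero, mul_zero, mul_zero]
    · rw [← mul_assoc, ← pow_add, Nat.add_sub_cancel' h]
  have h2 : (i.factorial : E) * ((((g : E) * ((p.1 : ℕ) : E)) / m) ^ i / (i.factorial : E)) =
      (((g : E) * ((p.1 : ℕ) : E)) / m) ^ i := mul_div_cancel₀ _ hi
  calc _ = algebraMap A E (c p) * x ^ (g * (p.1 : ℕ)) *
        ((i.factorial : E) * ((((g : E) * ((p.1 : ℕ) : E)) / m) ^ i / (i.factorial : E))) *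
        (a ^ k * (a ^ (g * (p.2 : ℕ) - k) * ((g * (p.2 : ℕ)).choose k : E))) := by ring
    _ = _ := by
      rw [h1, h2]
      ring

theorem jet_R {b m : ℕ} {x a : E} (hb : 1 ≤ b) (hm : 1 ≤ m) (hx : x ^ m = (b : E)) (ha : a ≠ 0)
    (n L g T i N δ : ℕ) (hi : i ≤ T) (c : Fin n × Fin L → A) (F R : A[X][Y]) (H : ℕ → A[X][Y])
    (hF : aevalAeval (R := A) x a F = 0)
    (hid : (δ : A[X][Y]) ^ N * pg n L g c = ∑ j ∈ Finset.range i,
      tb A b m ^ j * (F ^ (T - j) * H j) + tb A b m ^ i * R) (k : ℕ) (hk : i + k < T) :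
    (δ : E) ^ N * bu (RingHom.id A) x a n L g (wj m g i k) c =
      (i.factorial : E) * (b : E) ^ i *
        (a ^ k * (hasseDeriv k (R.map ((aeval x : A[X] →ₐ[A] E) : A[X] →+* E))).eval a) := by
  obtain ⟨U, hU0, hU⟩ := js_tb (A := A) hm hx a
  have h1 := congrArg (fun P => PowerSeries.coeff i ((js_psi A x a m P).coeff k)) hid
  have h2 : PowerSeries.coeff i ((js_psi A x a m ((δ : A[X][Y]) ^ N * pg n L g c)).coeff k) =
      (δ : E) ^ N * PowerSeries.coeff i ((js_psi A x a m (pg n L g c)).coeff k) := by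
    have h3 : js_psi A x a m ((δ : A[X][Y]) ^ N) = C (PowerSeries.C ((δ : E) ^ N)) := by
      rw [map_pow, map_natCast, map_pow, map_pow, map_natCast, map_natCast]
    rw [map_mul, h3, coeff_C_mul, PowerSeries.coeff_C_mul]
  have h4 : PowerSeries.coeff i ((js_psi A x a m (∑ j ∈ Finset.range i,
      tb A b m ^ j * (F ^ (T - j) * H j) + tb A b m ^ i * R)).coeff k) =
      (b : E) ^ i * (hasseDeriv k (R.map ((aeval x : A[X] →ₐ[A] E) : A[X] →+* E))).eval a := by
    rw [map_add, coeff_add, map_add, map_sum, finsetSum_coeff, map_sum, Finset.sum_eq_zero, zero_add]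
    · have h5 : js_psi A x a m (tb A b m ^ i * R) = C (PowerSeries.X ^ i * U ^ i) * js_psi A x a m R := by
        rw [map_mul, map_pow, hU, ← map_pow, mul_pow]
      have h6 : PowerSeries.coeff i (PowerSeries.X ^ i * (U ^ i * (js_psi A x a m R).coeff k)) =
          PowerSeries.coeff 0 (U ^ i * (js_psi A x a m R).coeff k) := by
        have h7 := PowerSeries.coeff_X_pow_mul (U ^ i * (js_psi A x a m R).coeff k) i 0
        rwa [zero_add] at h7
      rw [h5, coeff_C_mul, mul_assoc, h6, PowerSeries.coeff_zero_eq_constantCoeff_apply, map_mul, map_pow, hU0,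
        ← PowerSeries.coeff_zero_eq_constantCoeff_apply, js_const]
    · intro j hj
      have hj' : j < i := Finset.mem_range.1 hj
      have h5 : Od (j + (T - j)) (js_psi A x a m (tb A b m ^ j * (F ^ (T - j) * H j))) := by
        rw [map_mul, map_pow, map_mul, map_pow]
        exact od_mul (od_pow (od_tb hm hx a) j) (od_mul_right (od_pow (od_F x a m F hF) (T - j)) _)
      exact h5 i k (by omega)
  rw [← js_J x a m n L g i k c]
  have h5 : (δ : E) ^ N * PowerSeries.coeff i ((js_psi A x a m (pg n L g c)).coeff k) =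
      (b : E) ^ i * (hasseDeriv k (R.map ((aeval x : A[X] →ₐ[A] E) : A[X] →+* E))).eval a := by
    rw [← h2, ← h4]
    exact h1
  linear_combination ((i.factorial : E) * a ^ k) * h5

theorem jet_pow {b m : ℕ} {x a : E} (hb : 1 ≤ b) (hm : 1 ≤ m) (hx : x ^ m = (b : E)) (ha : a ≠ 0)
    (n L g T : ℕ) (c : Fin n × Fin L → A) (G U : A[X][Y])
    (hG : aevalAeval (R := A) (x ^ g) (a ^ g) G = 0) (hc : pg n L 1 c = G ^ T * U) :
    c ∈ JT A x a m n L g T := by
  have h1 : pg n L g c = ex g (pg n L 1 c) := by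
    rw [pg, pg, map_sum]
    refine Finset.sum_congr rfl fun p _ => ?_
    have h2 : (monomial (1 * (p.2 : ℕ)) (monomial (1 * (p.1 : ℕ)) (c p)) : A[X][Y]) =
        C (C (c p)) * (C X) ^ (p.1 : ℕ) * X ^ (p.2 : ℕ) := by
      rw [one_mul, one_mul, ← C_mul_X_pow_eq_monomial, ← C_mul_X_pow_eq_monomial, C_mul, C_pow]
    have h3 : (monomial (g * (p.2 : ℕ)) (monomial (g * (p.1 : ℕ)) (c p)) : A[X][Y]) =
        C (C (c p)) * (C X) ^ (g * (p.1 : ℕ)) * X ^ (g * (p.2 : ℕ)) := by
      rw [← C_mul_X_pow_eq_monomial, ← C_mul_X_pow_eq_monomial, C_mul, C_pow]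
    have h4 : ex g (C (C (c p)) : A[X][Y]) = C (C (c p)) := (ex g : A[X][Y] →ₐ[A] A[X][Y]).commutes (c p)
    rw [h2, h3, map_mul, map_mul, map_pow, map_pow, h4, ex, aevalAeval_X, aevalAeval_Y, ← pow_mul, ← pow_mul]
  have h2 : aevalAeval (R := A) x a (ex g G) = 0 := by
    have h3 : (aevalAeval (R := A) x a).comp (ex g) = aevalAeval (R := A) (x ^ g) (a ^ g) := by
      refine (aevalAevalEquiv A E).symm.injective ?_
      rw [aevalAevalEquiv_symm_apply, Equiv.symm_apply_apply]
      refine Prod.ext ?_ ?_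
      · show aevalAeval (R := A) x a (ex g (C X)) = x ^ g
        rw [ex, aevalAeval_X, map_pow, aevalAeval_X]
      · show aevalAeval (R := A) x a (ex g Y) = a ^ g
        rw [ex, aevalAeval_Y, map_pow, aevalAeval_Y]
    have h4 := congrArg (fun f : A[X][Y] →ₐ[A] E => f G) h3
    exact h4.trans hG
  intro i k hik
  change bu (RingHom.id A) x a n L g (wj m g i k) c = 0
  rw [← js_J x a m n L g i k c, h1, hc]
  have h3 : Od T (js_psi A x a m (ex g (G ^ T * U))) := by
    rw [map_mul, map_pow, map_mul, map_pow]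
    exact od_mul_right (od_pow (od_F x a m _ h2) T) _
  rw [h3 i k hik, mul_zero, mul_zero]

end Pool.Agent.H36.LH
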