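import Pool.Agent.H36.LH.JsB
import Pool.Agent.H36.LF.MaA

/-!
# THEOREM L, version 4 (MP_187c26_nt): extrapolation, the value at `(x^(gq), a^(gq))` is divisible by `q^T`

Imports may be sorried (`jet_dec`).
PROOF. `Φ(P) := P^σ(x^q, a^q)`. For `P` with coefficients integral at `q` there is `s` prime to `q` with `s Φ(P) = bzA σ x a n' L' q c'`, `c' ∈ ZA`, so `s Φ(P) ∈ LK a (q natDegree P)` (`ev_int0A`), and `s Φ(F) = q y_F`
(`ev_intA`, as `F(x, a) = 0`). `Φ(tb) = b^q - b = q β`. So every term of `jet_dec` (`p := q`, `i := T`) times a number prime to `q` is `q^T` times an element of `LK a (g q (L - 1))`; Bezout for `s` and `q^T` finishes (`LK` is a `ℤ`-module which contains the value itself by `ev_int0A`).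
-/

set_option autoImplicit false

open Polynomial NumberField IntermediateField
open scoped Polynomial.Bivariate

namespace Pool.Agent.H36.LH

open Pool.Agent.H36.LE Pool.Agent.H36.LF

section LKs

variable {E : Type} [Field E] [NumberField E]

private theorem lk_mul {a u v : E} {K K' : ℕ} (hu : u ∈ LK a K) (hv : v ∈ LK a K') :
    u * v ∈ LK a (K + K') := by
  intro M _ _ t w
  rw [map_mul, map_mul, pow_add]
  exact mul_le_mul (hu M t w) (hv M t w) (apply_nonneg w _) (by positivity)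

private theorem lk_pow {a u : E} {K : ℕ} (hu : u ∈ LK a K) (k : ℕ) : u ^ k ∈ LK a (k * K) := by
  intro M _ _ t w
  rw [map_pow, map_pow, mul_comm k K, pow_mul]
  exact pow_le_pow_left₀ (apply_nonneg w _) (hu M t w) k

private theorem lk_mono {a u : E} {K K' : ℕ} (h : K ≤ K') (hu : u ∈ LK a K) : u ∈ LK a K' := by
  intro M _ _ t w
  exact (hu M t w).trans (pow_le_pow_right₀ (le_max_left _ _) h)

private theorem lk_zmul {a u : E} {K : ℕ} (hu : u ∈ LK a K) (z : ℤ) : (z : E) * u ∈ LK a K := by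
  rw [← zsmul_eq_mul]
  exact (LK a K).smul_mem z hu

private theorem lk_nmul {a u : E} {K : ℕ} (hu : u ∈ LK a K) (n : ℕ) : (n : E) * u ∈ LK a K := by
  have h := lk_zmul hu (n : ℤ)
  rwa [Int.cast_natCast] at h

end LKs

private theorem com {q : ℕ} (hq : q.Prime) (B : ℕ → ℕ → Prop)
    (h1 : ∀ j, ∃ s, ¬ q ∣ s ∧ B j s) (h2 : ∀ j s r, B j s → B j (r * s)) (t : Finset ℕ) :
    ∃ s, ¬ q ∣ s ∧ ∀ j ∈ t, B j s := by
  classical
  induction t using Finset.induction_on with
  | empty =>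
    refine ⟨1, fun h => hq.one_lt.ne' (Nat.dvd_one.1 h), fun j hj => ?_⟩
    exact absurd hj (Finset.notMem_empty j)
  | insert j t hj ih =>
    obtain ⟨s, hs, h⟩ := ih
    obtain ⟨r, hr, h'⟩ := h1 j
    refine ⟨s * r, fun h3 => ?_, fun i hi => ?_⟩
    · rcases (hq.dvd_mul).1 h3 with h4 | h4
      · exact hs h4
      · exact hr h4
    · rcases Finset.mem_insert.1 hi with hi | hi
      · rw [hi]
        exact h2 _ _ _ h'
      · rw [mul_comm]
        exact h2 _ _ _ (h i hi)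

private theorem int_nat {K : Type} [Field K] (s : ℕ) : IsIntegral ℤ (s : K) := by
  have h := isIntegral_algebraMap (R := ℤ) (A := K) (x := (s : ℤ))
  simpa using h

private theorem int_mul {K : Type} [Field K] {y : K} (s r : ℕ) (h : IsIntegral ℤ ((s : K) * y)) :
    IsIntegral ℤ (((r * s : ℕ) : K) * y) := by
  have h1 := (int_nat (K := K) r).mul h
  rwa [← mul_assoc, ← Nat.cast_mul] at h1

private theorem den {A : Type} [Field A] {q : ℕ} (hq : q.Prime) (P : A[X][Y]) (hP : PP q P) :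
    ∃ s : ℕ, ¬ q ∣ s ∧ ∀ i j, IsIntegral ℤ ((s : A) * (P.coeff j).coeff i) := by
  have h1 : ∀ j, ∃ s : ℕ, ¬ q ∣ s ∧ ∀ i, IsIntegral ℤ ((s : A) * (P.coeff j).coeff i) := by
    intro j
    obtain ⟨s, hs, h⟩ := com hq (fun i s => IsIntegral ℤ ((s : A) * (P.coeff j).coeff i))
      (fun i => hP i j) (fun i s r h => int_mul s r h) (P.coeff j).support
    refine ⟨s, hs, fun i => ?_⟩
    by_cases hi : i ∈ (P.coeff j).support
    · exact h i hi
    · rw [notMem_support_iff.1 hi, mul_zero]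
      exact isIntegral_zero
  obtain ⟨s, hs, h⟩ := com hq (fun j s => ∀ i, IsIntegral ℤ ((s : A) * (P.coeff j).coeff i)) h1
    (fun j s r h i => int_mul s r (h i)) P.support
  refine ⟨s, hs, fun i j => ?_⟩
  by_cases hj : j ∈ P.support
  · exact h j hj i
  · rw [notMem_support_iff.1 hj, coeff_zero, mul_zero]
    exact isIntegral_zero

variable {A E : Type} [Field A] [NumberField A] [Field E] [NumberField E] [Algebra A E]

private theorem av (x a : E) (P : A[X][Y]) : aevalAeval (R := A) x a P =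
    (P.map ((aeval x : A[X] →ₐ[A] E) : A[X] →+* E)).eval a := by
  induction P using Polynomial.induction_on' with
  | add P Q hP hQ => rw [map_add, hP, hQ, Polynomial.map_add, eval_add]
  | monomial n q =>
    rw [← C_mul_X_pow_eq_monomial, map_mul, map_pow, aevalAeval_C, aevalAeval_Y]
    simp

private theorem evs (σ : A →+* A) (u w : E) (P : A[X][Y]) (n L : ℕ) (hL : P.natDegree < L)
    (hn : ∀ j, (P.coeff j).natDegree < n) :
    aevalAeval (R := A) u w (tw σ P) = ∑ p : Fin n × Fin L,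
      algebraMap A E (σ ((P.coeff p.2).coeff p.1)) * (u ^ (p.1 : ℕ) * w ^ (p.2 : ℕ)) := by
  have h1 : ∀ v : A[X], v.natDegree < n →
      (((aeval u : A[X] →ₐ[A] E) : A[X] →+* E).comp (mapRingHom σ)) v =
      ∑ i ∈ Finset.range n, algebraMap A E (σ (v.coeff i)) * u ^ i := by
    intro v hv
    have h2 : (((aeval u : A[X] →ₐ[A] E) : A[X] →+* E).comp (mapRingHom σ)) v =
        eval₂ ((algebraMap A E).comp σ) u v := by
      rw [RingHom.comp_apply, coe_mapRingHom]
      change aeval u (v.map σ) = _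
      rw [aeval_def, eval₂_map]
    rw [h2, eval₂_eq_sum_range' _ hv]
    rfl
  rw [av]
  unfold tw
  rw [coe_mapRingHom, Polynomial.map_map, eval_map, eval₂_eq_sum_range' _ hL,
    Fintype.sum_prod_type, Finset.sum_comm]
  have h3 : ∀ f : ℕ → ℕ → E, ∑ j : Fin L, ∑ i : Fin n, f i j =
      ∑ j ∈ Finset.range L, ∑ i ∈ Finset.range n, f i j := by
    intro f
    rw [← Fin.sum_univ_eq_sum_range (fun j => ∑ i ∈ Finset.range n, f i j) L]
    refine Finset.sum_congr rfl fun j _ => ?_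
    exact Fin.sum_univ_eq_sum_range (fun i => f i j) n
  rw [h3 (fun i j => algebraMap A E (σ ((P.coeff j).coeff i)) * (u ^ i * w ^ j))]
  refine Finset.sum_congr rfl fun j _ => ?_
  rw [h1 _ (hn j), Finset.sum_mul]
  refine Finset.sum_congr rfl fun i _ => ?_
  ring

private theorem red {q : ℕ} (hq : q.Prime) (x a : E) (P : A[X][Y]) (hP : PP q P) :
    ∃ (s n' : ℕ) (c' : Fin n' × Fin (P.natDegree + 1) → A), ¬ q ∣ s ∧
      c' ∈ ZA A n' (P.natDegree + 1) ∧
      ∀ (σ : A →+* A) (γ : ℕ), (s : E) * aevalAeval (R := A) (x ^ γ) (a ^ γ) (tw σ P) =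
        bzA σ x a n' (P.natDegree + 1) γ c' := by
  obtain ⟨s, hs, h⟩ := den hq P hP
  obtain ⟨n', hn'⟩ : ∃ n', ∀ j, (P.coeff j).natDegree < n' := by
    refine ⟨P.support.sup (fun j => (P.coeff j).natDegree) + 1, fun j => ?_⟩
    by_cases hj : j ∈ P.support
    · exact Nat.lt_succ_of_le (Finset.le_sup (f := fun j => (P.coeff j).natDegree) hj)
    · rw [notMem_support_iff.1 hj, natDegree_zero]
      exact Nat.succ_pos _
  refine ⟨s, n', fun p => (s : A) * (P.coeff p.2).coeff p.1, hs, fun p => h _ _, fun σ γ => ?_⟩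
  rw [bzA_apply, evs σ (x ^ γ) (a ^ γ) P n' (P.natDegree + 1) (Nat.lt_succ_self _) hn',
    Finset.mul_sum]
  refine Finset.sum_congr rfl fun p _ => ?_
  rw [map_mul, map_mul, map_natCast, map_natCast, ← pow_mul, ← pow_mul, mul_assoc]

private theorem lkp {q : ℕ} (hq : q.Prime) (σ : A →+* A) (x a : E) (hx : IsIntegral ℤ x)
    (P : A[X][Y]) (hP : PP q P) : ∃ s : ℕ, ¬ q ∣ s ∧
      (s : E) * aevalAeval (R := A) (x ^ q) (a ^ q) (tw σ P) ∈ LK a (q * P.natDegree) := by
  obtain ⟨s, n', c', hs, hc, h⟩ := red hq x a P hP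
  refine ⟨s, hs, ?_⟩
  rw [h]
  have h1 := ev_int0A σ x a hx n' (P.natDegree + 1) q c' hc
  rwa [Nat.add_sub_cancel] at h1

private theorem lkf {q : ℕ} (hq : q.Prime) (σ : A →+* A) (hσ : Pool.Agent.H72.BE.Frob A q σ)
    (x a : E) (hx : IsIntegral ℤ x) (P : A[X][Y]) (hP : PP q P)
    (h0 : aevalAeval (R := A) x a P = 0) : ∃ s : ℕ, ¬ q ∣ s ∧ ∃ y ∈ LK a (q * P.natDegree),
      (s : E) * aevalAeval (R := A) (x ^ q) (a ^ q) (tw σ P) = (q : E) * y := by
  obtain ⟨s, n', c', hs, hc, h⟩ := red hq x a P hP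
  have h1 : bzA (RingHom.id A) x a n' (P.natDegree + 1) 1 c' = 0 := by
    rw [← h, pow_one, pow_one]
    have h2 : tw (RingHom.id A) P = P := by
      unfold tw
      rw [mapRingHom_id, mapRingHom_id]
      rfl
    rw [h2, h0, mul_zero]
  obtain ⟨y, hy, h2⟩ := ev_intA σ x a hx n' (P.natDegree + 1) 1 q hq hσ c' hc h1
  rw [one_mul] at h2
  rw [one_mul, Nat.add_sub_cancel] at hy
  refine ⟨s, hs, y, hy, ?_⟩
  rw [h, h2, nsmul_eq_mul]

private def Gd (a : E) (K q T : ℕ) (e : E) : Prop :=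
  ∃ s : ℕ, ¬ q ∣ s ∧ ∃ y ∈ LK a K, (s : E) * e = (q : E) ^ T * y

private theorem ndvd {q : ℕ} (hq : q.Prime) {s r : ℕ} (hs : ¬ q ∣ s) (hr : ¬ q ∣ r) :
    ¬ q ∣ s * r := fun h => by
  rcases (hq.dvd_mul).1 h with h | h
  · exact hs h
  · exact hr h

private theorem gd_zero {a : E} {K q T : ℕ} (hq : q.Prime) : Gd a K q T (0 : E) :=
  ⟨1, fun h => hq.one_lt.ne' (Nat.dvd_one.1 h), 0, Submodule.zero_mem _, by rw [mul_zero, mul_zero]⟩

private theorem gd_add {a : E} {K q T : ℕ} (hq : q.Prime) {e e' : E} (h : Gd a K q T e)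
    (h' : Gd a K q T e') : Gd a K q T (e + e') := by
  obtain ⟨s, hs, y, hy, h1⟩ := h
  obtain ⟨r, hr, z, hz, h2⟩ := h'
  refine ⟨s * r, ndvd hq hs hr, (r : E) * y + (s : E) * z,
    Submodule.add_mem _ (lk_nmul hy r) (lk_nmul hz s), ?_⟩
  push_cast
  linear_combination (r : E) * h1 + (s : E) * h2

private theorem gd_sum {a : E} {K q T : ℕ} (hq : q.Prime) {ι : Type} (t : Finset ι) (f : ι → E)
    (h : ∀ i ∈ t, Gd a K q T (f i)) : Gd a K q T (∑ i ∈ t, f i) := by
  classical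
  induction t using Finset.induction_on with
  | empty => simpa using gd_zero hq
  | insert i t hi ih =>
    rw [Finset.sum_insert hi]
    exact gd_add hq (h i (Finset.mem_insert_self _ _))
      (ih fun j hj => h j (Finset.mem_insert_of_mem hj))

private theorem pg_ev (σ : A →+* A) (x a : E) (n L g q : ℕ) (c : Fin n × Fin L → A) :
    aevalAeval (R := A) (x ^ q) (a ^ q) (tw σ (pg n L g c)) = bzA σ x a n L (g * q) c := by
  rw [bzA_apply]
  unfold pg tw
  rw [map_sum, map_sum]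
  refine Finset.sum_congr rfl fun p _ => ?_
  rw [coe_mapRingHom, map_monomial, coe_mapRingHom, map_monomial, av, map_monomial,
    eval_monomial]
  change aeval (x ^ q) (monomial (g * (p.1 : ℕ)) (σ (c p))) * _ = _
  rw [aeval_monomial, ← pow_mul, ← pow_mul, mul_assoc]
  congr 3 <;> ring

private theorem tb_ev {b m d : ℕ} {ι : ℝ} {x : E} (hx : RdA A b m d ι x) (σ : A →+* A) (a : E)
    (q : ℕ) (hq : q.Prime) : ∃ β : ℤ,
      aevalAeval (R := A) (x ^ q) (a ^ q) (tw σ (tb A b m)) = (q : E) * (β : E) := by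
  have h1 : ((b : ℤ) : ZMod q) ^ q = ((b : ℤ) : ZMod q) := by
    have : Fact q.Prime := ⟨hq⟩
    exact ZMod.pow_card _
  have h2 : (q : ℤ) ∣ (b : ℤ) ^ q - b := by
    rw [← ZMod.intCast_zmod_eq_zero_iff_dvd]
    push_cast
    push_cast at h1
    rw [h1, sub_self]
  obtain ⟨β, hβ⟩ := h2
  refine ⟨β, ?_⟩
  have h3 : aevalAeval (R := A) (x ^ q) (a ^ q) (tw σ (tb A b m)) = (b : E) ^ q - b := by
    unfold tb tw
    rw [coe_mapRingHom, map_C, coe_mapRingHom, Polynomial.map_sub, Polynomial.map_pow, map_X, map_C,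
      map_natCast, aevalAeval_C, map_sub, map_pow, aeval_X, aeval_C, map_natCast, ← pow_mul,
      mul_comm, pow_mul, hx.pow]
  rw [h3]
  exact_mod_cast congrArg (fun z : ℤ => (z : E)) hβ

theorem jet_ext {b m d : ℕ} {ι : ℝ} {x : E} (hx : RdA A b m d ι x) (δ : ℕ) (hδ : 1 ≤ δ)
    (hM : Mx A x δ) (a : E) (ha : a ≠ 0) (n L g T q : ℕ) (hq : q.Prime) (hqδ : ¬ q ∣ δ)
    (σ : A →+* A) (hσ : Pool.Agent.H72.BE.Frob A q σ)
    (c : Fin n × Fin L → A) (hc : c ∈ ZA A n L) (hJ : c ∈ JT A x a m n L g T) :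
    ∃ y ∈ LK a (g * q * (L - 1)), bzA σ x a n L (g * q) c = (q ^ T) • y := by
  have hm : m ≠ 0 := by have := hx.m1; omega
  have hxi : IsIntegral ℤ x := by
    refine ⟨X ^ m - C (b : ℤ), monic_X_pow_sub_C _ hm, ?_⟩
    rw [eval₂_sub, eval₂_X_pow, eval₂_C, hx.pow]
    simp
  obtain ⟨N, F, R, H, -, hF, hR, hH, hF0, hRd, hHd, hid⟩ := jet_dec hx δ hδ hM a ha q hq n L g T T
    le_rfl c hc (fun i' k _ h => hJ i' k h)
  obtain ⟨β, hβ⟩ := tb_ev hx σ a q hq
  obtain ⟨Φ, hΦ⟩ : ∃ Φ : A[X][Y] →+* E, ∀ P, Φ P = aevalAeval (R := A) (x ^ q) (a ^ q) (tw σ P) :=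
    ⟨((aevalAeval (R := A) (x ^ q) (a ^ q) : A[X][Y] →ₐ[A] E) : A[X][Y] →+* E).comp (tw σ),
      fun _ => rfl⟩
  rw [← hΦ] at hβ
  obtain ⟨sF, hsF, yF, hyF, hF1⟩ := lkf hq σ hσ x a hxi F hF hF0
  rw [← hΦ] at hF1
  have key : Gd a (g * q * (L - 1)) q T ((δ : E) ^ N * bzA σ x a n L (g * q) c) := by
    have h1 := congrArg Φ hid
    rw [map_mul, map_pow, map_natCast, map_add, map_sum, hΦ (pg n L g c), pg_ev] at h1
    rw [h1]
    refine gd_add hq (gd_sum hq _ _ fun j hj => ?_) ?_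
    · rw [Finset.mem_range] at hj
      rw [map_mul, map_mul, map_pow, map_pow, hβ]
      rcases hHd j hj with h2 | h2
      · rw [h2, map_zero, mul_zero, mul_zero]
        exact gd_zero hq
      · obtain ⟨s, hs, hz⟩ := lkp hq σ x a hxi (H j) (hH j)
        rw [← hΦ] at hz
        refine ⟨sF ^ (T - j) * s, ndvd hq (fun h => hsF (hq.dvd_of_dvd_pow h)) hs,
          ((β ^ j : ℤ) : E) * (yF ^ (T - j) * ((s : E) * Φ (H j))), lk_zmul (lk_mono ?_
            (lk_mul (lk_pow hyF (T - j)) hz)) _, ?_⟩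
        · have h3 := Nat.mul_le_mul_left q h2
          calc (T - j) * (q * F.natDegree) + q * (H j).natDegree =
              q * ((T - j) * F.natDegree + (H j).natDegree) := by ring
            _ ≤ q * (g * (L - 1)) := h3
            _ = g * q * (L - 1) := by ring
        · have h3 : ((sF : E) * Φ F) ^ (T - j) = (q : E) ^ (T - j) * yF ^ (T - j) := by
            rw [hF1, mul_pow]
          have h4 : (q : E) ^ T = (q : E) ^ j * (q : E) ^ (T - j) := by
            rw [← pow_add]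
            congr 1
            omega
          rw [h4]
          push_cast
          rw [mul_pow] at h3
          linear_combination ((s : E) * (q : E) ^ j * (β : E) ^ j * Φ (H j)) * h3
    · obtain ⟨s, hs, hz⟩ := lkp hq σ x a hxi R hR
      rw [← hΦ] at hz
      rw [map_mul, map_pow, hβ]
      refine ⟨s, hs, ((β ^ T : ℤ) : E) * ((s : E) * Φ R), lk_zmul (lk_mono ?_ hz) _, ?_⟩
      · calc q * R.natDegree ≤ q * (g * (L - 1)) := Nat.mul_le_mul_left q hRd
          _ = g * q * (L - 1) := by ring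
      · push_cast
        ring
  obtain ⟨s, hs, z, hz, h1⟩ := key
  have hbz := ev_int0A σ x a hxi n L (g * q) c hc
  have hs' : ¬ q ∣ s * δ ^ N := ndvd hq hs fun h => hqδ (hq.dvd_of_dvd_pow h)
  have hcop : IsCoprime ((s * δ ^ N : ℕ) : ℤ) ((q ^ T : ℕ) : ℤ) := by
    rw [Nat.isCoprime_iff_coprime]
    exact Nat.Coprime.pow_right T ((Nat.Prime.coprime_iff_not_dvd hq).2 hs').symm
  obtain ⟨u, w, huw⟩ := hcop
  have huw' : (u : E) * ((s : E) * (δ : E) ^ N) + (w : E) * (q : E) ^ T = 1 := by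
    exact_mod_cast congrArg (fun z : ℤ => (z : E)) huw
  refine ⟨(u : E) * z + (w : E) * bzA σ x a n L (g * q) c,
    Submodule.add_mem _ (lk_zmul hz u) (lk_zmul hbz w), ?_⟩
  rw [nsmul_eq_mul]
  push_cast
  linear_combination (-(bzA σ x a n L (g * q) c)) * huw' + (u : E) * h1

end Pool.Agent.H36.LH
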