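import Pool.Agent.H36.LH.TuA
import Pool.Agent.H36.LG.MeB

/-!
# THEOREM L, version 4 (MP_187c26_nt): the slope inequality for one weighted evaluation

MODEL: `mi_stepB` in `Pool/Agent/H36/LG/MeB.lean` (copy and change). Imports may be sorried (`exists_TU`).
PROOF. The same with `bu .. u` in the place of `bzA`, `exists_TU` in the place of `exists_TB`, and: if `w_i ∈ ZA ∩ V` are independent modulo `V'` then `δ • bu w_i = l • y_i`, `y_i ∈ LK a K`, so `bu w_i = (l/δ) y_i`, `gd (T pcA w) = (l/δ)^(2r) gd (ph y)`; `X := (l/δ)^(2r) exp (2 Y)`.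
The `A`-subspace `W = {bu c : c ∈ V}` and its dimension as in the model (`bu (w • c) = σ(w) bu c`, see `kU`).
-/

set_option autoImplicit false

open Polynomial NumberField IntermediateField

namespace Pool.Agent.H36.LH

open Pool.Agent.H36.LE Pool.Agent.H36.LF

private theorem mub_h {E : Type} [Field E] [CharZero E] (a : E) : 0 ≤ absLogHeight₁ a := by
  unfold absLogHeight₁ absMulHeight₁
  split_ifs with hx
  · have : FiniteDimensional ℚ ℚ⟮a⟯ := adjoin.finiteDimensional hx
    have : NumberField ℚ⟮a⟯ := {}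
    refine Real.log_nonneg ?_
    exact Real.one_le_rpow (Height.one_le_mulHeight₁ _) (by positivity)
  · rw [Real.log_one]

private theorem mub_li {V₀ E : Type} [AddCommGroup V₀] [Module ℚ V₀] [AddCommGroup E] [Module ℚ E]
    (D : V₀ →ₗ[ℚ] E) (V : Submodule ℚ V₀) {r : ℕ} (w : Fin r → V₀) (hw : ∀ i, w i ∈ V)
    (hi : LinearIndependent ℚ (fun i => (V ⊓ LinearMap.ker D).mkQ (w i))) (l : ℚ) (y : Fin r → E)
    (hy : ∀ i, D (w i) = l • y i) : LinearIndependent ℚ y := by
  rw [Fintype.linearIndependent_iff] at hi ⊢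
  intro c hc
  apply hi c
  have h1 : ∑ i, c i • w i ∈ V ⊓ LinearMap.ker D := by
    refine ⟨Submodule.sum_mem _ fun i _ => Submodule.smul_mem _ _ (hw i), ?_⟩
    show D (∑ i, c i • w i) = 0
    rw [map_sum]
    have h2 : ∀ i, D (c i • w i) = l • (c i • y i) := by
      intro i
      rw [map_smul, hy, smul_comm]
    rw [Finset.sum_congr rfl fun i _ => h2 i, ← Finset.smul_sum, hc, smul_zero]
  have h3 : (V ⊓ LinearMap.ker D).mkQ (∑ i, c i • w i) = 0 := by
    rw [← LinearMap.mem_ker, Submodule.ker_mkQ]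
    exact h1
  rw [map_sum] at h3
  rw [← h3]
  exact Finset.sum_congr rfl fun i _ => (map_smul _ _ _).symm

/-- an endomorphism of a number field is surjective -/
private theorem mub_surj {A : Type} [Field A] [NumberField A] (σ : A →+* A) : Function.Surjective σ := by
  have h1 : Function.Injective σ.toRatAlgHom.toLinearMap := σ.injective
  exact LinearMap.injective_iff_surjective.1 h1

private theorem mub_smul {A E : Type} [Field A] [NumberField A] [Field E] [NumberField E] [Algebra A E]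
    (σ : A →+* A) (x a : E) (n L γ : ℕ) (u : Fin n × Fin L → ℚ) (w : A) (c : Fin n × Fin L → A) :
    bu σ x a n L γ u (w • c) = algebraMap A E (σ w) * bu σ x a n L γ u c := by
  rw [bu_apply, bu_apply, Finset.mul_sum]
  refine Finset.sum_congr rfl fun p _ => ?_
  rw [Pi.smul_apply, smul_eq_mul, map_mul, map_mul]
  ring

/-- the image of an `A`-subspace -/
private def mub_W {A E : Type} [Field A] [NumberField A] [Field E] [NumberField E] [Algebra A E]
    (σ : A →+* A) (x a : E) (n L γ : ℕ) (u : Fin n × Fin L → ℚ)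
    (V : Submodule A (Fin n × Fin L → A)) : Submodule A E where
  carrier := {y | ∃ c ∈ V, bu σ x a n L γ u c = y}
  zero_mem' := ⟨0, V.zero_mem, map_zero _⟩
  add_mem' := by
    rintro _ _ ⟨c, hc, rfl⟩ ⟨c', hc', rfl⟩
    exact ⟨c + c', V.add_mem hc hc', map_add _ _ _⟩
  smul_mem' := by
    rintro w _ ⟨c, hc, rfl⟩
    obtain ⟨w', rfl⟩ := mub_surj σ w
    refine ⟨w' • c, V.smul_mem _ hc, ?_⟩
    rw [mub_smul, Algebra.smul_def]

private theorem mub_fin {A V₀ : Type} [Field A] [NumberField A] [AddCommGroup V₀] [Module ℚ V₀]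
    [Module A V₀] [IsScalarTower ℚ A V₀] (U : Submodule A V₀) :
    Module.finrank ℚ (U.restrictScalars ℚ) = Module.finrank ℚ A * Module.finrank A U :=
  (Module.finrank_mul_finrank ℚ A U).symm

/-- rank and nullity -/
private theorem mub_rank {A E : Type} [Field A] [NumberField A] [Field E] [NumberField E] [Algebra A E]
    (σ : A →+* A) (x a : E) (n L γ : ℕ) (u : Fin n × Fin L → ℚ)
    (V : Submodule A (Fin n × Fin L → A)) :
    Module.finrank A (mub_W σ x a n L γ u V) + Module.finrank A (V ⊓ kU σ x a n L γ u :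
      Submodule A (Fin n × Fin L → A)) = Module.finrank A V := by
  have h1 := LinearMap.finrank_range_add_finrank_ker
    ((bu σ x a n L γ u).domRestrict (V.restrictScalars ℚ))
  have h2 : Module.finrank ℚ (LinearMap.range
      ((bu σ x a n L γ u).domRestrict (V.restrictScalars ℚ))) =
      Module.finrank ℚ ((mub_W σ x a n L γ u V).restrictScalars ℚ) := by
    have e : LinearMap.range ((bu σ x a n L γ u).domRestrict (V.restrictScalars ℚ)) =
        (mub_W σ x a n L γ u V).restrictScalars ℚ := by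
      ext y
      constructor
      · rintro ⟨c, rfl⟩
        exact ⟨c.1, c.2, rfl⟩
      · rintro ⟨c, hc, rfl⟩
        exact ⟨⟨c, hc⟩, rfl⟩
    rw [e]
  have h3 : Module.finrank ℚ (LinearMap.ker
      ((bu σ x a n L γ u).domRestrict (V.restrictScalars ℚ))) =
      Module.finrank ℚ ((V ⊓ kU σ x a n L γ u).restrictScalars ℚ) := by
    refine LinearEquiv.finrank_eq
      { toFun := fun c => ⟨c.1.1, c.1.2, c.2⟩
        map_add' := fun _ _ => rfl
        map_smul' := fun _ _ => rfl
        invFun := fun c => ⟨⟨c.1, c.2.1⟩, c.2.2⟩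
        left_inv := fun _ => rfl
        right_inv := fun _ => rfl }
  have h4 : Module.finrank ℚ (V.restrictScalars ℚ) = Module.finrank ℚ A * Module.finrank A V :=
    mub_fin V
  rw [h2, h3, mub_fin, mub_fin, h4, ← mul_add] at h1
  exact Nat.eq_of_mul_eq_mul_left Module.finrank_pos h1

theorem mi_stepU {A E : Type} [Field A] [NumberField A] [Field E] [NumberField E] [Algebra A E]
    {b m d : ℕ} {ι : ℝ} {x : E} (hx : RdA A b m d ι x) (σ : A →+* A) (a : E)
    (n L γ K δ l : ℕ) (u : Fin n × Fin L → ℚ) (U : ℝ)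
    (hn1 : 1 ≤ n) (hL : 1 ≤ L) (hγ : 1 ≤ γ) (hnγ : (n - 1) * γ < m) (hK : γ * (L - 1) ≤ K)
    (hδ : 1 ≤ δ) (hl : 1 ≤ l) (hU1 : 1 ≤ U) (hU : ∀ p, |(u p : ℝ)| ≤ U)
    (V : Submodule A (Fin n × Fin L → A))
    (hV : ∀ c ∈ V, c ∈ ZA A n L → ∃ y ∈ LK a K, δ • bu σ x a n L γ u c = l • y) :
    nv A (pcA A n L) (ZA A n L) (V ⊓ kU σ x a n L γ u) ≤
      nv A (pcA A n L) (ZA A n L) V +
      (Module.finrank ℚ A * (Module.finrank A V - Module.finrank A
        (V ⊓ kU σ x a n L γ u : Submodule A (Fin n × Fin L → A)) : ℕ) : ℝ) *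
      (2 * Real.log b + ι + Real.log (L * d) / 2 + Real.log U + K * absLogHeight₁ a +
        Real.log δ - Real.log l) := by
  have hl0 : (0 : ℝ) < l := by exact_mod_cast hl
  have hδ0 : (0 : ℝ) < δ := by exact_mod_cast hδ
  obtain ⟨q, hq⟩ : ∃ q : ℚ, q = (l : ℚ) / δ := ⟨_, rfl⟩
  have hδQ : (δ : ℚ) ≠ 0 := by
    have : δ ≠ 0 := by omega
    exact_mod_cast this
  have hlQ : (l : ℚ) ≠ 0 := by
    have : l ≠ 0 := by omega
    exact_mod_cast this
  have hq0 : q ≠ 0 := by
    rw [hq]
    exact div_ne_zero hlQ hδQ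
  have hqR : (q : ℝ) = l / δ := by
    rw [hq]
    push_cast
    rfl
  obtain ⟨T, hT, hTc⟩ := exists_TU hx σ a n L γ K hγ hnγ hK u U (by linarith) hU
  obtain ⟨h, hh⟩ : ∃ h : ℝ, h = absLogHeight₁ a := ⟨_, rfl⟩
  have hh0 : 0 ≤ h := by
    rw [hh]
    exact mub_h a
  obtain ⟨V', hV'⟩ : ∃ V', V' = V ⊓ kU σ x a n L γ u := ⟨_, rfl⟩
  obtain ⟨W, hW⟩ : ∃ W, W = mub_W σ x a n L γ u V := ⟨_, rfl⟩
  have hVV : V'.restrictScalars ℚ ≤ V.restrictScalars ℚ := by
    rw [hV']
    exact fun c hc => hc.1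
  have hrk := mub_rank σ x a n L γ u V
  rw [← hV', ← hW] at hrk
  obtain ⟨k, hk⟩ : ∃ k : ℕ, k = Module.finrank A W := ⟨_, rfl⟩
  obtain ⟨r, hr⟩ : ∃ r : ℕ, r = Module.finrank ℚ A * k := ⟨_, rfl⟩
  have hkV : Module.finrank A V - Module.finrank A V' = k := by omega
  have hWr : Module.finrank ℚ (W.restrictScalars ℚ) = r := by
    rw [mub_fin, hr, hk]
  have hVr : Module.finrank ℚ (V.restrictScalars ℚ) - Module.finrank ℚ (V'.restrictScalars ℚ) = r := by
    rw [mub_fin, mub_fin, ← Nat.mul_sub, hkV, hr]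
  obtain ⟨Y, hY⟩ : ∃ Y : ℝ, Y = -((K * h + ι + Real.log b) * (Module.finrank ℚ A * k)) +
    k * dA A / 2 := ⟨_, rfl⟩
  obtain ⟨X, hX⟩ : ∃ X : ℝ, X = ((l : ℝ) / δ) ^ (2 * r) * Real.exp (2 * Y) := ⟨_, rfl⟩
  have hb0 : (0 : ℝ) < b := by exact_mod_cast hx.b1
  have hd : 1 ≤ d := by
    by_contra h0
    have h1 : d = 0 := by omega
    have h2 := hx.fin
    rw [h1, mul_zero] at h2
    have : Module.Finite A E := Module.Finite.of_restrictScalars_finite ℚ A E
    have h3 : 0 < Module.finrank A E := Module.finrank_pos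
    omega
  have hLd : (0 : ℝ) < L * d := by
    have h1 : (0 : ℝ) < L := by exact_mod_cast hL
    have h2 : (0 : ℝ) < d := by exact_mod_cast hd
    positivity
  have hU0 : (0 : ℝ) < U := by linarith
  have hB0 : (0 : ℝ) < b * Real.sqrt (L * d) * U :=
    mul_pos (mul_pos hb0 (Real.sqrt_pos.2 hLd)) hU0
  have hX0 : 0 < X := by
    rw [hX]
    positivity
  have hres : V'.restrictScalars ℚ = V.restrictScalars ℚ ⊓ LinearMap.ker (bu σ x a n L γ u) := by
    rw [hV']
    ext c
    exact Iff.rfl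
  have hf := (lat_pcA A n L).vl_filt T (b * Real.sqrt (L * d) * U) hB0.le hT hVV
    (by
      intro y hy
      rw [hres] at hy
      rw [hTc, LinearMap.mem_ker.1 hy.2, map_zero]) X
    (by
      intro w hw hi
      have hy : ∀ i, ∃ y ∈ LK a K, bu σ x a n L γ u (w i) = q • y := by
        intro i
        obtain ⟨y, hy1, hy2⟩ := hV (w i) (hw i).2 (hw i).1
        refine ⟨y, hy1, ?_⟩
        have h1 : (δ : ℚ) • bu σ x a n L γ u (w i) = (l : ℚ) • y := by
          rw [Nat.cast_smul_eq_nsmul, Nat.cast_smul_eq_nsmul, hy2]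
        rw [hq, div_eq_inv_mul, ← smul_smul, ← h1, smul_smul, inv_mul_cancel₀ hδQ, one_smul]
      choose y hy1 hy2 using hy
      have hli : LinearIndependent ℚ y := by
        refine mub_li (bu σ x a n L γ u) (V.restrictScalars ℚ) w (fun i => (hw i).2) ?_ q y hy2
        rw [← hres]
        exact hi
      have hyW : ∀ i, y i ∈ W.restrictScalars ℚ := by
        intro i
        have h1 : bu σ x a n L γ u (w i) ∈ W.restrictScalars ℚ := by
          rw [hW]
          exact ⟨w i, (hw i).2, rfl⟩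
        have h2 : y i = q⁻¹ • bu σ x a n L γ u (w i) := by
          rw [hy2, smul_smul, inv_mul_cancel₀ hq0, one_smul]
        rw [h2]
        exact Submodule.smul_mem _ _ h1
      have h1 := n1A hx a K W
      have h2 := (lat_ph m K hx.m1 a).vl_le (U := W.restrictScalars ℚ) y
        (by rw [Fintype.card_fin, hWr, hVr]) hli (fun i => ⟨hy1 i, hyW i⟩)
      have hp := (lat_ph m K hx.m1 a).vl_pos (W.restrictScalars ℚ)
      have h3 : (fun i => T (pcA A n L (w i))) = fun i => (q : ℂ) • (ph m a K (y i)) := by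
        funext i
        rw [hTc, hy2, map_rat_smul]
        exact (Rat.cast_smul_eq_qsmul ℂ q _).symm
      have hqn : ‖(q : ℂ)‖ = (l : ℝ) / δ := by
        have e1 : (q : ℂ) = (((l : ℝ) / δ : ℝ) : ℂ) := by
          rw [← hqR]
          norm_cast
        rw [e1, Complex.norm_real, Real.norm_eq_abs, abs_of_pos (div_pos hl0 hδ0)]
      have e : ((l : ℝ) / δ) ^ (2 * (Module.finrank ℚ (V.restrictScalars ℚ) -
          Module.finrank ℚ (V'.restrictScalars ℚ))) = ((l : ℝ) / δ) ^ (2 * r) := by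
        rw [hVr]
      rw [h3, gd_smul, hqn, Fintype.card_fin, hX, e]
      refine mul_le_mul_of_nonneg_left ?_ (by positivity)
      refine le_trans ?_ h2
      rw [← Real.le_log_iff_exp_le hp]
      unfold nv at h1
      rw [← hk, ← hh] at h1
      rw [hY]
      linarith)
  rw [hVr] at hf
  unfold nv
  rw [← hV', hkV, ← hh]
  have hp1 := (lat_pcA A n L).vl_pos (V'.restrictScalars ℚ)
  have hp2 := (lat_pcA A n L).vl_pos (V.restrictScalars ℚ)
  have hlog := Real.log_le_log (mul_pos hp1 hX0) hf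
  rw [Real.log_mul hp1.ne' hX0.ne', Real.log_mul (by positivity) hp2.ne', Real.log_pow,
    Real.log_mul (mul_pos hb0 (Real.sqrt_pos.2 hLd)).ne' hU0.ne',
    Real.log_mul hb0.ne' (Real.sqrt_pos.2 hLd).ne', Real.log_sqrt hLd.le, hX,
    Real.log_mul (by positivity) (Real.exp_pos _).ne', Real.log_exp, Real.log_pow,
    Real.log_div hl0.ne' hδ0.ne', hY, hr] at hlog
  push_cast at hlog
  have hkr : (Module.finrank A V : ℝ) = k + Module.finrank A V' := by
    have h5 : Module.finrank A V = k + Module.finrank A V' := by omega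
    exact_mod_cast h5
  rw [hkr]
  nlinarith [hlog]

/-- weights `1`: the plain evaluation -/
theorem kU_one {A E : Type} [Field A] [NumberField A] [Field E] [NumberField E] [Algebra A E]
    (σ : A →+* A) (x a : E) (n L γ : ℕ) :
    kU σ x a n L γ (fun _ => 1) = kA σ x a n L γ := by
  ext c
  have h1 : bu σ x a n L γ (fun _ => 1) c = bzA σ x a n L γ c := by
    have h0 : bu σ x a n L γ (fun _ => 1) c = bzA σ x a n L γ (fun p => (1 : ℚ) • c p) := rfl
    rw [h0]
    simp only [one_smul]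
  constructor
  · intro hc
    change bu σ x a n L γ (fun _ => 1) c = 0 at hc
    rw [h1] at hc
    exact hc
  · intro hc
    change bu σ x a n L γ (fun _ => 1) c = 0
    rw [h1]
    exact hc

end Pool.Agent.H36.LH
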