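import Pool.Agent.H36.LF.Defs

/-!
# THEOREM L, version 4 (MP_187c26_nt): exponent `1 + ε`. Definitions

`bu σ x a n L γ u c = ∑ σ(c_p) u_p x^(γ p₁) a^(γ p₂)`, `u : Fin n × Fin L → ℚ` weights. The jets of order `(i, k)` of the polynomial
`P(X^γ, Y^γ)`, `P` with the coefficients `c`, at `(x, a)`: weights `wj m γ i k p = (γ p₁ / m)^i binom(γ p₂, k)`: in `X` the derivative with
respect to `s` in `x e^(s/m)`, in `Y` the Hasse derivative times `a^k`. `JT` = the vectors whose jets of order `i + k < T` vanish.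
`Mx A x δ`: `δ` times the integers of `A(x)` is contained in `𝓞 A [x]`. `PI p y`: `y` is integral at `p`.
-/

set_option autoImplicit false

open Polynomial NumberField IntermediateField
open scoped Polynomial.Bivariate

namespace Pool.Agent.H36.LH

open Pool.Agent.H36.LE Pool.Agent.H36.LF

section Jets

variable {A E : Type} [Field A] [NumberField A] [Field E] [NumberField E] [Algebra A E]

/-- The weighted semilinear evaluation. -/
noncomputable def bu (σ : A →+* A) (x a : E) (n L γ : ℕ) (u : Fin n × Fin L → ℚ) :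
    (Fin n × Fin L → A) →ₗ[ℚ] E :=
  (bzA σ x a n L γ).comp (LinearMap.pi fun p => u p • LinearMap.proj p)

theorem bu_apply (σ : A →+* A) (x a : E) (n L γ : ℕ) (u : Fin n × Fin L → ℚ)
    (c : Fin n × Fin L → A) : bu σ x a n L γ u c =
      ∑ p : Fin n × Fin L, algebraMap A E (σ (c p)) *
        ((u p : E) * (x ^ (γ * (p.1 : ℕ)) * a ^ (γ * (p.2 : ℕ)))) := by
  have h0 : bu σ x a n L γ u c = bzA σ x a n L γ (fun p => u p • c p) := rfl
  rw [h0, bzA_apply]
  refine Finset.sum_congr rfl fun p _ => ?_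
  rw [Algebra.smul_def, map_mul, map_mul]
  have h1 : algebraMap A E (σ (algebraMap ℚ A (u p))) = (u p : E) := by
    have h2 : ((algebraMap A E).comp σ).comp (algebraMap ℚ A) = algebraMap ℚ E :=
      Subsingleton.elim _ _
    have h3 := congrArg (fun f : ℚ →+* E => f (u p)) h2
    simpa using h3
  rw [h1]
  ring

/-- The kernel, an `A`-subspace. -/
def kU (σ : A →+* A) (x a : E) (n L γ : ℕ) (u : Fin n × Fin L → ℚ) :
    Submodule A (Fin n × Fin L → A) where
  carrier := {c | bu σ x a n L γ u c = 0}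
  zero_mem' := map_zero _
  add_mem' := by
    intro c c' hc hc'
    rw [Set.mem_ofPred_eq] at hc hc' ⊢
    rw [map_add, hc, hc', add_zero]
  smul_mem' := by
    intro w c hc
    rw [Set.mem_ofPred_eq] at hc ⊢
    have h : bu σ x a n L γ u (w • c) = algebraMap A E (σ w) * bu σ x a n L γ u c := by
      rw [bu_apply, bu_apply, Finset.mul_sum]
      refine Finset.sum_congr rfl fun p _ => ?_
      rw [Pi.smul_apply, smul_eq_mul, map_mul, map_mul]
      ring
    rw [h, hc, mul_zero]

/-- The weights of the jet of order `(i, k)`. -/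
def wj (m γ i k : ℕ) {n L : ℕ} (p : Fin n × Fin L) : ℚ :=
  (((γ * (p.1 : ℕ) : ℕ) : ℚ) / m) ^ i * (Nat.choose (γ * (p.2 : ℕ)) k : ℚ)

variable (A) in
/-- The vectors whose jets of order `i + k < T` vanish. -/
def JT (x a : E) (m n L g T : ℕ) : Submodule A (Fin n × Fin L → A) where
  carrier := {c | ∀ i k : ℕ, i + k < T → c ∈ kU (RingHom.id A) x a n L g (wj m g i k)}
  zero_mem' := fun i k _ => zero_mem _
  add_mem' := fun hc hc' i k h => add_mem (hc i k h) (hc' i k h)
  smul_mem' := fun w _ hc i k h => Submodule.smul_mem _ w (hc i k h)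

variable (A) in
/-- `δ` times the integers of `A(x)` is contained in `𝓞 A [x]`. -/
def Mx (x : E) (δ : ℕ) : Prop :=
  ∀ y ∈ A⟮x⟯, IsIntegral ℤ y → ∃ f : A[X], (∀ i, IsIntegral ℤ (f.coeff i)) ∧
    aeval x f = (δ : E) * y

end Jets

section Poly

variable {A : Type} [Field A]

/-- `P(X^g, Y^g)` for the polynomial `P` with the coefficients `c`. -/
noncomputable def pg (n L g : ℕ) (c : Fin n × Fin L → A) : A[X][Y] :=
  ∑ p : Fin n × Fin L, monomial (g * (p.2 : ℕ)) (monomial (g * (p.1 : ℕ)) (c p))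

/-- `X^m - b`. -/
noncomputable def tb (A : Type) [Field A] (b m : ℕ) : A[X][Y] := C (X ^ m - C (b : A))

end Poly

/-- `y` is integral at `p`. -/
def PI {K : Type} [Field K] (p : ℕ) (y : K) : Prop :=
  ∃ s : ℕ, ¬ p ∣ s ∧ IsIntegral ℤ ((s : K) * y)

/-- The coefficients are integral at `p`. -/
def PP {K : Type} [Field K] (p : ℕ) (P : K[X][Y]) : Prop :=
  ∀ i j : ℕ, PI p ((P.coeff j).coeff i)

end Pool.Agent.H36.LH
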