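import Pool.Agent.H36.LH.Df
import Pool.Agent.H36.LG.IdD

/-!
# THEOREM L, version 4 (MP_187c26_nt): the exponent of the integers of `ℚ(x)` modulo `ℤ[x]`

PROOFS. `exp_idx`: `δ O ⊆ ℤ[x] ⊆ O`, `O` the integers of `ℚ(x)` in `Ω`, free of rank `m`: `[O : ℤ[x]] ≤ [O : δ O] = δ^m` (`idxZ x` is `AddSubgroup.relIndex` of the two additive groups, see `Pool/Agent/H69/BD/Vidx.lean`, `Vmain.lean`; it divides the relative index of `δ O`, which is `δ^m`, e.g. by `NumberField`/`Module.Free` rank or the discriminants).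
`exp_div`: `S := ℤ[x]`, `r ∣ m`. `1, x, …, x^(r-1)` are independent over `ℚ(x^r)` (`[ℚ(x) : ℚ(x^r)] = r`, `deg_div`; see the private lemma `id_ind` in `Pool/Agent/H36/LG/IdD.lean`), `S = ⊕_(i<r) ℤ[x^r] x^i` (`id_dec` there). If `y ∈ ℚ(x^r)` is integral then `δ y ∈ S`: `δ y = ∑ s_i x^i`, `s_i ∈ ℤ[x^r]`, so `δ y = s_0 ∈ ℤ[x^r]`.
`ex_hom`: the injective ring homomorphism `φ` maps `ℤ[x]` onto `ℤ[φ x]`, `ℚ(x)` onto `ℚ(φ x)` and preserves and reflects integrality (see `idxZ_hom` in `Pool/Agent/H36/LF/GqF.lean`).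
-/

set_option autoImplicit false

open Polynomial NumberField IntermediateField

namespace Pool.Agent.H36.LH

open Pool.Agent.H69.BD (idxZ)

/-- `δ` times the integers of `ℚ(x)` is contained in `ℤ[x]`. -/
def Ex {Ω : Type} [Field Ω] [CharZero Ω] (x : Ω) (δ : ℕ) : Prop :=
  ∀ y ∈ ℚ⟮x⟯, IsIntegral ℤ y → (δ : Ω) * y ∈ Algebra.adjoin ℤ ({x} : Set Ω)

/-- elements of `ℤ[x]` -/
private theorem ea_dec {Ω : Type} [Field Ω] (r : ℕ) (hr : 0 < r) (x : Ω) :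
    ∀ y ∈ Algebra.adjoin ℤ ({x} : Set Ω), ∃ s : Fin r → Ω,
      (∀ i, s i ∈ Algebra.adjoin ℤ ({x ^ r} : Set Ω)) ∧ y = ∑ i, s i * x ^ (i : ℕ) := by
  intro y hy
  rw [Algebra.adjoin_singleton_eq_range_aeval] at hy
  obtain ⟨p, rfl⟩ := hy
  change ∃ s : Fin r → Ω, (∀ i, s i ∈ Algebra.adjoin ℤ ({x ^ r} : Set Ω)) ∧
    Polynomial.aeval x p = ∑ i, s i * x ^ (i : ℕ)
  induction p using Polynomial.induction_on' with
  | add p q hp hq =>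
    obtain ⟨s, h1, h2⟩ := hp
    obtain ⟨t, h3, h4⟩ := hq
    refine ⟨fun i => s i + t i, fun i => Subalgebra.add_mem _ (h1 i) (h3 i), ?_⟩
    rw [map_add, h2, h4, ← Finset.sum_add_distrib]
    exact Finset.sum_congr rfl fun i _ => by ring
  | monomial n a =>
    refine ⟨fun i => if (i : ℕ) = n % r then algebraMap ℤ Ω a * (x ^ r) ^ (n / r) else 0,
      fun i => ?_, ?_⟩
    · dsimp only
      split_ifs
      · exact Subalgebra.mul_mem _ (Subalgebra.algebraMap_mem _ _)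
          (Subalgebra.pow_mem _ (Algebra.self_mem_adjoin_singleton ℤ _) _)
      · exact Subalgebra.zero_mem _
    · rw [Finset.sum_eq_single (⟨n % r, Nat.mod_lt _ hr⟩ : Fin r)]
      · dsimp only
        rw [if_pos rfl, Polynomial.aeval_monomial, ← pow_mul, mul_assoc, ← pow_add,
          Nat.div_add_mod]
      · intro i _ hi
        dsimp only
        rw [if_neg, zero_mul]
        intro h
        exact hi (Fin.ext h)
      · intro h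
        exact absurd (Finset.mem_univ _) h

/-- the powers of `x` are independent over `ℚ(x^r)` -/
private theorem ea_ind {Ω : Type} [Field Ω] [CharZero Ω] (b m r : ℕ) (hb : 1 ≤ b) (hm : 1 ≤ m)
    (x : Ω) (hx : x ^ m = (b : Ω)) (hdeg : Module.finrank ℚ ℚ⟮x⟯ = m) (hr : r ∣ m) :
    LinearIndependent ℚ⟮x ^ r⟯ (fun i : Fin r => x ^ (i : ℕ)) := by
  have hdd := Pool.Agent.H36.LG.deg_div b m r hb hm x hx hdeg hr
  have hi : IsIntegral ℚ x := Pool.Agent.H69.BD.integral_rad b m hm x hx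
  have hi1 : IsIntegral ℚ⟮x ^ r⟯ x := hi.tower_top
  have h1 : Module.finrank ℚ ℚ⟮x ^ r⟯ * Module.finrank ℚ⟮x ^ r⟯ (ℚ⟮x ^ r⟯)⟮x⟯ =
      Module.finrank ℚ (ℚ⟮x ^ r⟯)⟮x⟯ := Module.finrank_mul_finrank _ _ _
  have h2 : ((ℚ⟮x ^ r⟯)⟮x⟯).restrictScalars ℚ = ℚ⟮x⟯ := by
    refine (adjoin_simple_adjoin_simple ℚ (x ^ r) x).trans ?_
    apply le_antisymm
    · rw [adjoin_le_iff]
      rintro y (hy | hy)
      · rw [hy]
        exact pow_mem (mem_adjoin_simple_self ℚ x) r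
      · rw [Set.mem_singleton_iff] at hy
        rw [hy]
        exact mem_adjoin_simple_self ℚ x
    · rw [adjoin_simple_le_iff]
      exact subset_adjoin ℚ _ (Set.mem_insert_of_mem _ (Set.mem_singleton x))
  have h3 : Module.finrank ℚ (ℚ⟮x ^ r⟯)⟮x⟯ = m := by
    have h4 : Module.finrank ℚ (((ℚ⟮x ^ r⟯)⟮x⟯).restrictScalars ℚ : IntermediateField ℚ Ω) =
        Module.finrank ℚ (ℚ⟮x ^ r⟯)⟮x⟯ := rfl
    rw [← h4, h2, hdeg]
  rw [h3, hdd, adjoin.finrank hi1] at h1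
  obtain ⟨d, hd⟩ := hr
  have hr0 : 0 < r := by
    rcases Nat.eq_zero_or_pos r with h | h
    · rw [h, zero_mul] at hd
      omega
    · exact h
  have hd0 : 0 < d := by
    rcases Nat.eq_zero_or_pos d with h | h
    · rw [h, mul_zero] at hd
      omega
    · exact h
  rw [hd, Nat.mul_div_cancel_left d hr0, mul_comm r d] at h1
  have h5 : (minpoly ℚ⟮x ^ r⟯ x).natDegree = r := Nat.eq_of_mul_eq_mul_left hd0 h1
  have h6 := linearIndependent_pow (K := ℚ⟮x ^ r⟯) x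
  exact h6.comp (Fin.cast h5.symm) (Fin.cast_injective _)

theorem exp_idx {Ω : Type} [Field Ω] [CharZero Ω] (b m δ : ℕ) (hb : 1 ≤ b) (hm : 1 ≤ m) (x : Ω)
    (hx : x ^ m = (b : Ω)) (hdeg : Module.finrank ℚ ℚ⟮x⟯ = m) (hδ : 1 ≤ δ) (hE : Ex x δ) :
    Real.log (idxZ x) ≤ Real.log δ * m := by
  have hxi : IsIntegral ℚ x := Pool.Agent.H69.BD.integral_rad b m hm x hx
  have hfd : FiniteDimensional ℚ ℚ⟮x⟯ := adjoin.finiteDimensional hxi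
  have hnf : NumberField ℚ⟮x⟯ := {}
  let f : 𝓞 ℚ⟮x⟯ →+ Ω := ((algebraMap ℚ⟮x⟯ Ω).comp (algebraMap (𝓞 ℚ⟮x⟯) ℚ⟮x⟯) : 𝓞 ℚ⟮x⟯ →+* Ω)
  have hf : ∀ z, f z = ((z : ℚ⟮x⟯) : Ω) := fun z => rfl
  have hrange : f.range = (ℚ⟮x⟯.toSubalgebra.toSubring ⊓ (integralClosure ℤ Ω).toSubring).toAddSubgroup := by
    ext y
    constructor
    · rintro ⟨z, rfl⟩
      refine ⟨(z : ℚ⟮x⟯).2, ?_⟩
      have h1 : IsIntegral ℤ (z : ℚ⟮x⟯) := RingOfIntegers.isIntegral_coe z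
      have h2 : IsIntegral ℤ ((algebraMap ℚ⟮x⟯ Ω).toIntAlgHom (z : ℚ⟮x⟯)) := h1.map (algebraMap ℚ⟮x⟯ Ω).toIntAlgHom
      exact h2
    · rintro ⟨hy1, hy2⟩
      have h2 : IsIntegral ℤ y := hy2
      have h1 : IsIntegral ℤ (⟨y, hy1⟩ : ℚ⟮x⟯) := by
        have h3 : IsIntegral ℤ ((algebraMap ℚ⟮x⟯ Ω).toIntAlgHom (⟨y, hy1⟩ : ℚ⟮x⟯)) := h2
        exact (isIntegral_algHom_iff (algebraMap ℚ⟮x⟯ Ω).toIntAlgHom (algebraMap ℚ⟮x⟯ Ω).injective).1 h3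
      exact ⟨⟨⟨y, hy1⟩, h1⟩, rfl⟩
  have hidx : idxZ x = ((Algebra.adjoin ℤ ({x} : Set Ω)).toSubring.toAddSubgroup.comap f).index := by
    rw [AddSubgroup.index_comap, hrange]
    rfl
  have hle : (Ideal.span {(δ : 𝓞 ℚ⟮x⟯)}).toAddSubgroup ≤
      (Algebra.adjoin ℤ ({x} : Set Ω)).toSubring.toAddSubgroup.comap f := by
    intro z hz
    have hz' : z ∈ Ideal.span {(δ : 𝓞 ℚ⟮x⟯)} := hz
    obtain ⟨w, rfl⟩ := Ideal.mem_span_singleton.1 hz'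
    have h1 : f ((δ : 𝓞 ℚ⟮x⟯) * w) = (δ : Ω) * f w := by
      rw [hf, hf]
      push_cast
      rfl
    have h2 : f w ∈ (ℚ⟮x⟯.toSubalgebra.toSubring ⊓ (integralClosure ℤ Ω).toSubring).toAddSubgroup := by
      rw [← hrange]
      exact ⟨w, rfl⟩
    change f ((δ : 𝓞 ℚ⟮x⟯) * w) ∈ Algebra.adjoin ℤ ({x} : Set Ω)
    rw [h1]
    exact hE _ h2.1 h2.2
  have hnorm : (Ideal.span {(δ : 𝓞 ℚ⟮x⟯)}).toAddSubgroup.index = δ ^ m := by
    have h1 : (Ideal.span {(δ : 𝓞 ℚ⟮x⟯)}).toAddSubgroup.index = Ideal.absNorm (Ideal.span {(δ : 𝓞 ℚ⟮x⟯)}) := rfl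
    rw [h1, Ideal.absNorm_span_singleton]
    have h2 : (δ : 𝓞 ℚ⟮x⟯) = algebraMap ℤ (𝓞 ℚ⟮x⟯) (δ : ℤ) := by simp
    rw [h2, Algebra.norm_algebraMap, RingOfIntegers.rank, hdeg, Int.natAbs_pow, Int.natAbs_natCast]
  have hdvd : idxZ x ∣ δ ^ m := by
    rw [hidx, ← hnorm]
    exact AddSubgroup.index_dvd_of_le hle
  have hpos : 0 < δ ^ m := Nat.pow_pos hδ
  have h1 : idxZ x ≤ δ ^ m := Nat.le_of_dvd hpos hdvd
  have h2 : 0 < idxZ x := Nat.pos_of_dvd_of_pos hdvd hpos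
  have h3 : Real.log (idxZ x) ≤ Real.log ((δ : ℝ) ^ m) := by
    apply Real.log_le_log
    · exact_mod_cast h2
    · exact_mod_cast h1
  rw [Real.log_pow] at h3
  linarith

theorem exp_div {Ω : Type} [Field Ω] [CharZero Ω] (b m r δ : ℕ) (hb : 1 ≤ b) (hm : 1 ≤ m) (x : Ω)
    (hx : x ^ m = (b : Ω)) (hdeg : Module.finrank ℚ ℚ⟮x⟯ = m) (hr : r ∣ m) (hE : Ex x δ) :
    Ex (x ^ r) δ := by
  intro y hy hyi
  have hr0 : 0 < r := Nat.pos_of_dvd_of_pos hr hm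
  have hle : ℚ⟮x ^ r⟯ ≤ ℚ⟮x⟯ := by
    rw [adjoin_simple_le_iff]
    exact pow_mem (mem_adjoin_simple_self ℚ x) r
  obtain ⟨s, hs1, hs2⟩ := ea_dec r hr0 x _ (hE y (hle hy) hyi)
  have hI := ea_ind b m r hb hm x hx hdeg hr
  have hsK : ∀ i, s i ∈ ℚ⟮x ^ r⟯ := by
    intro i
    have h1 : Algebra.adjoin ℤ ({x ^ r} : Set Ω) ≤
        (ℚ⟮x ^ r⟯.toSubalgebra.restrictScalars ℤ) := by
      rw [Algebra.adjoin_le_iff]
      rintro y hy
      rw [Set.mem_singleton_iff] at hy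
      rw [hy]
      exact mem_adjoin_simple_self ℚ (x ^ r)
    exact h1 (hs1 i)
  have hδy : (δ : Ω) * y ∈ ℚ⟮x ^ r⟯ := ℚ⟮x ^ r⟯.mul_mem (_root_.natCast_mem _ δ) hy
  have hw : ∀ i : Fin r, (if i = (⟨0, hr0⟩ : Fin r) then (δ : Ω) * y else 0) - s i ∈ ℚ⟮x ^ r⟯ := by
    intro i
    split_ifs
    · exact ℚ⟮x ^ r⟯.sub_mem hδy (hsK i)
    · exact ℚ⟮x ^ r⟯.sub_mem (zero_mem _) (hsK i)
  have hz : ∀ i : Fin r, (⟨(if i = (⟨0, hr0⟩ : Fin r) then (δ : Ω) * y else 0) - s i, hw i⟩ : ℚ⟮x ^ r⟯) = 0 := by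
    refine (Fintype.linearIndependent_iff.1 hI) _ ?_
    have h1 : ∀ i : Fin r, (⟨(if i = (⟨0, hr0⟩ : Fin r) then (δ : Ω) * y else 0) - s i, hw i⟩ : ℚ⟮x ^ r⟯) •
        x ^ (i : ℕ) = (if i = (⟨0, hr0⟩ : Fin r) then (δ : Ω) * y else 0) * x ^ (i : ℕ) - s i * x ^ (i : ℕ) := by
      intro i
      rw [Algebra.smul_def, ← sub_mul]
      rfl
    rw [Finset.sum_congr rfl fun i _ => h1 i, Finset.sum_sub_distrib, ← hs2, sub_eq_zero]
    rw [Finset.sum_eq_single (⟨0, hr0⟩ : Fin r)]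
    · rw [if_pos rfl, pow_zero, mul_one]
    · intro i _ hi
      rw [if_neg hi, zero_mul]
    · intro h
      exact absurd (Finset.mem_univ _) h
  have h2 := congrArg (fun z : ℚ⟮x ^ r⟯ => (z : Ω)) (hz ⟨0, hr0⟩)
  have h3 : (if (⟨0, hr0⟩ : Fin r) = (⟨0, hr0⟩ : Fin r) then (δ : Ω) * y else 0) - s ⟨0, hr0⟩ = 0 := h2
  rw [if_pos rfl, sub_eq_zero] at h3
  rw [h3]
  exact hs1 _

theorem ex_hom {Ω Ω' : Type} [Field Ω] [CharZero Ω] [Field Ω'] [CharZero Ω'] (φ : Ω →+* Ω')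
    (x : Ω) (δ : ℕ) : Ex (φ x) δ ↔ Ex x δ := by
  have h2 : (Algebra.adjoin ℤ ({x} : Set Ω)).map φ.toIntAlgHom = Algebra.adjoin ℤ ({φ x} : Set Ω') := by
    rw [AlgHom.map_adjoin, Set.image_singleton]
    rfl
  have h3 : ℚ⟮x⟯.map φ.toRatAlgHom = ℚ⟮φ x⟯ := by
    rw [IntermediateField.adjoin_map, Set.image_singleton]
    rfl
  constructor
  · intro H y hy hyi
    have h4 : φ y ∈ ℚ⟮φ x⟯ := by
      rw [← h3]
      exact ⟨y, hy, rfl⟩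
    have h5 : IsIntegral ℤ (φ y) := hyi.map φ.toIntAlgHom
    have h6 := H (φ y) h4 h5
    rw [← h2] at h6
    obtain ⟨z, hz, hzy⟩ := h6
    have h7 : φ z = φ ((δ : Ω) * y) := by
      rw [map_mul, map_natCast]
      exact hzy
    rw [← φ.injective h7]
    exact hz
  · intro H y hy hyi
    rw [← h3] at hy
    obtain ⟨z, hz, hzy⟩ := hy
    have hzy' : φ z = y := hzy
    rw [← hzy'] at hyi ⊢
    have h5 : IsIntegral ℤ z := (isIntegral_algHom_iff φ.toIntAlgHom φ.injective).1 hyi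
    have h6 := H z hz h5
    rw [← h2]
    refine ⟨(δ : Ω) * z, h6, ?_⟩
    change φ ((δ : Ω) * z) = (δ : Ω') * φ z
    rw [map_mul, map_natCast]

end Pool.Agent.H36.LH
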