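import Pool.Agent.H36.LG.MnA

/-!
# THEOREM L, version 4 (MP_187c26_nt): a minimal pair has full orbits for all primes

`RelC x α z u`: `z^M = x^(k M) (τ α)^(u M)` for some `M ≥ 1`, `k ∈ ℤ` and a ring homomorphism `τ : Ω → Ω`.
MODEL for parts: `exists_min` in `Pool/Agent/H36/LG/MnA.lean` (`dat_pow`, `degA`, `nd_FF`; copy the private lemmas), `kum` in `KmA.lean`. `Ω` is algebraically closed and algebraic over `ℚ`: every isomorphism of subfields extends to an automorphism of `Ω`.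
PROOF. `A := AA ξ`. Among all triples `(r, u, z)` with `r ∣ m`, `z ≠ 0`, `u ≥ 1`, `RelC x α z u` and `d' u ≤ d`, `d' := natDegree (minpoly (FF ξ ![x^r]) z)`, `d := natDegree (minpoly (FF ξ ![x]) α)` (`(1, 1, α)` is one), take one with `D := (m/r) d' = [A(x', z) : A]` minimal, `x' := x^r`, `m' := m/r`. Let `q` be a prime, `H := A(x'^q, z^q)`, `E := A(x', z)`, and suppose `H ≠ E`, so
`e := [E : H] > 1`, `[H : A] = D/e < D`. `F₀ := A(x'^q)`: `[F₀ : A] = m'/q` if `q ∣ m'` (`DatG b (m'/q) n ξ (x'^q)`), and `F₀ = A(x')` if `q ∤ m'` (Bezout, `x'^(m') = b`).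
Case 1: there is `y ∈ H` with `y^q = x'^q`. If `q ∤ m'` take `y := x'`, `τ' := id`; if `q ∣ m'`: `X^q - x'^q` is irreducible over `F₀` (degree `[A(x') : F₀] = q`), so there is an automorphism `τ'` of `Ω` over `F₀` (hence over `A`) with `τ' y = x'`. (1a) There is `w ∈ H` with `w^q = z^q`: the triple `(r, u, τ' w)`: `A(x', τ' w) = τ' A(y, w) ⊆ τ' H`, so its `D''` is `≤ [H : A] < D`,
`d'' = D''/m' ≤ d'`, contradiction. (1b) Otherwise `X^q - z^q` is irreducible over `H`, `e ≥ q`: the triple `(r, u q, τ' z^q)`: `A(x', τ' z^q) ⊆ τ' H`, `d'' ≤ [H : A]/m' = d'/e ≤ d'/q`, `d'' u q ≤ d' u`: contradiction.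
Case 2: there is no such `y` (so `q ∣ m'`): `[H(x') : H] = q`. (2a) `z^q = y'^q` with `y' ∈ H(x')`: `kum` (over `H`): `z^q = (x'^j w)^q`, `w ∈ H`: the triple `(r q, u, w)`: `A(x'^q, w) ⊆ H`, `d'' = [A(x'^q, w) : A]/(m'/q) ≤ q d'/e ≤ d'` (`e ≥ q`), `D'' ≤ [H : A] < D`: contradiction.
(2b) Otherwise `X^q - z^q` is irreducible over `H(x')`, `e ≥ q^2`: the triple `(r q, u q, z^q)`: `D'' = [H : A] < D`, `d'' = q d'/e ≤ d'/q`: contradiction.
The relations: if `z^M = x^(k M) (τ α)^(u M)` then `(τ' z)^M = (τ' x)^(k M) (τ' τ α)^(u M)` and `(τ' x)^m = b = x^m`, so the power `m` of this has `x` in the place of `τ' x`; `w^q = z^q` gives the relation for `w` with `M q`; `z^q`: `k q`, `u q`; `w^q = z^q x'^(- j q)`: `k - r j`.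
So for the minimal triple `H = E` for all primes `q`.
-/

set_option autoImplicit false

open NumberField IntermediateField

namespace Pool.Agent.H36.LH

open Pool.Agent.H36.LE Pool.Agent.H36.LF Pool.Agent.H36.LG Pool.Agent.H72.BE

section abs

open Polynomial

variable {k E : Type} [Field k] [CharZero k] [Field E] [Algebra k E]

omit [CharZero k] in
private theorem fin_adj (F : IntermediateField k E) [FiniteDimensional k F] (z : E) (hz : IsIntegral F z) :
    Module.finrank k (F⟮z⟯.restrictScalars k) =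
      Module.finrank k F * (minpoly F z).natDegree := by
  have h1 : Module.finrank F F⟮z⟯ = (minpoly F z).natDegree :=
    IntermediateField.adjoin.finrank hz
  have h2 : Module.finrank k F * Module.finrank F F⟮z⟯ = Module.finrank k F⟮z⟯ :=
    Module.finrank_mul_finrank k F F⟮z⟯
  rw [h1] at h2
  rw [h2]
  rfl

omit [CharZero k] in
private theorem fd_adj (F : IntermediateField k E) [FiniteDimensional k F] (z : E) (hz : IsIntegral F z) :
    FiniteDimensional k (F⟮z⟯.restrictScalars k) := by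
  have : FiniteDimensional F F⟮z⟯ := IntermediateField.adjoin.finiteDimensional hz
  have : FiniteDimensional k F⟮z⟯ := FiniteDimensional.trans k F F⟮z⟯
  exact this

omit [CharZero k] in
private theorem fd_pair (y z : E) (hy : IsIntegral k y) (hz : IsIntegral k z) :
    FiniteDimensional k (IntermediateField.adjoin k ({y, z} : Set E)) := by
  apply IntermediateField.finiteDimensional_adjoin
  intro w hw
  simp only [Set.mem_insert_iff, Set.mem_singleton_iff] at hw
  rcases hw with rfl | rfl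
  · exact hy
  · exact hz

omit [CharZero k] in
private theorem fin_pair (y z : E) (hy : IsIntegral k y) (hz : IsIntegral k z) :
    Module.finrank k (IntermediateField.adjoin k ({y, z} : Set E)) =
      Module.finrank k k⟮y⟯ * (minpoly k⟮y⟯ z).natDegree := by
  have : FiniteDimensional k k⟮y⟯ := IntermediateField.adjoin.finiteDimensional hy
  rw [← fin_adj k⟮y⟯ z hz.tower_top, IntermediateField.adjoin_simple_adjoin_simple]

omit [CharZero k] in
/-- an element whose power `q` is no power `q` in `K` -/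
private theorem pw (K L : IntermediateField k E) [FiniteDimensional k K] [FiniteDimensional k L]
    (hKL : K ≤ L) (q : ℕ) (hq : q.Prime) (a : E) (haK : a ^ q ∈ K) (haL : a ∈ L)
    (ha : IsIntegral k a) (hno : ∀ w ∈ K, w ^ q ≠ a ^ q) :
    q * Module.finrank k K ≤ Module.finrank k L := by
  have hirr : Irreducible (X ^ q - C (⟨a ^ q, haK⟩ : K) : K[X]) := by
    apply X_pow_sub_C_irreducible_of_prime hq
    intro z hz
    exact hno (z : E) z.2 (congrArg Subtype.val hz)
  have hmp : minpoly K a = X ^ q - C (⟨a ^ q, haK⟩ : K) := by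
    refine (minpoly.eq_of_irreducible_of_monic hirr ?_ (monic_X_pow_sub_C _ hq.ne_zero)).symm
    rw [map_sub, map_pow, aeval_X, aeval_C]
    exact sub_self _
  have h1 := fin_adj K a ha.tower_top
  rw [hmp, natDegree_X_pow_sub_C] at h1
  have h2 : K⟮a⟯.restrictScalars k ≤ L := by
    intro w hw
    have h4 : K⟮a⟯ ≤ IntermediateField.extendScalars hKL := by
      rw [IntermediateField.adjoin_simple_le_iff]
      exact haL
    exact h4 hw
  have h3 := IntermediateField.finrank_le_of_le_right h2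
  rw [h1] at h3
  rw [mul_comm]
  exact h3

omit [CharZero k] in
private theorem fin_img (τ : E ≃ₐ[k] E) (H : IntermediateField k E) [FiniteDimensional k H] (a b : E)
    (ha : a ∈ H) (hb : b ∈ H) :
    Module.finrank k (IntermediateField.adjoin k ({τ a, τ b} : Set E)) ≤ Module.finrank k H := by
  have h1 : IntermediateField.adjoin k ({τ a, τ b} : Set E) ≤ H.map τ.toAlgHom := by
    rw [IntermediateField.adjoin_le_iff]
    intro w hw
    simp only [Set.mem_insert_iff, Set.mem_singleton_iff] at hw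
    rcases hw with rfl | rfl
    · exact ⟨a, ha, rfl⟩
    · exact ⟨b, hb, rfl⟩
  have e := IntermediateField.intermediateFieldMap τ H
  have : FiniteDimensional k (H.map τ.toAlgHom) := Module.Finite.equiv e.toLinearEquiv
  have h2 := IntermediateField.finrank_le_of_le_right h1
  rwa [← e.toLinearEquiv.finrank_eq] at h2

/-- the step of the descent at the prime `q` -/
private theorem step [IsAlgClosed E] [Algebra.IsAlgebraic k E] (q : ℕ) (hq : q.Prime) (x z : E)
    (hz0 : z ≠ 0)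
    (hqx : x ∈ k⟮x ^ q⟯ ∨ Module.finrank k k⟮x⟯ = q * Module.finrank k k⟮x ^ q⟯)
    (hne : ¬ (x ∈ IntermediateField.adjoin k ({x ^ q, z ^ q} : Set E) ∧
      z ∈ IntermediateField.adjoin k ({x ^ q, z ^ q} : Set E))) :
    Module.finrank k (IntermediateField.adjoin k ({x ^ q, z ^ q} : Set E)) <
      Module.finrank k (IntermediateField.adjoin k ({x, z} : Set E)) ∧
    ((∃ (τ : E ≃ₐ[k] E) (w : E), w ^ q = z ^ q ∧
        Module.finrank k (IntermediateField.adjoin k ({x, τ w} : Set E)) ≤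
          Module.finrank k (IntermediateField.adjoin k ({x ^ q, z ^ q} : Set E))) ∨
     (∃ (τ : E ≃ₐ[k] E), q * Module.finrank k (IntermediateField.adjoin k ({x ^ q, z ^ q} : Set E)) ≤
          Module.finrank k (IntermediateField.adjoin k ({x, z} : Set E)) ∧
        Module.finrank k (IntermediateField.adjoin k ({x, τ (z ^ q)} : Set E)) ≤
          Module.finrank k (IntermediateField.adjoin k ({x ^ q, z ^ q} : Set E))) ∨
     (Module.finrank k k⟮x⟯ = q * Module.finrank k k⟮x ^ q⟯ ∧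
        q * Module.finrank k (IntermediateField.adjoin k ({x ^ q, z ^ q} : Set E)) ≤
          Module.finrank k (IntermediateField.adjoin k ({x, z} : Set E)) ∧
        ∃ (j : ℕ) (w : E), z ^ q = (x ^ j * w) ^ q ∧
        Module.finrank k (IntermediateField.adjoin k ({x ^ q, w} : Set E)) ≤
          Module.finrank k (IntermediateField.adjoin k ({x ^ q, z ^ q} : Set E))) ∨
     (Module.finrank k k⟮x⟯ = q * Module.finrank k k⟮x ^ q⟯ ∧
        q * (q * Module.finrank k (IntermediateField.adjoin k ({x ^ q, z ^ q} : Set E))) ≤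
          Module.finrank k (IntermediateField.adjoin k ({x, z} : Set E)))) := by
  classical
  have hq0 : q ≠ 0 := hq.ne_zero
  have hi : ∀ y : E, IsIntegral k y := fun y => Algebra.IsIntegral.isIntegral y
  set H : IntermediateField k E := IntermediateField.adjoin k ({x ^ q, z ^ q} : Set E) with hH
  set L : IntermediateField k E := IntermediateField.adjoin k ({x, z} : Set E) with hL
  have hHfd : FiniteDimensional k H := fd_pair _ _ (hi _) (hi _)
  have hLfd : FiniteDimensional k L := fd_pair _ _ (hi _) (hi _)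
  have hxL : x ∈ L := IntermediateField.subset_adjoin _ _ (by simp)
  have hzL : z ∈ L := IntermediateField.subset_adjoin _ _ (by simp)
  have hxH : x ^ q ∈ H := IntermediateField.subset_adjoin _ _ (by simp)
  have hzH : z ^ q ∈ H := IntermediateField.subset_adjoin _ _ (by simp)
  have hHL : H ≤ L := by
    rw [hH, IntermediateField.adjoin_le_iff]
    intro w hw
    simp only [Set.mem_insert_iff, Set.mem_singleton_iff] at hw
    rcases hw with rfl | rfl
    · exact pow_mem hxL q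
    · exact pow_mem hzL q
  have hlt : Module.finrank k H < Module.finrank k L := by
    refine lt_of_le_of_ne (IntermediateField.finrank_le_of_le_right hHL) fun he => hne ?_
    have := IntermediateField.eq_of_le_of_finrank_eq hHL he
    rw [this]
    exact ⟨hxL, hzL⟩
  refine ⟨hlt, ?_⟩
  have hF0H : k⟮x ^ q⟯ ≤ H := by
    rw [IntermediateField.adjoin_simple_le_iff]
    exact hxH
  by_cases hy : ∃ y ∈ H, y ^ q = x ^ q
  · -- Case 1
    have hτ : ∃ (τ : E ≃ₐ[k] E) (y : E), y ∈ H ∧ τ y = x := by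
      rcases hqx with hqx | hqx
      · exact ⟨AlgEquiv.refl, x, hF0H hqx, rfl⟩
      · obtain ⟨y, hyH, hyq⟩ := hy
        have hxF0 : x ^ q ∈ k⟮x ^ q⟯ := IntermediateField.mem_adjoin_simple_self k (x ^ q)
        have hF0fd : FiniteDimensional k k⟮x ^ q⟯ := IntermediateField.adjoin.finiteDimensional (hi _)
        have hN0 : 0 < Module.finrank k k⟮x ^ q⟯ := Module.finrank_pos
        have hroot : ∀ y : E, y ^ q = x ^ q →
            aeval y (X ^ q - C (⟨x ^ q, hxF0⟩ : k⟮x ^ q⟯) : (k⟮x ^ q⟯)[X]) = 0 := by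
          intro y hy
          rw [map_sub, map_pow, aeval_X, aeval_C, hy]
          exact sub_self _
        have hmon0 : (X ^ q - C (⟨x ^ q, hxF0⟩ : k⟮x ^ q⟯) : (k⟮x ^ q⟯)[X]).Monic :=
          monic_X_pow_sub_C _ hq0
        have hdeg0 : (X ^ q - C (⟨x ^ q, hxF0⟩ : k⟮x ^ q⟯) : (k⟮x ^ q⟯)[X]).natDegree = q :=
          natDegree_X_pow_sub_C
        have hix : IsIntegral k⟮x ^ q⟯ x := (hi x).tower_top
        have hge : q ≤ (minpoly k⟮x ^ q⟯ x).natDegree := by
          have h1 := fin_adj k⟮x ^ q⟯ x hix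
          have := fd_adj k⟮x ^ q⟯ x hix
          have h2 : k⟮x⟯ ≤ (k⟮x ^ q⟯⟮x⟯).restrictScalars k := by
            rw [IntermediateField.adjoin_simple_le_iff]
            exact IntermediateField.mem_adjoin_simple_self k⟮x ^ q⟯ x
          have h3 := IntermediateField.finrank_le_of_le_right h2
          rw [h1, hqx, mul_comm] at h3
          exact Nat.le_of_mul_le_mul_left h3 hN0
        have hmpx : minpoly k⟮x ^ q⟯ x = X ^ q - C (⟨x ^ q, hxF0⟩ : k⟮x ^ q⟯) := by
          have h1 : minpoly k⟮x ^ q⟯ x ∣ X ^ q - C (⟨x ^ q, hxF0⟩ : k⟮x ^ q⟯) :=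
            minpoly.dvd _ x (hroot x rfl)
          exact (Polynomial.eq_of_monic_of_dvd_of_natDegree_le (minpoly.monic hix) hmon0 h1
            (by rw [hdeg0]; exact hge)).symm
        have hirr0 : Irreducible (X ^ q - C (⟨x ^ q, hxF0⟩ : k⟮x ^ q⟯) : (k⟮x ^ q⟯)[X]) := by
          rw [← hmpx]
          exact minpoly.irreducible hix
        have hmpy : minpoly k⟮x ^ q⟯ y = X ^ q - C (⟨x ^ q, hxF0⟩ : k⟮x ^ q⟯) :=
          (minpoly.eq_of_irreducible_of_monic hirr0 (hroot y hyq) hmon0).symm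
        have : Algebra.IsAlgebraic k⟮x ^ q⟯ E := Algebra.IsAlgebraic.tower_top (K := k) k⟮x ^ q⟯
        have : IsAlgClosure k⟮x ^ q⟯ E := ⟨inferInstance, inferInstance⟩
        have : Normal k⟮x ^ q⟯ E := IsAlgClosure.normal k⟮x ^ q⟯ E
        obtain ⟨σ, hσ⟩ := (Normal.minpoly_eq_iff_mem_orbit (F := k⟮x ^ q⟯) (E := E) (x := x) (y := y)).1
          (by rw [hmpx, hmpy])
        exact ⟨AlgEquiv.restrictScalars k σ, y, hyH, hσ⟩
    obtain ⟨τ, y, hyH, hτy⟩ := hτ
    by_cases hw : ∃ w ∈ H, w ^ q = z ^ q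
    · left
      obtain ⟨w, hwH, hwq⟩ := hw
      refine ⟨τ, w, hwq, ?_⟩
      have := fin_img τ H y w hyH hwH
      rwa [hτy] at this
    · right; left
      push Not at hw
      refine ⟨τ, pw H L hHL q hq z hzH hzL (hi z) hw, ?_⟩
      have := fin_img τ H y (z ^ q) hyH hzH
      rwa [hτy] at this
  · -- Case 2
    push Not at hy
    have hqx' : Module.finrank k k⟮x⟯ = q * Module.finrank k k⟮x ^ q⟯ := by
      rcases hqx with hqx | hqx
      · exact absurd rfl (hy x (hF0H hqx))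
      · exact hqx
    have hixH : IsIntegral H x := (hi x).tower_top
    have := fd_adj H x hixH
    have hHx : H ≤ H⟮x⟯.restrictScalars k := by
      intro w hw
      have : algebraMap H E ⟨w, hw⟩ ∈ H⟮x⟯ := IntermediateField.algebraMap_mem _ _
      exact this
    have hxx : x ∈ H⟮x⟯.restrictScalars k := IntermediateField.mem_adjoin_simple_self H x
    have h1 := pw H (H⟮x⟯.restrictScalars k) hHx q hq x hxH hxx (hi x) hy
    have hxL' : H⟮x⟯.restrictScalars k ≤ L := by
      intro w hw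
      have h4 : H⟮x⟯ ≤ IntermediateField.extendScalars hHL := by
        rw [IntermediateField.adjoin_simple_le_iff]
        exact hxL
      exact h4 hw
    by_cases hw : ∃ w ∈ H⟮x⟯, w ^ q = z ^ q
    · right; right; left
      obtain ⟨y, hy1, hyq⟩ := hw
      have hy0 : y ≠ 0 := by
        intro h0
        rw [h0, zero_pow hq0] at hyq
        exact pow_ne_zero q hz0 hyq.symm
      have : CharZero H := charZero_of_injective_algebraMap (algebraMap k H).injective
      obtain ⟨j, w, hjw⟩ := kum (H := H) (E := E) q hq (⟨x ^ q, hxH⟩ : H) x y rfl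
        (fun w hw => hy (w : E) w.2 (congrArg Subtype.val hw)) hy1 hy0 (⟨z ^ q, hzH⟩ : H) hyq
      refine ⟨hqx', h1.trans (IntermediateField.finrank_le_of_le_right hxL'), j, (w : E), ?_, ?_⟩
      · rw [← hyq, hjw]
        rfl
      · have := fin_img AlgEquiv.refl H (x ^ q) (w : E) hxH w.2
        exact this
    · right; right; right
      push Not at hw
      refine ⟨hqx', ?_⟩
      have h2 := pw (H⟮x⟯.restrictScalars k) L hxL' q hq z (hHx hzH) hzL (hi z) hw
      exact (Nat.mul_le_mul_left q h1).trans h2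

end abs

/-- `z^M = x^(k M) (τ α)^(u M)`. -/
def RelC {Ω : Type} [Field Ω] (x α z : Ω) (u : ℕ) : Prop :=
  ∃ (M : ℕ) (k : ℤ) (τ : Ω →+* Ω), 1 ≤ M ∧ z ^ M = x ^ (k * M) * (τ α) ^ (u * M)

variable {Ω : Type} [Field Ω] [CharZero Ω] [Algebra.IsAlgebraic ℚ Ω] [IsAlgClosed Ω]
  {b m n : ℕ} {ξ x : Ω}

omit [Algebra.IsAlgebraic ℚ Ω] [IsAlgClosed Ω] in
private theorem rs_eq (ξ y : Ω) : (IntermediateField.adjoin (AA ξ) ({y} : Set Ω)).restrictScalars ℚ =
    FF ξ ![y] := by
  refine (IntermediateField.adjoin_adjoin_left ℚ ({ξ} : Set Ω) ({y} : Set Ω)).trans ?_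
  unfold FF
  congr 1
  ext w
  simp

omit [Algebra.IsAlgebraic ℚ Ω] [IsAlgClosed Ω] in
private theorem dat_pow (h : DatG b m n ξ x) (r : ℕ) (hr : r ∣ m) :
    DatG b (m / r) n ξ (x ^ r) := by
  obtain ⟨s, rfl⟩ := hr
  have hm1 := h.hm
  have hr0 : 0 < r := Nat.pos_of_ne_zero (by rintro rfl; simp at hm1)
  have hs0 : 0 < s := Nat.pos_of_ne_zero (by rintro rfl; simp at hm1)
  rw [Nat.mul_div_cancel_left s hr0]
  have hpow : (x ^ r) ^ s = (b : Ω) := by rw [← pow_mul]; exact h.pow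
  refine ⟨h.two, hs0, h.hn, ?_, h.prim, hpow, ?_⟩
  · refine Nat.Coprime.coprime_dvd_right ?_ h.cop
    rw [mul_assoc]
    exact dvd_mul_left _ _
  · have hxi : IsIntegral ℚ x := h.integral_x.tower_top
    have hyi : IsIntegral ℚ (x ^ r) := hxi.pow r
    have hF0 : FiniteDimensional ℚ ℚ⟮x ^ r⟯ := IntermediateField.adjoin.finiteDimensional hyi
    have h1 : Module.finrank ℚ ℚ⟮x ^ r⟯ ≤ s := by
      rw [IntermediateField.adjoin.finrank hyi]
      have h2 : minpoly ℚ (x ^ r) ∣ Polynomial.X ^ s - Polynomial.C (b : ℚ) :=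
        minpoly.dvd ℚ _ (by simp [hpow])
      have h3 := Polynomial.natDegree_le_of_dvd h2 (Polynomial.X_pow_sub_C_ne_zero hs0 _)
      rwa [Polynomial.natDegree_X_pow_sub_C] at h3
    have hxF : IsIntegral ℚ⟮x ^ r⟯ x := hxi.tower_top
    have h4 : (minpoly ℚ⟮x ^ r⟯ x).natDegree ≤ r := by
      have h5 : minpoly ℚ⟮x ^ r⟯ x ∣ Polynomial.X ^ r -
          Polynomial.C (IntermediateField.AdjoinSimple.gen ℚ (x ^ r)) :=
        minpoly.dvd _ _ (by simp [IntermediateField.AdjoinSimple.algebraMap_gen])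
      have h6 := Polynomial.natDegree_le_of_dvd h5 (Polynomial.X_pow_sub_C_ne_zero hr0 _)
      rwa [Polynomial.natDegree_X_pow_sub_C] at h6
    have hF1 : FiniteDimensional ℚ⟮x ^ r⟯ (ℚ⟮x ^ r⟯)⟮x⟯ :=
      IntermediateField.adjoin.finiteDimensional hxF
    have hF2 : FiniteDimensional ℚ (ℚ⟮x ^ r⟯)⟮x⟯ := FiniteDimensional.trans ℚ ℚ⟮x ^ r⟯ _
    have h7 : Module.finrank ℚ ℚ⟮x ^ r⟯ * Module.finrank ℚ⟮x ^ r⟯ (ℚ⟮x ^ r⟯)⟮x⟯ =
        Module.finrank ℚ (ℚ⟮x ^ r⟯)⟮x⟯ := Module.finrank_mul_finrank _ _ _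
    rw [IntermediateField.adjoin.finrank hxF] at h7
    have h8 : Module.finrank ℚ ℚ⟮x⟯ ≤ Module.finrank ℚ (ℚ⟮x ^ r⟯)⟮x⟯ := by
      have h9 : ℚ⟮x⟯ ≤ ((ℚ⟮x ^ r⟯)⟮x⟯).restrictScalars ℚ := by
        rw [IntermediateField.adjoin_simple_le_iff]
        exact IntermediateField.mem_adjoin_simple_self _ x
      haveI : FiniteDimensional ℚ (((ℚ⟮x ^ r⟯)⟮x⟯).restrictScalars ℚ) := hF2
      exact IntermediateField.finrank_le_of_le_right h9
    rw [h.deg, ← h7] at h8
    have h10 : r * s ≤ r * Module.finrank ℚ ℚ⟮x ^ r⟯ := by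
      refine h8.trans ?_
      rw [mul_comm r]
      exact Nat.mul_le_mul_left _ h4
    have h11 := Nat.le_of_mul_le_mul_left h10 hr0
    omega

omit [Algebra.IsAlgebraic ℚ Ω] [IsAlgClosed Ω] in
private theorem degA (h : DatG b m n ξ x) :
    Module.finrank (AA ξ) (IntermediateField.adjoin (AA ξ) ({x} : Set Ω)) = m := by
  haveI := h.nf_A
  haveI := h.nf_F
  have h1 := degG h
  have h2 := Module.finrank_mul_finrank ℚ (AA ξ) (FF ξ ![x])
  have hxi : IsIntegral (AA ξ) x := h.integral_x.tower_top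
  have h3 := Module.finrank_mul_finrank ℚ (AA ξ) (IntermediateField.adjoin (AA ξ) ({x} : Set Ω))
  have h4 : Module.finrank ℚ (IntermediateField.adjoin (AA ξ) ({x} : Set Ω)) =
      Module.finrank ℚ (FF ξ ![x]) := by
    have h5 := congrArg (fun K : IntermediateField ℚ Ω => Module.finrank ℚ K) (rs_eq ξ x)
    exact h5
  rw [h4, ← h2, h1] at h3
  exact Nat.eq_of_mul_eq_mul_left Module.finrank_pos h3

omit [CharZero Ω] [Algebra.IsAlgebraic ℚ Ω] [IsAlgClosed Ω] in
private theorem zhelp (x y z : Ω) (k : ℤ) (M u s : ℕ) (h : z ^ M = x ^ (k * M) * y ^ (u * M)) :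
    (z ^ M) ^ s = x ^ (k * ((M * s : ℕ) : ℤ)) * y ^ (u * (M * s)) := by
  rw [h, mul_pow, ← pow_mul, mul_assoc u M s]
  congr 1
  rw [← zpow_natCast, ← zpow_mul]
  congr 1
  push_cast
  ring

omit [CharZero Ω] [Algebra.IsAlgebraic ℚ Ω] [IsAlgClosed Ω] in
/-- `τ (x^(c m)) = x^(c m)` -/
private theorem tau_x (τ : Ω →+* Ω) (hx : x ^ m = (b : Ω)) (c : ℤ) :
    τ (x ^ (c * (m : ℤ))) = x ^ (c * (m : ℤ)) := by
  rw [mul_comm, zpow_mul, zpow_natCast, hx, map_zpow₀, map_natCast]

omit [CharZero Ω] [Algebra.IsAlgebraic ℚ Ω] [IsAlgClosed Ω] in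
private theorem relC_img {α z w : Ω} {u : ℕ} (hm : 1 ≤ m) (hx : x ^ m = (b : Ω)) (h : RelC x α z u)
    (τ : Ω →+* Ω) (q c : ℕ) (hc : 1 ≤ c) (hw : w ^ c = z ^ q) (v : ℕ) (k' : ℤ → ℤ)
    (hv : u * q = v * c) (hk : ∀ k : ℤ, k * q = k' k * c) : RelC x α (τ w) v := by
  obtain ⟨M, k, τ₀, hM, hrel⟩ := h
  refine ⟨c * M * m, k' k, τ.comp τ₀, ?_, ?_⟩
  · exact Nat.mul_pos (Nat.mul_pos hc hM) hm
  · have h1 : w ^ (c * M * m) = (z ^ M) ^ (q * m) := by
      rw [mul_assoc, pow_mul, hw, ← pow_mul, ← pow_mul]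
      congr 1
      ring
    rw [← map_pow, h1, zhelp x (τ₀ α) z k M u (q * m) hrel, map_mul, map_pow, RingHom.comp_apply]
    have h2 : k * ((M * (q * m) : ℕ) : ℤ) = (k' k * ((c * M : ℕ) : ℤ)) * (m : ℤ) := by
      have := hk k
      push_cast
      linear_combination ((M : ℤ) * m) * this
    rw [h2, tau_x τ hx]
    congr 1
    · congr 1
      push_cast
      ring
    · congr 1
      calc u * (M * (q * m)) = (u * q) * (M * m) := by ring
        _ = (v * c) * (M * m) := by rw [hv]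
        _ = v * (c * M * m) := by ring

omit [CharZero Ω] [Algebra.IsAlgebraic ℚ Ω] [IsAlgClosed Ω] in
private theorem relC_shift {α z w : Ω} {u : ℕ} (hx0 : x ≠ 0) (h : RelC x α z u) (q r j : ℕ)
    (hq : 1 ≤ q) (hw : z ^ q = ((x ^ r) ^ j * w) ^ q) : RelC x α w u := by
  obtain ⟨M, k, τ₀, hM, hrel⟩ := h
  refine ⟨q * M, k - r * j, τ₀, Nat.mul_pos hq hM, ?_⟩
  have h1 : (z ^ M) ^ q = x ^ (((r * j * q * M : ℕ) : ℤ)) * w ^ (q * M) := by
    rw [← pow_mul, mul_comm M q, pow_mul, hw, ← pow_mul, mul_pow, ← pow_mul, ← pow_mul, zpow_natCast]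
    congr 2
    ring
  rw [zhelp x (τ₀ α) z k M u q hrel] at h1
  have h2 : x ^ (((r * j * q * M : ℕ) : ℤ)) ≠ 0 := zpow_ne_zero _ hx0
  apply mul_left_cancel₀ h2
  rw [← h1]
  have e : x ^ (k * ((M * q : ℕ) : ℤ)) =
      x ^ (((r * j * q * M : ℕ) : ℤ)) * x ^ ((k - r * j) * ((q * M : ℕ) : ℤ)) := by
    rw [← zpow_add₀ hx0]
    congr 1
    push_cast
    ring
  rw [e, mul_assoc]
  congr 2
  congr 1
  ring

theorem exists_minC (h : DatG b m n ξ x) (α : Ω) (hα : α ≠ 0) :
    ∃ (r u : ℕ) (z : Ω), r ∣ m ∧ z ≠ 0 ∧ 1 ≤ u ∧ RelC x α z u ∧ DatG b (m / r) n ξ (x ^ r) ∧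
      (minpoly (FF ξ ![x ^ r]) z).natDegree * u ≤ (minpoly (FF ξ ![x]) α).natDegree ∧
      ∀ q : ℕ, q.Prime →
        x ^ r ∈ IntermediateField.adjoin (AA ξ) ({(x ^ r) ^ q, z ^ q} : Set Ω) ∧
        z ∈ IntermediateField.adjoin (AA ξ) ({(x ^ r) ^ q, z ^ q} : Set Ω) := by
  classical
  have hm0 : m ≠ 0 := by have := h.hm; omega
  have hb0 : (b : Ω) ≠ 0 := Nat.cast_ne_zero.2 (by have := h.two; omega)
  have hx0 : x ≠ 0 := by
    rintro rfl
    have h2 := h.pow
    rw [zero_pow hm0] at h2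
    exact hb0 h2.symm
  have : Algebra.IsAlgebraic (AA ξ) Ω := Algebra.IsAlgebraic.tower_top (K := ℚ) (AA ξ)
  have hi : ∀ y : Ω, IsIntegral (AA ξ) y := fun y => Algebra.IsIntegral.isIntegral y
  obtain ⟨d, hd⟩ : ∃ d, d = (minpoly (FF ξ ![x]) α).natDegree := ⟨_, rfl⟩
  have hP : ∃ D : ℕ, ∃ (r u : ℕ) (z : Ω), r ∣ m ∧ z ≠ 0 ∧ 1 ≤ u ∧ RelC x α z u ∧
      (minpoly (FF ξ ![x ^ r]) z).natDegree * u ≤ d ∧
      Module.finrank (AA ξ) (IntermediateField.adjoin (AA ξ) ({x ^ r, z} : Set Ω)) = D :=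
    ⟨_, 1, 1, α, one_dvd _, hα, le_rfl, ⟨1, 0, RingHom.id Ω, le_rfl, by simp⟩,
      by rw [pow_one, mul_one, hd], rfl⟩
  obtain ⟨r, u, z, hrm, hz, hu, hrel, hdeg, hD⟩ := Nat.find_spec hP
  have hmin : ∀ (r' u' : ℕ) (z' : Ω), r' ∣ m → z' ≠ 0 → 1 ≤ u' → RelC x α z' u' →
      (minpoly (FF ξ ![x ^ r']) z').natDegree * u' ≤ d →
      ¬ Module.finrank (AA ξ) (IntermediateField.adjoin (AA ξ) ({x ^ r', z'} : Set Ω)) <
        Module.finrank (AA ξ) (IntermediateField.adjoin (AA ξ) ({x ^ r, z} : Set Ω)) := by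
    intro r' u' z' h1 h2 h3 h4 h5 h6
    rw [hD] at h6
    exact Nat.find_min hP h6 ⟨r', u', z', h1, h2, h3, h4, h5, rfl⟩
  have hd' : DatG b (m / r) n ξ (x ^ r) := dat_pow h r hrm
  refine ⟨r, u, z, hrm, hz, hu, hrel, hd', by rw [← hd]; exact hdeg, fun q hq => ?_⟩
  by_contra hne
  have hr0 : 0 < r := Nat.pos_of_dvd_of_pos hrm (Nat.pos_of_ne_zero hm0)
  have hdA := degA hd'
  have hmr : 0 < m / r := hd'.hm
  have hqx : x ^ r ∈ IntermediateField.adjoin (AA ξ) ({(x ^ r) ^ q} : Set Ω) ∨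
      Module.finrank (AA ξ) (IntermediateField.adjoin (AA ξ) ({x ^ r} : Set Ω)) =
      q * Module.finrank (AA ξ) (IntermediateField.adjoin (AA ξ) ({(x ^ r) ^ q} : Set Ω)) := by
    by_cases hqm : q ∣ m / r
    · right
      rw [hdA, degA (dat_pow hd' q hqm), Nat.mul_div_cancel' hqm]
    · left
      have hcop : Nat.Coprime q (m / r) := (Nat.Prime.coprime_iff_not_dvd hq).2 hqm
      have h1 : (1 : ℤ) = q * Nat.gcdA q (m / r) + (m / r : ℕ) * Nat.gcdB q (m / r) := by
        rw [← Nat.gcd_eq_gcd_ab, hcop.gcd_eq_one]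
        rfl
      have h2 : x ^ r = ((x ^ r) ^ q) ^ (Nat.gcdA q (m / r)) *
          (((b : ℕ) : Ω)) ^ (Nat.gcdB q (m / r)) := by
        have hx'0 : x ^ r ≠ 0 := pow_ne_zero _ hx0
        rw [← hd'.pow, ← zpow_natCast (x ^ r) q, ← zpow_natCast (x ^ r) (m / r), ← zpow_mul, ← zpow_mul,
          ← zpow_add₀ hx'0, ← h1, zpow_one]
      rw [h2]
      refine mul_mem (zpow_mem (IntermediateField.subset_adjoin _ _ (by rw [← h2]; exact Set.mem_singleton _)) _)
        (zpow_mem (_root_.natCast_mem _ _) _)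
  obtain ⟨hlt, hcases⟩ := step (k := AA ξ) (E := Ω) q hq (x ^ r) z hz hqx hne
  have hDf : Module.finrank (AA ξ) (IntermediateField.adjoin (AA ξ) ({x ^ r, z} : Set Ω)) =
      m / r * (minpoly (FF ξ ![x ^ r]) z).natDegree := by
    rw [fin_pair _ _ (hi _) (hi _), hdA, nd_FF]
  rcases hcases with ⟨τ, w, hwq, hle⟩ | ⟨τ, hqh, hle⟩ | ⟨hqx', hqh, j, w, hzw, hle⟩ | ⟨hqx', hqh⟩
  · -- (1a)
    have hw0 : w ≠ 0 := by
      rintro rfl
      rw [zero_pow hq.ne_zero] at hwq
      exact pow_ne_zero q hz hwq.symm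
    refine hmin r u (τ w) hrm ((map_ne_zero_iff _ τ.injective).2 hw0) hu
      (relC_img h.hm h.pow hrel (τ : Ω →+* Ω) q q hq.pos hwq u id rfl (fun _ => rfl)) ?_
      (lt_of_le_of_lt hle hlt)
    have h1 : m / r * (minpoly (FF ξ ![x ^ r]) (τ w)).natDegree ≤
        m / r * (minpoly (FF ξ ![x ^ r]) z).natDegree := by
      rw [← hDf, ← nd_FF ξ (x ^ r) (τ w), ← hdA, ← fin_pair _ _ (hi _) (hi _)]
      exact hle.trans hlt.le
    exact (Nat.mul_le_mul_right u (Nat.le_of_mul_le_mul_left h1 hmr)).trans hdeg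
  · -- (1b)
    refine hmin r (u * q) (τ (z ^ q)) hrm ((map_ne_zero_iff _ τ.injective).2 (pow_ne_zero q hz))
      (Nat.mul_pos hu hq.pos)
      (relC_img h.hm h.pow hrel (τ : Ω →+* Ω) q 1 le_rfl (pow_one _) (u * q) (fun k => k * q)
        (by ring) (fun k => by push_cast; ring)) ?_ (lt_of_le_of_lt hle hlt)
    have h1 : m / r * (minpoly (FF ξ ![x ^ r]) (τ (z ^ q))).natDegree * q ≤
        m / r * (minpoly (FF ξ ![x ^ r]) z).natDegree := by
      rw [← hDf, ← nd_FF ξ (x ^ r) (τ (z ^ q)), ← hdA, ← fin_pair _ _ (hi _) (hi _)]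
      calc _ ≤ _ := Nat.mul_le_mul_right q hle
        _ = _ := Nat.mul_comm _ _
        _ ≤ _ := hqh
    have h2 : m / r * ((minpoly (FF ξ ![x ^ r]) (τ (z ^ q))).natDegree * q) ≤
        m / r * (minpoly (FF ξ ![x ^ r]) z).natDegree := by
      rw [← mul_assoc]
      exact h1
    have h3 := Nat.le_of_mul_le_mul_left h2 hmr
    calc (minpoly (FF ξ ![x ^ r]) (τ (z ^ q))).natDegree * (u * q) =
        (minpoly (FF ξ ![x ^ r]) (τ (z ^ q))).natDegree * q * u := by ring
      _ ≤ (minpoly (FF ξ ![x ^ r]) z).natDegree * u := Nat.mul_le_mul_right u h3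
      _ ≤ d := hdeg
  · -- (2a)
    have hqm : q ∣ m / r := by
      rw [hdA] at hqx'
      exact ⟨_, hqx'⟩
    have hrq : r * q ∣ m := by
      have h2 := Nat.mul_dvd_mul_left r hqm
      rwa [Nat.mul_div_cancel' hrm] at h2
    have hd2 : DatG b (m / (r * q)) n ξ (x ^ (r * q)) := dat_pow h (r * q) hrq
    have hdA2 := degA hd2
    have hM2 : m / r = q * (m / (r * q)) := by
      rw [← Nat.div_div_eq_div_mul, Nat.mul_div_cancel' hqm]
    have hM0 : 0 < m / (r * q) := hd2.hm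
    rw [← pow_mul] at hle hlt hqh
    have hw0 : w ≠ 0 := by
      rintro rfl
      rw [mul_zero, zero_pow hq.ne_zero] at hzw
      exact pow_ne_zero q hz hzw
    refine hmin (r * q) u w hrq hw0 hu (relC_shift hx0 hrel q r j hq.pos hzw) ?_
      (lt_of_le_of_lt hle hlt)
    rw [fin_pair _ _ (hi _) (hi _), hdA2, nd_FF] at hle
    rw [hDf, hM2] at hqh
    have h1 : q * (m / (r * q) * (minpoly (FF ξ ![x ^ (r * q)]) w).natDegree) ≤
        q * (m / (r * q) * (minpoly (FF ξ ![x ^ r]) z).natDegree) := by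
      calc _ ≤ _ := Nat.mul_le_mul_left q hle
        _ ≤ _ := hqh
        _ = _ := by ring
    have h2 := Nat.le_of_mul_le_mul_left (Nat.le_of_mul_le_mul_left h1 hq.pos) hM0
    exact (Nat.mul_le_mul_right u h2).trans hdeg
  · -- (2b)
    have hqm : q ∣ m / r := by
      rw [hdA] at hqx'
      exact ⟨_, hqx'⟩
    have hrq : r * q ∣ m := by
      have h2 := Nat.mul_dvd_mul_left r hqm
      rwa [Nat.mul_div_cancel' hrm] at h2
    have hd2 : DatG b (m / (r * q)) n ξ (x ^ (r * q)) := dat_pow h (r * q) hrq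
    have hdA2 := degA hd2
    have hM2 : m / r = q * (m / (r * q)) := by
      rw [← Nat.div_div_eq_div_mul, Nat.mul_div_cancel' hqm]
    have hM0 : 0 < m / (r * q) := hd2.hm
    rw [← pow_mul] at hlt hqh
    refine hmin (r * q) (u * q) (z ^ q) hrq (pow_ne_zero q hz) (Nat.mul_pos hu hq.pos)
      (relC_img h.hm h.pow hrel (RingHom.id Ω) q 1 le_rfl (pow_one _) (u * q) (fun k => k * q)
        (by ring) (fun k => by push_cast; ring)) ?_ hlt
    rw [fin_pair (x ^ (r * q)) (z ^ q) (hi _) (hi _), hdA2, nd_FF] at hqh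
    rw [hDf, hM2] at hqh
    have h1 : q * (m / (r * q) * ((minpoly (FF ξ ![x ^ (r * q)]) (z ^ q)).natDegree * q)) ≤
        q * (m / (r * q) * (minpoly (FF ξ ![x ^ r]) z).natDegree) := by
      calc _ = _ := by ring
        _ ≤ _ := hqh
        _ = _ := by ring
    have h2 := Nat.le_of_mul_le_mul_left (Nat.le_of_mul_le_mul_left h1 hq.pos) hM0
    calc (minpoly (FF ξ ![x ^ (r * q)]) (z ^ q)).natDegree * (u * q) =
        (minpoly (FF ξ ![x ^ (r * q)]) (z ^ q)).natDegree * q * u := by ring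
      _ ≤ (minpoly (FF ξ ![x ^ r]) z).natDegree * u := Nat.mul_le_mul_right u h2
      _ ≤ d := hdeg

end Pool.Agent.H36.LH
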