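import Pool.Agent.H36.LH.Df
import Pool.Agent.H36.LG.MbB

/-!
# THEOREM L, version 4 (MP_187c26_nt): the weighted evaluation has norm at most `b √(L d) U`

MODEL: `exists_TB` in `Pool/Agent/H36/LG/MbB.lean` (copy and change): `(T h)_τ := ∑_p h_(τ|_A ∘ σ, p) u_p (τ x)^(γ p₁) (τ a)^(γ p₂) wt a K τ / √m`, `|u_p| ≤ U` (in the step with `sum_embB` take `h_(.., (j, l)) u_(j, l)` for `h j`).
Alternative: apply `exists_TB` and compose with the diagonal map `h ↦ (u_p h_(t, p))`, of norm `≤ U`: `bu σ x a n L γ u c = bzA σ x a n L γ (u • c)` by definition and `pcA (u • c)` is the image of `pcA c` under the diagonal map.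
-/

set_option autoImplicit false

open Polynomial NumberField IntermediateField

namespace Pool.Agent.H36.LH

open Pool.Agent.H36.LE Pool.Agent.H36.LF

theorem exists_TU {A E : Type} [Field A] [NumberField A] [Field E] [NumberField E] [Algebra A E]
    {b m d : ℕ} {ι : ℝ} {x : E} (hx : RdA A b m d ι x) (σ : A →+* A) (a : E) (n L γ K : ℕ)
    (hγ : 1 ≤ γ) (hnγ : (n - 1) * γ < m) (hK : γ * (L - 1) ≤ K) (u : Fin n × Fin L → ℚ) (U : ℝ)
    (hU0 : 0 ≤ U) (hU : ∀ p, |(u p : ℝ)| ≤ U) :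
    ∃ T : EuclideanSpace ℂ ((A →+* ℂ) × (Fin n × Fin L)) →ₗ[ℂ] EuclideanSpace ℂ (E →+* ℂ),
      (∀ h, ‖T h‖ ≤ (b * Real.sqrt (L * d) * U) * ‖h‖) ∧
      ∀ c : Fin n × Fin L → A, T (pcA A n L c) = ph m a K (bu σ x a n L γ u c) := by
  obtain ⟨T0, hT1, hT2⟩ := Pool.Agent.H36.LG.exists_TB hx σ a n L γ K hγ hnγ hK
  let D : EuclideanSpace ℂ ((A →+* ℂ) × (Fin n × Fin L)) →ₗ[ℂ]
      EuclideanSpace ℂ ((A →+* ℂ) × (Fin n × Fin L)) :=
    { toFun := fun h => WithLp.toLp 2 fun s => ((u s.2 : ℝ) : ℂ) * h s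
      map_add' := by
        intro h h'
        ext s
        simp [mul_add]
      map_smul' := by
        intro c h
        ext s
        simp [mul_left_comm] }
  have hD : ∀ h s, (D h) s = ((u s.2 : ℝ) : ℂ) * h s := fun h s => rfl
  have hDn : ∀ h, ‖D h‖ ≤ U * ‖h‖ := by
    intro h
    have h1 : ‖D h‖ ^ 2 ≤ (U * ‖h‖) ^ 2 := by
      rw [EuclideanSpace.norm_sq_eq, mul_pow, EuclideanSpace.norm_sq_eq, Finset.mul_sum]
      refine Finset.sum_le_sum fun s _ => ?_
      rw [hD, norm_mul, mul_pow, Complex.norm_real, Real.norm_eq_abs]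
      exact mul_le_mul_of_nonneg_right (pow_le_pow_left₀ (abs_nonneg _) (hU _) 2) (by positivity)
    exact (pow_le_pow_iff_left₀ (norm_nonneg _) (by positivity) two_ne_zero).1 h1
  refine ⟨T0 ∘ₗ D, fun h => ?_, fun c => ?_⟩
  · rw [LinearMap.comp_apply]
    calc ‖T0 (D h)‖ ≤ (b * Real.sqrt (L * d)) * ‖D h‖ := hT1 _
      _ ≤ (b * Real.sqrt (L * d)) * (U * ‖h‖) := mul_le_mul_of_nonneg_left (hDn h) (by positivity)
      _ = (b * Real.sqrt (L * d) * U) * ‖h‖ := by ring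
  · rw [LinearMap.comp_apply]
    have h1 : D (pcA A n L c) = pcA A n L (fun p => u p • c p) := by
      ext s
      rw [hD]
      change ((u s.2 : ℝ) : ℂ) * s.1 (c s.2) = s.1 (u s.2 • c s.2)
      rw [Rat.smul_def, map_mul, map_ratCast]
      norm_num
    rw [h1, hT2]
    rfl

end Pool.Agent.H36.LH
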